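import Mathlib

/-!
Boolean circuits with AND gates, OR gates (of unbounded fan-in) and NOT gates.
-/

namespace Pool.Agent.SliceCircuits

/-- The Boolean variables `x_{ij}`, `i < j`, of graphs on the vertex set `Fin n`. -/
abbrev EdgeVar (n : ℕ) : Type := {p : Fin n × Fin n // p.1 < p.2}

/-- A gate of a circuit with variables `V` and gates numbered by `Fin s`: an AND gate or an OR gate
fed by the wires in a finite set `J`, or a NOT gate fed by the wire `w`. A wire is a variable
(`Sum.inl v`) or the output of another gate (`Sum.inr j`). -/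
inductive Gate (V : Type) (s : ℕ) : Type
  | and (J : Finset (V ⊕ Fin s)) : Gate V s
  | or (J : Finset (V ⊕ Fin s)) : Gate V s
  | not (w : V ⊕ Fin s) : Gate V s

/-- The wires feeding a gate. -/
def Gate.wires {V : Type} {s : ℕ} : Gate V s → Finset (V ⊕ Fin s)
  | .and J => J
  | .or J => J
  | .not w => {w}

/-- The value computed by a gate, when the wires have the values `v`. -/
def Gate.value {V : Type} {s : ℕ} (v : V ⊕ Fin s → Prop) : Gate V s → Prop
  | .and J => ∀ w ∈ J, v w
  | .or J => ∃ w ∈ J, v w
  | .not w => ¬ v w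

/-- A circuit with `s` gates over the variables `V`. The gates are numbered `0, ..., s - 1` in a
topological order, and `out` is the output gate. -/
structure Circuit (V : Type) (s : ℕ) where
  gate : Fin s → Gate V s
  acyclic : ∀ i j : Fin s, Sum.inr j ∈ (gate i).wires → j < i
  out : Fin s

/-- `val` is the vector of the values of all gates of `D` on the assignment `x` (it exists and is
unique, since the gates are numbered topologically). -/
def Circuit.IsEval {V : Type} {s : ℕ} (D : Circuit V s) (x : V → Prop) (val : Fin s → Prop) :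
    Prop :=
  ∀ i, val i ↔ (D.gate i).value (Sum.elim x val)

/-- The output of `D` on the assignment `x` is true. -/
def Circuit.Accepts {V : Type} {s : ℕ} (D : Circuit V s) (x : V → Prop) : Prop :=
  ∃ val : Fin s → Prop, D.IsEval x val ∧ val D.out

open Classical in
/-- The number of NOT gates. -/
noncomputable def Circuit.numNot {V : Type} {s : ℕ} (D : Circuit V s) : ℕ :=
  (Finset.univ.filter fun i => ∃ w, D.gate i = Gate.not w).card

/-- `G` has a clique with more than `√n` vertices, i.e. `CLIQUE_n` is true on `G`. -/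
def HasClique {n : ℕ} (G : SimpleGraph (Fin n)) : Prop :=
  ∃ K : Finset (Fin n), G.IsClique (K : Set (Fin n)) ∧ Real.sqrt n < K.card

/-- `D` computes `CLIQUE_n` correctly on all graphs whose number of edges lies in `R`. -/
def Circuit.CorrectOn {n s : ℕ} (D : Circuit (EdgeVar n) s) (R : Set ℕ) : Prop :=
  ∀ G : SimpleGraph (Fin n), G.edgeSet.ncard ∈ R →
    (D.Accepts (fun e => G.Adj e.1.1 e.1.2) ↔ HasClique G)

/-- Q1, word for word as in the frozen statement `S14355`: for all `k` and `N` there is `n ≥ N` such
that every circuit of AND gates and OR gates of fan-in 2 over literals which computes `CLIQUE_n`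
has more than `n ^ k` gates. -/
def Q1 : Prop :=
    ∀ k N : ℕ, ∃ n : ℕ, N ≤ n ∧
      ∀ s : ℕ, ∀ (op : Fin s → Bool)
        (a b : Fin s → ({p : Fin n × Fin n // p.1 < p.2} × Bool) ⊕ Fin s) (o : Fin s),
        (∀ i j : Fin s, (a i = Sum.inr j → j < i) ∧ (b i = Sum.inr j → j < i)) →
        (∀ G : SimpleGraph (Fin n), ∃ val : Fin s → Prop,
          (∀ i : Fin s, val i ↔
            (if op i = true then
              (Sum.elim (fun l : {p : Fin n × Fin n // p.1 < p.2} × Bool =>
                  (G.Adj l.1.1.1 l.1.1.2 ↔ l.2 = true)) val (a i) ∧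
               Sum.elim (fun l : {p : Fin n × Fin n // p.1 < p.2} × Bool =>
                  (G.Adj l.1.1.1 l.1.1.2 ↔ l.2 = true)) val (b i))
            else
              (Sum.elim (fun l : {p : Fin n × Fin n // p.1 < p.2} × Bool =>
                  (G.Adj l.1.1.1 l.1.1.2 ↔ l.2 = true)) val (a i) ∨
               Sum.elim (fun l : {p : Fin n × Fin n // p.1 < p.2} × Bool =>
                  (G.Adj l.1.1.1 l.1.1.2 ↔ l.2 = true)) val (b i)))) ∧
          (val o ↔ ∃ c : Finset (Fin n), G.IsClique (c : Set (Fin n)) ∧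
              Real.sqrt (n : ℝ) < (c.card : ℝ))) →
        n ^ k < s

/-- There are a constant `k` and, for all large `n`, a circuit with at most `n ^ k` gates, at most
`h n` of which are NOT gates, that computes `CLIQUE_n` correctly on all graphs whose number of
edges lies in `R n`. -/
def PolySizeOn (R : ℕ → Finset ℕ) (h : ℕ → ℕ) : Prop :=
  ∃ k N : ℕ, ∀ n ≥ N, ∃ s ≤ n ^ k, ∃ D : Circuit (EdgeVar n) s,
    D.numNot ≤ h n ∧ D.CorrectOn (R n)

/-- For large `n` the set `R n` is not empty, its elements lie in the range from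
`n + ω(r log⁸ n)` to `n(n - 1)/2 - n⌊√n⌋ - ω(r log⁸ n)` where `r = |R n|`, and any two of them differ
by at least `ω(log⁴ n)`. -/
def Spread (R : ℕ → Finset ℕ) : Prop :=
  ∀ C : ℕ, ∃ n₀ : ℕ, ∀ n ≥ n₀, (R n).Nonempty ∧
    (∀ a ∈ R n, ∀ b ∈ R n, a < b → a + C * Nat.log 2 n ^ 4 ≤ b) ∧
    ∀ a ∈ R n, n + C * (R n).card * Nat.log 2 n ^ 8 ≤ a ∧
      a + n * Nat.sqrt n + C * (R n).card * Nat.log 2 n ^ 8 ≤ n.choose 2

end Pool.Agent.SliceCircuits
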