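import Mathlib
import Pool.Agent.Lib.MP_0a1b52_lc_BAND.Families

/-!
Padding: a graph on `n0` vertices is extended to a graph on `n` vertices by new vertices which form
`t` further parts. The number of edges can be adjusted without changing the clique condition.
-/

namespace Pool.Agent.CliqueModules

open Finset

/-- The graph given by an assignment of the variables. -/
def toGraph {n : ℕ} (x : EdgeVar n → Prop) : SimpleGraph (Fin n) where
  Adj u v := (∃ h : u < v, x ⟨(u, v), h⟩) ∨ (∃ h : v < u, x ⟨(v, u), h⟩)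
  symm := ⟨fun _ _ h => h.symm⟩
  loopless := ⟨fun _ h => by
    rcases h with ⟨h, -⟩ | ⟨h, -⟩
    · exact lt_irrefl _ h
    · exact lt_irrefl _ h⟩

theorem toGraph_adj {n : ℕ} (x : EdgeVar n → Prop) (e : EdgeVar n) :
    (toGraph x).Adj e.1.1 e.1.2 ↔ x e := by
  constructor
  · rintro (⟨h, hx⟩ | ⟨h, hx⟩)
    · exact hx
    · exact absurd h (lt_asymm e.2)
  · intro h
    exact Or.inl ⟨e.2, h⟩

open Classical in
/-- The variables which are true in `G`. -/
noncomputable def edgesOf {n : ℕ} (G : SimpleGraph (Fin n)) : Finset (EdgeVar n) :=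
  univ.filter fun e => G.Adj e.1.1 e.1.2

theorem mem_edgesOf {n : ℕ} (G : SimpleGraph (Fin n)) (e : EdgeVar n) :
    e ∈ edgesOf G ↔ G.Adj e.1.1 e.1.2 := by
  classical
  unfold edgesOf
  rw [mem_filter]
  exact ⟨fun h => h.2, fun h => ⟨mem_univ _, h⟩⟩

theorem ncard_edgeSet {n : ℕ} (G : SimpleGraph (Fin n)) :
    G.edgeSet.ncard = (edgesOf G).card := by
  rw [← Set.ncard_coe_finset]
  symm
  refine Set.ncard_congr (fun e _ => s(e.1.1, e.1.2)) ?_ ?_ ?_
  · intro e he
    rw [SimpleGraph.mem_edgeSet]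
    exact (mem_edgesOf G e).1 (mem_coe.1 he)
  · intro e e' _ _ h
    rw [Sym2.eq_iff] at h
    rcases h with ⟨h1, h2⟩ | ⟨h1, h2⟩
    · exact Subtype.ext (Prod.ext h1 h2)
    · have h3 := e.2
      have h4 := e'.2
      rw [h1, h2] at h3
      exact absurd h3 (lt_asymm h4)
  · intro z hz
    induction z using Sym2.inductionOn with
    | hf u v =>
      rw [SimpleGraph.mem_edgeSet] at hz
      rcases lt_or_gt_of_ne hz.ne with h | h
      · refine ⟨⟨(u, v), h⟩, ?_, rfl⟩
        exact mem_coe.2 ((mem_edgesOf G _).2 hz)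
      · refine ⟨⟨(v, u), h⟩, ?_, Sym2.eq_swap⟩
        exact mem_coe.2 ((mem_edgesOf G _).2 hz.symm)

theorem card_edgeVar (n : ℕ) : (univ : Finset (EdgeVar n)).card = n.choose 2 := by
  classical
  have h1 := ncard_edgeSet (⊤ : SimpleGraph (Fin n))
  have h2 : edgesOf (⊤ : SimpleGraph (Fin n)) = univ := by
    ext e
    rw [mem_edgesOf]
    exact ⟨fun _ => mem_univ _, fun _ => ne_of_lt e.2⟩
  rw [h2] at h1
  rw [← h1, Set.ncard_eq_toFinset_card']
  have h3 := SimpleGraph.card_edgeFinset_top_eq_card_choose_two (V := Fin n)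
  rw [Fintype.card_fin] at h3
  rw [← h3]
  congr 1

section pad

variable {n0 n : ℕ}

/-- The inclusion of the variables. -/
def evEmb (h : n0 ≤ n) : EdgeVar n0 ↪ EdgeVar n where
  toFun e := ⟨(Fin.castLE h e.1.1, Fin.castLE h e.1.2), e.2⟩
  inj' := by
    intro e e' he
    have h1 := congrArg (fun z : EdgeVar n => z.1.1.val) he
    have h2 := congrArg (fun z : EdgeVar n => z.1.2.val) he
    exact Subtype.ext (Prod.ext (Fin.ext h1) (Fin.ext h2))

/-- The projection of the variables: the variables inside the first `n0` vertices are kept, the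
others are fixed according to `Fo`. -/
def padProj (n0 : ℕ) {n : ℕ} (Fo : Finset (EdgeVar n)) (e : EdgeVar n) : EdgeVar n0 ⊕ Prop :=
  if h : e.1.2.val < n0 then
    Sum.inl ⟨(⟨e.1.1.val, lt_trans e.2 h⟩, ⟨e.1.2.val, h⟩), e.2⟩
  else Sum.inr (e ∈ Fo)

theorem lift_padProj_inner (Fo : Finset (EdgeVar n)) (G : SimpleGraph (Fin n0)) (e : EdgeVar n)
    (h : e.1.2.val < n0) : lift (padProj n0 Fo) G e ↔
      G.Adj ⟨e.1.1.val, lt_trans e.2 h⟩ ⟨e.1.2.val, h⟩ := by
  unfold lift padProj
  rw [dif_pos h]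
  exact Iff.rfl

theorem lift_padProj_outer (Fo : Finset (EdgeVar n)) (G : SimpleGraph (Fin n0)) (e : EdgeVar n)
    (h : ¬ e.1.2.val < n0) : lift (padProj n0 Fo) G e ↔ e ∈ Fo := by
  unfold lift padProj
  rw [dif_neg h]
  exact Iff.rfl

/-- The padded graph. -/
def pad (Fo : Finset (EdgeVar n)) (G : SimpleGraph (Fin n0)) : SimpleGraph (Fin n) :=
  toGraph (lift (padProj n0 Fo) G)

theorem pad_asg (Fo : Finset (EdgeVar n)) (G : SimpleGraph (Fin n0)) :
    (fun e : EdgeVar n => (pad Fo G).Adj e.1.1 e.1.2) = lift (padProj n0 Fo) G := by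
  funext e
  exact propext (toGraph_adj _ e)

theorem card_pad (hn : n0 ≤ n) (Fo : Finset (EdgeVar n)) (hF : ∀ e ∈ Fo, n0 ≤ e.1.2.val)
    (G : SimpleGraph (Fin n0)) : (pad Fo G).edgeSet.ncard = (edgesOf G).card + Fo.card := by
  classical
  rw [ncard_edgeSet]
  have h1 : edgesOf (pad Fo G) = (edgesOf G).map (evEmb hn) ∪ Fo := by
    ext e
    rw [mem_edgesOf, mem_union, mem_map]
    unfold pad
    rw [toGraph_adj]
    by_cases h : e.1.2.val < n0
    · rw [lift_padProj_inner _ _ _ h]
      constructor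
      · intro h'
        left
        exact ⟨⟨(⟨e.1.1.val, lt_trans e.2 h⟩, ⟨e.1.2.val, h⟩), e.2⟩, (mem_edgesOf _ _).2 h', rfl⟩
      · rintro (⟨e', he', rfl⟩ | h')
        · exact (mem_edgesOf _ _).1 he'
        · exact absurd h (not_lt.2 (hF e h'))
    · rw [lift_padProj_outer _ _ _ h]
      constructor
      · exact Or.inr
      · rintro (⟨e', he', rfl⟩ | h')
        · exact absurd e'.1.2.isLt h
        · exact h'
  rw [h1, card_union_of_disjoint, card_map]
  rw [disjoint_left]
  intro e he he'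
  obtain ⟨e', he', rfl⟩ := mem_map.1 he
  exact absurd e'.1.2.isLt (not_lt.2 (hF _ he'))

/-- The smallest set of outer edges. -/
def outMin (n0 n t : ℕ) : Finset (EdgeVar n) :=
  univ.filter fun e => n0 ≤ e.1.2.val ∧ e.1.2.val < n0 + t

/-- The largest set of outer edges. -/
def outMax (n0 n t : ℕ) : Finset (EdgeVar n) :=
  univ.filter fun e => n0 ≤ e.1.2.val ∧
    (n0 ≤ e.1.1.val → (e.1.1.val - n0) % t ≠ (e.1.2.val - n0) % t)

theorem outMin_subset (n0 n t : ℕ) : outMin n0 n t ⊆ outMax n0 n t := by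
  intro e he
  obtain ⟨-, h1, h2⟩ := mem_filter.1 he
  refine mem_filter.2 ⟨mem_univ _, h1, fun h3 => ?_⟩
  have h4 : e.1.1.val < e.1.2.val := e.2
  rw [Nat.mod_eq_of_lt (by omega), Nat.mod_eq_of_lt (by omega)]
  omega

/-- Padding does not change the clique condition. -/
theorem hasClique_pad (hn : n0 ≤ n) {t : ℕ} (ht : 1 ≤ t) (hnt : n0 + t ≤ n)
    (hsq : Nat.sqrt n = Nat.sqrt n0 + t) (Fo : Finset (EdgeVar n))
    (h1 : outMin n0 n t ⊆ Fo) (h2 : Fo ⊆ outMax n0 n t) (G : SimpleGraph (Fin n0)) :
    HasClique (pad Fo G) ↔ HasClique G := by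
  classical
  have hadj : ∀ u v : Fin n, ∀ (huv : u < v), (pad Fo G).Adj u v ↔
      lift (padProj n0 Fo) G ⟨(u, v), huv⟩ := fun u v huv => toGraph_adj _ ⟨(u, v), huv⟩
  have hinner : ∀ (u v : Fin n) (hu : u.val < n0) (hv : v.val < n0),
      (pad Fo G).Adj u v ↔ G.Adj ⟨u.val, hu⟩ ⟨v.val, hv⟩ := by
    intro u v hu hv
    rcases lt_trichotomy u v with h | h | h
    · rw [hadj u v h, lift_padProj_inner _ _ _ hv]
    · subst h
      exact ⟨fun h => absurd rfl h.ne, fun h => absurd rfl h.ne⟩
    · rw [SimpleGraph.adj_comm, hadj v u h, lift_padProj_inner _ _ _ hu, SimpleGraph.adj_comm]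
  rw [hasClique_iff, hasClique_iff]
  constructor
  · rintro ⟨K, hK, hKc⟩
    -- the outer part has at most t vertices
    set Ko := K.filter fun v => n0 ≤ v.val with hKo
    set Ki := K.filter fun v => ¬ n0 ≤ v.val with hKi
    have hcard : Ko.card + Ki.card = K.card := card_filter_add_card_filter_not _
    have hKo' : Ko.card ≤ t := by
      have hmaps : ∀ v ∈ Ko, (v.val - n0) % t ∈ range t :=
        fun v _ => mem_range.2 (Nat.mod_lt _ (by omega))
      have hinj : ∀ u ∈ Ko, ∀ v ∈ Ko, (u.val - n0) % t = (v.val - n0) % t → u = v := by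
        have key : ∀ u ∈ Ko, ∀ v ∈ Ko, u < v → (u.val - n0) % t ≠ (v.val - n0) % t := by
          intro u hu v hv huv
          obtain ⟨huK, hu0⟩ := mem_filter.1 hu
          obtain ⟨hvK, hv0⟩ := mem_filter.1 hv
          have h3 := (hadj u v huv).1 (hK huK hvK (ne_of_lt huv))
          rw [lift_padProj_outer _ _ _ (not_lt.2 hv0)] at h3
          exact (mem_filter.1 (h2 h3)).2.2 hu0
        intro u hu v hv h
        rcases lt_trichotomy u v with h' | h' | h'
        · exact absurd h (key u hu v hv h')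
        · exact h'
        · exact absurd h.symm (key v hv u hu h')
      have := card_le_card_of_injOn (fun v : Fin n => (v.val - n0) % t)
        (fun v hv => hmaps v hv) (fun u hu v hv h => hinj u hu v hv h)
      rwa [card_range] at this
    have hKi' : Nat.sqrt n0 + 1 ≤ Ki.card := by omega
    have hlt : ∀ v ∈ Ki, v.val < n0 := fun v hv => not_le.1 (mem_filter.1 hv).2
    refine ⟨univ.filter fun v : Fin n0 => Fin.castLE hn v ∈ Ki, ?_, ?_⟩
    · intro u hu v hv huv
      have hu' := (mem_filter.1 (mem_coe.1 hu)).2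
      have hv' := (mem_filter.1 (mem_coe.1 hv)).2
      have h3 : (pad Fo G).Adj (Fin.castLE hn u) (Fin.castLE hn v) := by
        refine hK (mem_filter.1 hu').1 (mem_filter.1 hv').1 ?_
        intro h
        exact huv (Fin.castLE_injective hn h)
      exact (hinner _ _ u.isLt v.isLt).1 h3
    · refine hKi'.trans (card_le_card_of_injOn (fun v : Fin n => if h : v.val < n0 then
        (⟨v.val, h⟩ : Fin n0) else ⟨0, by
          by_contra h0
          have : Ki = ∅ := by
            rw [eq_empty_iff_forall_notMem]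
            intro w hw
            have := hlt w hw
            omega
          rw [this, card_empty] at hKi'
          omega⟩) ?_ ?_)
      · intro v hv
        have hv' : v ∈ Ki := mem_coe.1 hv
        have h3 := hlt v hv'
        simp only [dif_pos h3, coe_filter, mem_univ, true_and, Set.mem_setOf_eq]
        exact hv'
      · intro u hu v hv h
        have hu' := hlt u (mem_coe.1 hu)
        have hv' := hlt v (mem_coe.1 hv)
        simp only [dif_pos hu', dif_pos hv', Fin.mk.injEq] at h
        exact Fin.ext h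
  · rintro ⟨K, hK, hKc⟩
    set Ki := K.map ⟨Fin.castLE hn, Fin.castLE_injective hn⟩ with hKi
    set Ko := (univ : Finset (Fin n)).filter fun v => n0 ≤ v.val ∧ v.val < n0 + t with hKo
    have hKo' : Ko.card = t := by
      have h3 : Ko = (univ : Finset (Fin t)).map
          ⟨fun i => (⟨n0 + i.val, by omega⟩ : Fin n), fun i j h => by
            have := congrArg Fin.val h
            simp only at this
            exact Fin.ext (by omega)⟩ := by
        ext v
        rw [hKo, mem_filter, mem_map]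
        constructor
        · rintro ⟨-, h4, h5⟩
          refine ⟨⟨v.val - n0, by omega⟩, mem_univ _, ?_⟩
          apply Fin.ext
          show n0 + (v.val - n0) = v.val
          omega
        · rintro ⟨i, -, rfl⟩
          refine ⟨mem_univ _, ?_, ?_⟩
          · show n0 ≤ n0 + i.val
            omega
          · show n0 + i.val < n0 + t
            omega
      rw [h3, card_map, card_univ, Fintype.card_fin]
    have hdis : Disjoint Ki Ko := by
      rw [disjoint_left]
      intro v hv hv'
      obtain ⟨w, -, rfl⟩ := mem_map.1 hv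
      have h3 : n0 ≤ w.val := (mem_filter.1 hv').2.1
      have := w.isLt
      omega
    refine ⟨Ki ∪ Ko, ?_, ?_⟩
    · -- an outer vertex is adjacent to everything
      have hout : ∀ u ∈ Ki ∪ Ko, ∀ v ∈ Ko, u < v → (pad Fo G).Adj u v := by
        intro u hu v hv huv
        obtain ⟨-, h3, h4⟩ := mem_filter.1 hv
        rw [hadj u v huv, lift_padProj_outer _ _ _ (not_lt.2 h3)]
        exact h1 (mem_filter.2 ⟨mem_univ _, h3, h4⟩)
      have hlt : ∀ u ∈ Ki, ∀ v ∈ Ko, u < v := by
        intro u hu v hv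
        obtain ⟨w, -, rfl⟩ := mem_map.1 hu
        have h3 : n0 ≤ v.val := (mem_filter.1 hv).2.1
        have := w.isLt
        show w.val < v.val
        omega
      intro u hu v hv huv
      have hu' := mem_coe.1 hu
      have hv' := mem_coe.1 hv
      rcases mem_union.1 hu' with hui | huo
      · rcases mem_union.1 hv' with hvi | hvo
        · obtain ⟨a, ha, rfl⟩ := mem_map.1 hui
          obtain ⟨b, hb, rfl⟩ := mem_map.1 hvi
          refine (hinner _ _ a.isLt b.isLt).2 (hK ha hb ?_)
          rintro rfl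
          exact huv rfl
        · exact hout u hu' v hvo (hlt u hui v hvo)
      · rcases mem_union.1 hv' with hvi | hvo
        · exact (hout v hv' u huo (hlt v hvi u huo)).symm
        · rcases lt_or_gt_of_ne huv with h | h
          · exact hout u hu' v hvo h
          · exact (hout v hv' u huo h).symm
    · rw [card_union_of_disjoint hdis, hKo', hKi, card_map]
      omega

/-- The number of edges of the smallest set of outer edges. -/
theorem card_outMin {t : ℕ} (hnt : n0 + t ≤ n) :
    (outMin n0 n t).card + n0.choose 2 = (n0 + t).choose 2 := by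
  classical
  have h1 : outMin n0 n t ∪ (univ : Finset (EdgeVar n0)).map (evEmb (by omega)) =
      (univ : Finset (EdgeVar (n0 + t))).map (evEmb hnt) := by
    ext e
    rw [mem_union, mem_map, mem_map]
    constructor
    · rintro (h | ⟨e', -, rfl⟩)
      · obtain ⟨-, h2, h3⟩ := mem_filter.1 h
        exact ⟨⟨(⟨e.1.1.val, lt_trans e.2 h3⟩, ⟨e.1.2.val, h3⟩), e.2⟩, mem_univ _, rfl⟩
      · refine ⟨⟨(⟨e'.1.1.val, by omega⟩, ⟨e'.1.2.val, by omega⟩), e'.2⟩, mem_univ _, rfl⟩
    · rintro ⟨e', -, rfl⟩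
      by_cases h : e'.1.2.val < n0
      · right
        exact ⟨⟨(⟨e'.1.1.val, lt_trans e'.2 h⟩, ⟨e'.1.2.val, h⟩), e'.2⟩, mem_univ _, rfl⟩
      · left
        exact mem_filter.2 ⟨mem_univ _, not_lt.1 h, e'.1.2.isLt⟩
  have h2 : Disjoint (outMin n0 n t) ((univ : Finset (EdgeVar n0)).map (evEmb (by omega))) := by
    rw [disjoint_left]
    intro e he he'
    obtain ⟨e', -, rfl⟩ := mem_map.1 he'
    have h3 : n0 ≤ e'.1.2.val := (mem_filter.1 he).2.1
    have := e'.1.2.isLt
    omega
  have h3 := congrArg card h1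
  rw [card_union_of_disjoint h2, card_map, card_map, card_edgeVar, card_edgeVar] at h3
  exact h3

theorem sum_sub_le (n0 m : ℕ) : 2 * ∑ i ∈ range m, (i - n0) ≤ (m - n0) ^ 2 := by
  induction m with
  | zero => simp
  | succ m ih =>
    rw [sum_range_succ, mul_add]
    rcases Nat.lt_or_ge m n0 with h | h
    · have e1 : m - n0 = 0 := by omega
      rw [e1] at ih ⊢
      have : (0 : ℕ) ≤ (m + 1 - n0) ^ 2 := Nat.zero_le _
      omega
    · obtain ⟨k, rfl⟩ : ∃ k, m = n0 + k := ⟨m - n0, by omega⟩
      have e1 : n0 + k - n0 = k := by omega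
      have e2 : n0 + k + 1 - n0 = k + 1 := by omega
      rw [e1] at ih ⊢
      rw [e2]
      have : (k + 1) ^ 2 = k ^ 2 + 2 * k + 1 := by ring
      omega

/-- The number of edges missing in the largest set of outer edges. -/
theorem card_outMax (hn : n0 ≤ n) {t : ℕ} (ht : 1 ≤ t) :
    2 * t * (n.choose 2) ≤ 2 * t * ((outMax n0 n t).card + n0.choose 2) + (n - n0) ^ 2 := by
  classical
  set Same : Finset (EdgeVar n) := univ.filter fun e =>
    n0 ≤ e.1.1.val ∧ (e.1.1.val - n0) % t = (e.1.2.val - n0) % t with hSame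
  have hcov : (univ : Finset (EdgeVar n)) ⊆
      outMax n0 n t ∪ ((univ : Finset (EdgeVar n0)).map (evEmb hn) ∪ Same) := by
    intro e _
    by_cases h : e.1.2.val < n0
    · apply mem_union_right
      apply mem_union_left
      exact mem_map.2 ⟨⟨(⟨e.1.1.val, lt_trans e.2 h⟩, ⟨e.1.2.val, h⟩), e.2⟩, mem_univ _, rfl⟩
    · by_cases h' : n0 ≤ e.1.1.val ∧ (e.1.1.val - n0) % t = (e.1.2.val - n0) % t
      · apply mem_union_right
        apply mem_union_right
        exact mem_filter.2 ⟨mem_univ _, h'⟩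
      · apply mem_union_left
        refine mem_filter.2 ⟨mem_univ _, not_lt.1 h, fun h3 h4 => h' ⟨h3, h4⟩⟩
  have h1 : n.choose 2 ≤ (outMax n0 n t).card + (n0.choose 2 + Same.card) := by
    rw [← card_edgeVar n]
    refine (card_le_card hcov).trans ((card_union_le _ _).trans ?_)
    refine Nat.add_le_add_left ((card_union_le _ _).trans ?_) _
    rw [card_map, card_edgeVar]
  have h2 : Same.card ≤ ∑ v : Fin n, (v.val - n0) / t := by
    rw [card_eq_sum_card_fiberwise (f := fun e : EdgeVar n => e.1.2) (t := univ)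
      (fun _ _ => mem_univ _)]
    refine sum_le_sum fun v _ => ?_
    have h3 := card_le_card_of_injOn (s := Same.filter fun e : EdgeVar n => e.1.2 = v)
      (t := Icc 1 ((v.val - n0) / t)) (fun e : EdgeVar n => (v.val - e.1.1.val) / t) ?_ ?_
    · rwa [Nat.card_Icc, Nat.add_sub_cancel] at h3
    · intro e he
      obtain ⟨he1, rfl⟩ := mem_filter.1 (mem_coe.1 he)
      obtain ⟨-, h4, h5⟩ := mem_filter.1 he1
      have h6 : e.1.1.val < e.1.2.val := e.2
      have h7 : t ∣ (e.1.2.val - n0) - (e.1.1.val - n0) :=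
        (Nat.modEq_iff_dvd' (by omega)).1 h5
      have h8 : (e.1.2.val - n0) - (e.1.1.val - n0) = e.1.2.val - e.1.1.val := by omega
      rw [h8] at h7
      rw [mem_coe, mem_Icc]
      constructor
      · exact Nat.div_pos (Nat.le_of_dvd (by omega) h7) (by omega)
      · exact Nat.div_le_div_right (by omega)
    · intro e he e' he' h
      obtain ⟨he1, hev⟩ := mem_filter.1 (mem_coe.1 he)
      obtain ⟨he1', hev'⟩ := mem_filter.1 (mem_coe.1 he')
      obtain ⟨-, h4, h5⟩ := mem_filter.1 he1
      obtain ⟨-, h4', h5'⟩ := mem_filter.1 he1'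
      have h6 : e.1.1.val < e.1.2.val := e.2
      have h6' : e'.1.1.val < e'.1.2.val := e'.2
      rw [hev] at h5 h6
      rw [hev'] at h5' h6'
      have h7 : t ∣ (v.val - n0) - (e.1.1.val - n0) := (Nat.modEq_iff_dvd' (by omega)).1 h5
      have h7' : t ∣ (v.val - n0) - (e'.1.1.val - n0) := (Nat.modEq_iff_dvd' (by omega)).1 h5'
      rw [show (v.val - n0) - (e.1.1.val - n0) = v.val - e.1.1.val by omega] at h7
      rw [show (v.val - n0) - (e'.1.1.val - n0) = v.val - e'.1.1.val by omega] at h7'
      have h8 : (v.val - e.1.1.val) / t = (v.val - e'.1.1.val) / t := h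
      have h9 : v.val - e.1.1.val = v.val - e'.1.1.val := by
        rw [← Nat.div_mul_cancel h7, ← Nat.div_mul_cancel h7', h8]
      have h10 : e.1.1.val = e'.1.1.val := by omega
      exact Subtype.ext (Prod.ext (Fin.ext h10) (hev.trans hev'.symm))
  have h3 : t * ∑ v : Fin n, (v.val - n0) / t ≤ ∑ i ∈ range n, (i - n0) := by
    rw [Fin.sum_univ_eq_sum_range (fun i => (i - n0) / t) n, mul_sum]
    refine sum_le_sum fun i _ => ?_
    exact Nat.mul_div_le _ _
  have h4 := sum_sub_le n0 n
  calc 2 * t * (n.choose 2) ≤ 2 * t * ((outMax n0 n t).card + (n0.choose 2 + Same.card)) :=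
        Nat.mul_le_mul_left _ h1
    _ = 2 * t * ((outMax n0 n t).card + n0.choose 2) + 2 * (t * Same.card) := by ring
    _ ≤ 2 * t * ((outMax n0 n t).card + n0.choose 2) + (n - n0) ^ 2 := by
        apply Nat.add_le_add_left
        calc 2 * (t * Same.card) ≤ 2 * (t * ∑ v : Fin n, (v.val - n0) / t) :=
              Nat.mul_le_mul_left _ (Nat.mul_le_mul_left _ h2)
          _ ≤ 2 * ∑ i ∈ range n, (i - n0) := Nat.mul_le_mul_left _ h3
          _ ≤ _ := h4

end pad

end Pool.Agent.CliqueModules
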