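import Mathlib
import Pool.Agent.Lib.MP_0a1b52_lc_RND.Chains

/-!
The number of times at which a wire feeding a special gate changes along an increasing sequence of
assignments, and the version for alternating sequences.
-/

namespace Pool.Agent.CliqueModules

open Finset

open Classical in
/-- The number of steps at which a wire feeding a special gate changes. -/
theorem chain_special {V : Type} [Fintype V] {s : ℕ} (D : Circuit V s) (T : Finset V) (M : ℕ)
    (x : ℕ → V → Prop) (val : ℕ → Fin s → Prop) (hval : ∀ t, D.IsEval (x t) (val t))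
    (hx : ∀ t v, x t v → x (t + 1) v) (hT : ∀ t v, v ∉ T → (x t v ↔ x (t + 1) v)) :
    ((range M).filter fun t => ∃ i J f w, D.gate i = Gate.special J f ∧ w ∈ J ∧
      ¬ (Sum.elim (x t) (val t) w ↔ Sum.elim (x (t + 1)) (val (t + 1)) w)).card <
      D.weight T := by
  have hmod : ∀ J, J ∈ D.modules ↔ ∃ i f, D.gate i = Gate.special J f := by
    intro J
    simp [Circuit.modules]
  have hfeed : ∀ i j, Relation.TransGen D.Feeds i j → i < j := by
    intro i j h
    induction h with
    | single h => exact D.acyclic _ _ h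
    | tail _ h ih => exact ih.trans (D.acyclic _ _ h)
  -- the position of a module
  have hex : ∀ J ∈ D.modules, ∃ i, (∃ f, D.gate i = Gate.special J f) ∧
      ∀ i' < i, ¬ ∃ f, D.gate i' = Gate.special J f := by
    intro J hJ
    obtain ⟨i, hi, hmin⟩ := WellFounded.has_min (wellFounded_lt (α := Fin s))
      {i | ∃ f, D.gate i = Gate.special J f} ((hmod J).1 hJ)
    exact ⟨i, hi, fun i' hi' hc => hmin i' hc hi'⟩
  have hout : Nonempty (Fin s) := ⟨D.out⟩
  choose! pos hpos1 hpos2 using hex
  -- a path to a special gate is a path to all gates of its module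
  have hsame : ∀ i i' i'' J f f', D.gate i' = Gate.special J f → D.gate i'' = Gate.special J f' →
      Relation.TransGen D.Feeds i i' → Relation.TransGen D.Feeds i i'' := by
    intro i i' i'' J f f' h' h'' h
    have hlast : ∀ j, D.Feeds j i' → D.Feeds j i'' := by
      intro j hj
      unfold Circuit.Feeds at hj ⊢
      rw [h'] at hj
      rw [h'']
      exact hj
    cases h with
    | single h => exact Relation.TransGen.single (hlast _ h)
    | tail h1 h => exact Relation.TransGen.tail h1 (hlast _ h)
  have hpos : ∀ J ∈ D.modules, ∀ J' ∈ D.modules, D.Precedes J J' →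
      (pos J).val < (pos J').val := by
    rintro J hJ J' hJ' ⟨i, i', f, f', hi, hi', h⟩
    obtain ⟨g', hg'⟩ := hpos1 J' hJ'
    have h1 := hfeed _ _ (hsame i i' (pos J') J' f' g' hi' hg' h)
    have h2 : pos J ≤ i := by
      by_contra hcon
      exact hpos2 J hJ i (not_le.1 hcon) ⟨f, hi⟩
    exact lt_of_le_of_lt h2 h1
  have htr : ∀ J ∈ D.modules, ∀ J' ∈ D.modules, ∀ J'' ∈ D.modules, D.Precedes J J' →
      D.Precedes J' J'' → D.Precedes J J'' := by
    rintro J _ J' _ J'' _ ⟨i, i', f, f', hi, hi', h⟩ ⟨k, k'', g, g'', hk, hk'', h'⟩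
    exact ⟨i, k'', f, g'', hi, hk'', (hsame i i' k J' f' g hi' hk h).trans h'⟩
  let Ch : ℕ → (V ⊕ Fin s) → Prop := fun t w =>
    ¬ (Sum.elim (x t) (val t) w ↔ Sum.elim (x (t + 1)) (val (t + 1)) w)
  have hdep : ∀ t w, Ch t w → D.DependsOn T w := by
    intro t w h
    exact ⟨x t, x (t + 1), val t, val (t + 1), hT t, hval t, hval (t + 1), h⟩
  let E : Finset (V ⊕ Fin s) → Finset ℕ := fun J => (range M).filter fun t => ∃ w ∈ J, Ch t w
  -- monotonicity below the modules
  have hmono : ∀ t, ∀ J ∈ D.modules, (∀ J' ∈ D.modules, D.Precedes J' J → ∀ w ∈ J', ¬ Ch t w) →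
      ∀ w ∈ J, Sum.elim (x t) (val t) w → Sum.elim (x (t + 1)) (val (t + 1)) w := by
    intro t J hJ hno
    obtain ⟨i, f, hi⟩ := (hmod J).1 hJ
    have key : ∀ j, Relation.TransGen D.Feeds j i → val t j → val (t + 1) j := by
      intro j
      induction j using WellFoundedLT.induction with
      | ind j ih =>
        intro hj
        have hw : ∀ w ∈ (D.gate j).wires, Sum.elim (x t) (val t) w →
            Sum.elim (x (t + 1)) (val (t + 1)) w := by
          intro w hw
          cases w with
          | inl v => exact hx t v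
          | inr k => exact ih k (D.acyclic j k hw) (Relation.TransGen.head hw hj)
        rw [hval t j, hval (t + 1) j]
        cases hg : D.gate j with
        | and J =>
          rw [hg] at hw
          exact fun h1 w hw' => hw w hw' (h1 w hw')
        | or J =>
          rw [hg] at hw
          exact fun ⟨w, hw', h1⟩ => ⟨w, hw', hw w hw' h1⟩
        | special J' f' =>
          have h1 := hno J' ((hmod J').2 ⟨j, f', hg⟩) ⟨j, i, f', f, hg, hi, hj⟩
          have := Gate.value_congr (g := Gate.special J' f')
            (v := Sum.elim (x t) (val t)) (v' := Sum.elim (x (t + 1)) (val (t + 1)))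
            (fun w hw => not_not.1 (h1 w hw))
          exact this.1
    intro w hw
    cases w with
    | inl v => exact hx t v
    | inr j =>
      refine key j (Relation.TransGen.single ?_)
      unfold Circuit.Feeds
      rw [hi]
      exact hw
  have hE : ∀ J ∈ D.modules, (E J \ (D.modules.filter fun J' => D.Precedes J' J).biUnion E).card ≤
      D.numDep T J * (1 + ((D.modules.filter fun J' => D.Precedes J' J).biUnion E).card) := by
    intro J hJ
    set B := (D.modules.filter fun J' => D.Precedes J' J).biUnion E with hB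
    let Bt : ℕ → Prop := fun t => ∃ J' ∈ D.modules, D.Precedes J' J ∧ ∃ w ∈ J', Ch t w
    have hBt : ∀ t, t < M → (t ∈ B ↔ Bt t) := by
      intro t ht
      constructor
      · intro h
        obtain ⟨J', hJ', h⟩ := mem_biUnion.1 h
        obtain ⟨hJ'm, hJ'p⟩ := mem_filter.1 hJ'
        exact ⟨J', hJ'm, hJ'p, (mem_filter.1 h).2⟩
      · rintro ⟨J', hJ'm, hJ'p, h⟩
        exact mem_biUnion.2 ⟨J', mem_filter.2 ⟨hJ'm, hJ'p⟩, mem_filter.2 ⟨mem_range.2 ht, h⟩⟩
    -- the counts, stopped at time M
    let a : ℕ → ℕ := fun t =>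
      (J.filter fun w => D.DependsOn T w ∧ Sum.elim (x (min t M)) (val (min t M)) w).card
    have hstep : ∀ t, t < M → ¬ Bt t →
        (J.filter fun w => D.DependsOn T w ∧ Sum.elim (x t) (val t) w) ⊆
        (J.filter fun w => D.DependsOn T w ∧ Sum.elim (x (t + 1)) (val (t + 1)) w) := by
      intro t _ hBt w hw
      rw [mem_filter] at hw ⊢
      refine ⟨hw.1, hw.2.1, hmono t J hJ ?_ w hw.1 hw.2.2⟩
      intro J' hJ' hp w' hw' hch
      exact hBt ⟨J', hJ', hp, w', hw', hch⟩
    have h1 := card_incr_le a (D.numDep T J) (by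
      intro t
      apply card_le_card
      intro w hw
      rw [mem_filter] at hw ⊢
      exact ⟨hw.1, hw.2.1⟩) B (by
      intro t ht
      by_cases htM : t < M
      · show (J.filter fun w => D.DependsOn T w ∧ Sum.elim (x (min t M)) (val (min t M)) w).card ≤
          (J.filter fun w => D.DependsOn T w ∧
            Sum.elim (x (min (t + 1) M)) (val (min (t + 1) M)) w).card
        rw [min_eq_left htM.le, min_eq_left (by omega : t + 1 ≤ M)]
        exact card_le_card (hstep t htM (fun h => ht ((hBt t htM).2 h)))
      · show (J.filter fun w => D.DependsOn T w ∧ Sum.elim (x (min t M)) (val (min t M)) w).card ≤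
          (J.filter fun w => D.DependsOn T w ∧
            Sum.elim (x (min (t + 1) M)) (val (min (t + 1) M)) w).card
        rw [min_eq_right (by omega : M ≤ t), min_eq_right (by omega : M ≤ t + 1)]) M
    have h2 : E J \ B ⊆ (range M).filter fun t => t ∉ B ∧ a t < a (t + 1) := by
      intro t ht
      obtain ⟨htE, htB⟩ := mem_sdiff.1 ht
      obtain ⟨htM, w, hw, hch⟩ := mem_filter.1 htE
      have htM' := mem_range.1 htM
      refine mem_filter.2 ⟨htM, htB, ?_⟩
      show (J.filter fun w => D.DependsOn T w ∧ Sum.elim (x (min t M)) (val (min t M)) w).card <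
          (J.filter fun w => D.DependsOn T w ∧
            Sum.elim (x (min (t + 1) M)) (val (min (t + 1) M)) w).card
      rw [min_eq_left htM'.le, min_eq_left (by omega : t + 1 ≤ M)]
      have hnB : ¬ Bt t := fun h => htB ((hBt t htM').2 h)
      have hsub := hstep t htM' hnB
      apply card_lt_card
      rw [ssubset_iff_of_subset hsub]
      have hm : Sum.elim (x t) (val t) w → Sum.elim (x (t + 1)) (val (t + 1)) w := by
        refine hmono t J hJ ?_ w hw
        intro J' hJ' hp w' hw' hch
        exact hnB ⟨J', hJ', hp, w', hw', hch⟩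
      refine ⟨w, ?_, ?_⟩
      · rw [mem_filter]
        refine ⟨hw, hdep t w hch, ?_⟩
        by_contra hcon
        exact hch ⟨hm, fun h => absurd h hcon⟩
      · rw [mem_filter]
        rintro ⟨_, _, h⟩
        exact hch ⟨hm, fun _ => h⟩
    have h3 : (range M).filter (fun t => t ∈ B) ⊆ B := by
      intro t ht
      exact (mem_filter.1 ht).2
    calc (E J \ B).card ≤ _ := card_le_card h2
      _ ≤ _ := h1
      _ ≤ _ := Nat.mul_le_mul_left _ (Nat.add_le_add_left (card_le_card h3) _)
  have hU := card_union_lt D.Precedes (D.numDep T) (fun J => (pos J).val) D.modules hpos htr E hE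
    D.modules.card D.modules (Subset.refl _) rfl (fun _ _ J' hJ' _ => hJ')
  rw [Circuit.weight_eq]
  have h2 : ((range M).filter fun t => ∃ i J f w, D.gate i = Gate.special J f ∧ w ∈ J ∧
      ¬ (Sum.elim (x t) (val t) w ↔ Sum.elim (x (t + 1)) (val (t + 1)) w)) ⊆
      D.modules.biUnion E := by
    intro t ht
    obtain ⟨htM, i, J, f, w, hi, hw, hne⟩ := mem_filter.1 ht
    exact mem_biUnion.2 ⟨J, (hmod J).2 ⟨i, f, hi⟩, mem_filter.2 ⟨htM, w, hw, hne⟩⟩
  exact lt_of_lt_of_le (Nat.lt_succ_of_le (card_le_card h2)) hU

/-- Some wire feeding a special gate has different values on `x` and `y`. -/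
def Circuit.SpecialChanges {V : Type} {s : ℕ} (D : Circuit V s) (x y : V → Prop) : Prop :=
  ∀ val val' : Fin s → Prop, D.IsEval x val → D.IsEval y val' →
    ∃ i J f w, D.gate i = Gate.special J f ∧ w ∈ J ∧
      ¬ (Sum.elim x val w ↔ Sum.elim y val' w)

/-- If there is an increasing sequence `b 0 ≤ y 0 ≤ b 1 ≤ y 1 ≤ ...` of length `2 M` such that
some wire feeding a special gate changes between `b j` and `y j`, then `M` is smaller than the
weight. -/
theorem alt_chain {V : Type} [Fintype V] {s : ℕ} (D : Circuit V s) (M : ℕ)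
    (P : ℕ → (V → Prop) → Prop) (h0 : ∃ b, P 0 b)
    (hstep : ∀ j < M, ∀ b, P j b → ∃ y b', (∀ v, b v → y v) ∧ (∀ v, y v → b' v) ∧
      D.SpecialChanges b y ∧ P (j + 1) b') : M < D.weight univ := by
  classical
  obtain ⟨b0, hb0⟩ := h0
  choose! Y B hYB using hstep
  let b : ℕ → V → Prop := fun j => Nat.rec b0 (fun j bj => B j bj) j
  have hbP : ∀ j ≤ M, P j (b j) := by
    intro j
    induction j with
    | zero => intro _; exact hb0
    | succ j ih =>
      intro hj
      exact (hYB j (by omega) (b j) (ih (by omega))).2.2.2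
  let y : ℕ → V → Prop := fun j => Y j (b j)
  have hby : ∀ j < M, (∀ v, b j v → y j v) ∧ (∀ v, y j v → b (j + 1) v) ∧
      D.SpecialChanges (b j) (y j) := by
    intro j hj
    have h := hYB j hj (b j) (hbP j hj.le)
    exact ⟨h.1, h.2.1, h.2.2.1⟩
  let x : ℕ → V → Prop := fun t =>
    if t / 2 < M then (if t % 2 = 0 then b (t / 2) else y (t / 2)) else b M
  have hx : ∀ t v, x t v → x (t + 1) v := by
    intro t v
    show (if t / 2 < M then (if t % 2 = 0 then b (t / 2) else y (t / 2)) else b M) v →
      (if (t + 1) / 2 < M then (if (t + 1) % 2 = 0 then b ((t + 1) / 2) else y ((t + 1) / 2))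
        else b M) v
    rcases Nat.mod_two_eq_zero_or_one t with h | h
    · have e1 : (t + 1) / 2 = t / 2 := by omega
      have e2 : (t + 1) % 2 = 1 := by omega
      rw [e1, e2, h]
      by_cases hM : t / 2 < M
      · rw [if_pos hM, if_pos hM, if_pos rfl, if_neg (by norm_num)]
        exact (hby _ hM).1 v
      · rw [if_neg hM, if_neg hM]
        exact id
    · have e1 : (t + 1) / 2 = t / 2 + 1 := by omega
      have e2 : (t + 1) % 2 = 0 := by omega
      rw [e1, e2, h]
      by_cases hM : t / 2 < M
      · rw [if_pos hM, if_neg (by norm_num : ¬ (1 : ℕ) = 0), if_pos rfl]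
        have h1 := (hby _ hM).2.1 v
        by_cases hM' : t / 2 + 1 < M
        · rw [if_pos hM']
          exact h1
        · rw [if_neg hM']
          have : t / 2 + 1 = M := by omega
          rw [← this]
          exact h1
      · rw [if_neg hM, if_neg (by omega : ¬ t / 2 + 1 < M)]
        exact id
  choose val hval using fun t => D.exists_eval (x t)
  have hcount := chain_special D univ (2 * M) x val hval hx
    (fun t v hv => absurd (mem_univ v) hv)
  refine lt_of_le_of_lt ?_ hcount
  have hinj : Function.Injective fun j : ℕ => 2 * j := fun a b h => by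
    have : 2 * a = 2 * b := h
    omega
  calc M = ((range M).map ⟨fun j => 2 * j, hinj⟩).card := by rw [card_map, card_range]
    _ ≤ _ := by
      apply card_le_card
      intro t ht
      obtain ⟨j, hj, rfl⟩ := mem_map.1 ht
      have hj' := mem_range.1 hj
      refine mem_filter.2 ⟨mem_range.2 ?_, ?_⟩
      · show 2 * j < 2 * M
        omega
      · show ∃ i J f w, D.gate i = Gate.special J f ∧ w ∈ J ∧
          ¬ (Sum.elim (x (2 * j)) (val (2 * j)) w ↔
            Sum.elim (x (2 * j + 1)) (val (2 * j + 1)) w)
        have e1 : x (2 * j) = b j := by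
          show (if 2 * j / 2 < M then (if 2 * j % 2 = 0 then b (2 * j / 2) else y (2 * j / 2))
            else b M) = b j
          rw [show 2 * j / 2 = j by omega, if_pos hj', if_pos (by omega)]
        have e2 : x (2 * j + 1) = y j := by
          show (if (2 * j + 1) / 2 < M then (if (2 * j + 1) % 2 = 0 then b ((2 * j + 1) / 2)
            else y ((2 * j + 1) / 2)) else b M) = y j
          rw [show (2 * j + 1) / 2 = j by omega, if_pos hj', if_neg (by omega)]
        have h1 := hval (2 * j)
        have h2 := hval (2 * j + 1)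
        rw [e1] at h1
        rw [e2] at h2
        rw [e1, e2]
        exact (hby j hj').2.2 _ _ h1 h2

end Pool.Agent.CliqueModules
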