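import Mathlib
import Pool.Agent.Lib.MP_0a1b52_lc_BAND.Core
import Pool.Agent.Lib.MP_0a1b52_lc_SLICE.Chain

/-!
One region: if a small circuit accepts the positive tests and rejects the (enlarged) negative
tests, then a wire feeding a special gate changes on some negative test.
-/

namespace Pool.Agent.CliqueModules

open Finset Pool.Agent.MP0a1b52

set_option linter.unusedSectionVars false

variable {V : Type} {s : ℕ} {F A : Type} [Field F] [Fintype F] [DecidableEq F]
  [Fintype A] [DecidableEq A] {d : ℕ} (φ : F → A)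

open Classical in
theorem one_step_slice (D : Circuit V s) (hd : 2 ≤ d) (X : Set (F × A) → V → Prop)
    (hXty : ∀ v, (∃ ι, ∀ z, X z v ↔ ι ∈ z) ∨ (∃ p : Prop, ∀ z, X z v ↔ p))
    (Bd : ℕ) (hB : ∀ α, (univ.filter fun z : F => φ z = α).card ≤ Bd)
    (h2 : 2 * ((d - 1) * Bd) ≤ Fintype.card F) (hdF : d ≤ Fintype.card F)
    (hneg : 4 * (Fintype.card F ^ d * (4 * d - 1) ^ Fintype.card F) ≤
      (4 * d) ^ Fintype.card F) (hs : s < 2 ^ d)
    (hpos : ∀ c : Fin d → F, D.Acc (X (testPos φ c)))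
    (Y : (F × A → Fin (4 * d)) → V → Prop)
    (hY : ∀ ω, (∀ c : Fin d → F, ¬ testPos φ c ⊆ testNeg ω) →
      (∀ v, X (testNeg ω) v → Y ω v) ∧ ¬ D.Acc (Y ω)) :
    ∃ ω : F × A → Fin (4 * d), (∀ c : Fin d → F, ¬ testPos φ c ⊆ testNeg ω) ∧
      D.SpecialChanges (X ∅) (Y ω) := by
  by_contra hcon
  push Not at hcon
  have hXmono : ∀ z, ∀ v, X ∅ v → X z v := by
    intro z v h
    rcases hXty v with ⟨ι, h1⟩ | ⟨p, h1⟩
    · exact absurd ((h1 ∅).1 h) (Set.notMem_empty _)
    · exact (h1 z).2 ((h1 ∅).1 h)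
  obtain ⟨val, hval⟩ := D.exists_eval (X ∅)
  -- no special wire changes on the negative tests
  have hun : ∀ ω, (∀ c : Fin d → F, ¬ testPos φ c ⊆ testNeg ω) → ∀ val', D.IsEval (Y ω) val' →
      ∀ i J f w, D.gate i = Gate.special J f → w ∈ J →
      (Sum.elim (X ∅) val w ↔ Sum.elim (Y ω) val' w) := by
    intro ω hω val' hval' i J f w hi hw
    have h1 := hcon ω hω
    unfold Circuit.SpecialChanges at h1
    push Not at h1
    obtain ⟨v1, v2, hv1, hv2, h3⟩ := h1
    have e1 := hv1.unique hval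
    have e2 := hv2.unique hval'
    subst e1
    subst e2
    exact h3 i J f w hi hw
  -- the frozen circuit is correct on the negative tests
  have hfrY : ∀ ω, (∀ c : Fin d → F, ¬ testPos φ c ⊆ testNeg ω) → ∀ val', D.IsEval (Y ω) val' →
      D.IsFrozen val (Y ω) val' := by
    intro ω hω val' hval' i
    have hi := hval' i
    cases hgi : D.gate i with
    | and J => rw [hgi] at hi; exact hi
    | or J => rw [hgi] at hi; exact hi
    | special J f =>
      rw [hgi] at hi
      rw [hi]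
      have h5 := hval i
      rw [hgi] at h5
      show _ ↔ val i
      rw [h5]
      exact (Gate.value_congr (g := Gate.special J f)
        (fun w hw => hun ω hω val' hval' i J f w hgi hw)).symm
  have hfro : ∀ z, ∃ v, D.IsFrozen val (X z) v := fun z => D.exists_frozen val (X z)
  choose v hv using hfro
  have hv0 : v ∅ = val := (hv ∅).unique hval.isFrozen
  have hgood := frozen_good D val d hd X hXty v hv
  set 𝓖 : Set (Set (F × A) → Prop) :=
    {g | ∃ w, D.IsTarget w ∧ g = fun z => Sum.elim (X z) (v z) w} with h𝓖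
  have hgood' : Good d d 𝓖 s := hgood.subset (by
    rintro g ⟨w, -, rfl⟩
    exact ⟨w, rfl⟩)
  -- the output is false in the frozen circuit, on the base and on the negative tests
  have houtY : ∀ ω : F × A → Fin (4 * d), (∀ c : Fin d → F, ¬ testPos φ c ⊆ testNeg ω) →
      ¬ v (testNeg ω) D.out := by
    intro ω hω h
    obtain ⟨val', hval'⟩ := D.exists_eval (Y ω)
    have h1 := (hv (testNeg ω)).mono (hfrY ω hω val' hval') (hY ω hω).1 (Sum.inr D.out) h
    exact (hY ω hω).2 ⟨val', hval', h1⟩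
  have hne : ∃ ω : F × A → Fin (4 * d), ∀ c : Fin d → F, ¬ testPos φ c ⊆ testNeg ω := by
    have : NeZero (4 * d) := ⟨by omega⟩
    refine ⟨fun _ => 0, ?_⟩
    intro c h
    have h1 : ((0 : F), φ (ev c 0)) ∈ testPos φ c := rfl
    have h3 := h h1
    rw [mem_testNeg] at h3
    exact h3 rfl
  have hout0 : ¬ v ∅ D.out := by
    obtain ⟨ω, hω⟩ := hne
    intro h
    exact houtY ω hω ((hv ∅).mono (hv (testNeg ω)) (hXmono _) (Sum.inr D.out) h)
  rcases step_or φ Bd hB hd h2 hdF hneg 𝓖 s hs hgood' with ⟨c, hc⟩ |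
    ⟨g, ⟨w, hw, rfl⟩, hg0, ω, hω, hgω⟩
  · have hkey : ∀ w, D.IsTarget w →
        (Sum.elim (X ∅) (v ∅) w ↔ Sum.elim (X (testPos φ c)) (v (testPos φ c)) w) := by
      intro w hw
      constructor
      · exact (hv ∅).mono (hv (testPos φ c)) (hXmono _) w
      · exact hc _ ⟨w, hw, rfl⟩
    have heval0 : D.IsEval (X ∅) (v ∅) := by rw [hv0]; exact hval
    have heval : D.IsEval (X (testPos φ c)) (v (testPos φ c)) := by
      refine Circuit.IsFrozen.isEval (x := X ∅) (val := v ∅) heval0 ?_ ?_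
      · rw [hv0]; exact hv _
      · intro i J f hi w hw
        exact hkey w (Or.inr ⟨i, J, f, hi, hw⟩)
    obtain ⟨val', hval', hout'⟩ := hpos c
    have hvv : v (testPos φ c) = val' := heval.unique hval'
    have h1 : v (testPos φ c) D.out := by rw [hvv]; exact hout'
    exact hout0 ((hkey (Sum.inr D.out) (Or.inl rfl)).2 h1)
  · simp only at hg0 hgω
    rcases hw with rfl | ⟨i, J, f, hi, hwJ⟩
    · exact houtY ω hω hgω
    · obtain ⟨val', hval'⟩ := D.exists_eval (Y ω)
      have h1 := (hv (testNeg ω)).mono (hfrY ω hω val' hval') (hY ω hω).1 w hgω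
      rw [hv0] at hg0
      exact hg0 ((hun ω hω val' hval' i J f w hi hwJ).2 h1)

end Pool.Agent.CliqueModules
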