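import Mathlib
import Pool.Agent.Lib.MP_0a1b52_lc_SLICE.Step
import Pool.Agent.Lib.MP_0a1b52_lc_SLICE.Pad

/-!
The chain of graphs through the slices, and the bound on the number of regions.
-/

namespace Pool.Agent.CliqueModules

open Finset Pool.Agent.MP0a1b52

set_option linter.unusedSectionVars false

section count

variable {n : ℕ} {F A W J R β : Type} [Field F] [Fintype F] [DecidableEq F]
  [Fintype A] [DecidableEq A] {d p : ℕ}
  (φ : F → A) (σ : W → J) (π : F × A → W) (ε : R → GV F A W d p → Fin n) {b : R → β}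

theorem exists_carrier (hε : IsPack ε b) (ρ : R) (ι : F × A) :
    ∃ e : EdgeVar n, Carries π ε e ρ ι := by
  have hne : ε ρ (.inl (.inl ι)) ≠ ε ρ (.inl (.inr (π ι))) := by
    intro h
    have := hε.inj _ _ _ _ h
    simp at this
  rcases lt_or_gt_of_ne hne with h | h
  · exact ⟨⟨(_, _), h⟩, Or.inl ⟨rfl, rfl⟩⟩
  · exact ⟨⟨(_, _), h⟩, Or.inr ⟨rfl, rfl⟩⟩

theorem carrier_unique {e e' : EdgeVar n} {ρ : R} {ι : F × A} (h : Carries π ε e ρ ι)
    (h' : Carries π ε e' ρ ι) : e = e' := by
  have h1 := e.2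
  have h2 := e'.2
  rcases h with ⟨h3, h4⟩ | ⟨h3, h4⟩ <;> rcases h' with ⟨h5, h6⟩ | ⟨h5, h6⟩
  · exact Subtype.ext (Prod.ext (h3.trans h5.symm) (h4.trans h6.symm))
  · rw [h3, h4] at h1
    rw [h5, h6] at h2
    exact absurd h1 (lt_asymm h2)
  · rw [h3, h4] at h1
    rw [h5, h6] at h2
    exact absurd h1 (lt_asymm h2)
  · exact Subtype.ext (Prod.ext (h3.trans h5.symm) (h4.trans h6.symm))

theorem carries_inj (hε : IsPack ε b) {e : EdgeVar n} {ρ ρ' : R} {ι ι' : F × A}
    (h : Carries π ε e ρ ι) (h' : Carries π ε e ρ' ι') : ρ' = ρ ∧ ι' = ι := by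
  -- the gadget with trivial data
  have h1 := UG_adj_carries (fun _ => (ι.2 : A)) (fun _ => ()) π ε hε h
    (fun r => {q | r = ρ ∧ q = ι})
  have h2 := UG_adj_carries (fun _ => (ι.2 : A)) (fun _ => ()) π ε hε h'
    (fun r => {q | r = ρ ∧ q = ι})
  have h3 : ι ∈ {q : F × A | ρ = ρ ∧ q = ι} := ⟨rfl, rfl⟩
  have h4 : ι' ∈ {q : F × A | ρ' = ρ ∧ q = ι} := h2.1 (h1.2 h3)
  exact h4

theorem card_edgesOf_update [DecidableEq R] (hε : IsPack ε b) (x : R → Set (F × A)) (ρ : R) (hρ : x ρ = ∅)
    (z : Set (F × A)) :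
    (edgesOf (UG φ σ π ε (Function.update x ρ z))).card =
      (edgesOf (UG φ σ π ε x)).card + z.ncard := by
  classical
  choose car hcar using fun ι => exists_carrier π ε hε ρ ι
  have hinj : Function.Injective car := by
    intro ι ι' h
    have h1 := hcar ι'
    rw [← h] at h1
    exact ((carries_inj π ε hε (hcar ι) h1).2).symm
  have h1 : edgesOf (UG φ σ π ε (Function.update x ρ z)) =
      edgesOf (UG φ σ π ε x) ∪ (z.toFinset).map ⟨car, hinj⟩ := by
    ext e
    rw [mem_union, mem_edgesOf, mem_edgesOf, mem_map]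
    by_cases hc : ∃ ρ' ι, Carries π ε e ρ' ι
    · obtain ⟨ρ', ι, hc⟩ := hc
      rw [UG_adj_carries φ σ π ε hε hc, UG_adj_carries φ σ π ε hε hc]
      by_cases hρρ : ρ' = ρ
      · subst hρρ
        rw [Function.update_self, hρ]
        constructor
        · intro hι
          right
          exact ⟨ι, Set.mem_toFinset.2 hι, carrier_unique π ε (hcar ι) hc⟩
        · rintro (h | ⟨ι', hι', h⟩)
          · exact absurd h (Set.notMem_empty _)
          · have h2 : car ι' = e := h
            have h3 := hcar ι'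
            rw [h2] at h3
            rw [← (carries_inj π ε hε hc h3).2]
            exact Set.mem_toFinset.1 hι'
      · rw [Function.update_of_ne hρρ]
        constructor
        · exact Or.inl
        · rintro (h | ⟨ι', -, h⟩)
          · exact h
          · have h2 : car ι' = e := h
            have h3 := hcar ι'
            rw [h2] at h3
            exact absurd (carries_inj π ε hε hc h3).1.symm hρρ
    · push Not at hc
      constructor
      · intro h
        left
        exact UG_adj_indep φ σ π ε hc _ _ h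
      · rintro (h | ⟨ι', -, h⟩)
        · exact UG_adj_indep φ σ π ε hc _ _ h
        · have h2 : car ι' = e := h
          exact absurd (hcar ι') (by rw [h2]; exact hc ρ ι')
  have h2 : Disjoint (edgesOf (UG φ σ π ε x)) ((z.toFinset).map ⟨car, hinj⟩) := by
    rw [disjoint_left]
    intro e he he'
    obtain ⟨ι, -, rfl⟩ := mem_map.1 he'
    have h3 := (UG_adj_carries φ σ π ε hε (hcar ι) x).1 ((mem_edgesOf _ _).1 he)
    rw [hρ] at h3
    exact Set.notMem_empty _ h3
  rw [h1, card_union_of_disjoint h2, card_map, Set.ncard_eq_toFinset_card']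

theorem ncard_testPos (c : Fin d → F) : (testPos φ c).ncard = Fintype.card F := by
  classical
  have h1 : testPos φ c = (fun i : F => (i, φ (ev c i))) '' Set.univ := by
    ext ⟨i, α⟩
    rw [mem_testPos]
    constructor
    · intro h
      exact ⟨i, Set.mem_univ _, by simp only [h]⟩
    · rintro ⟨j, -, h⟩
      obtain ⟨h2, h3⟩ := Prod.mk.inj h
      subst h2
      exact h3
  rw [h1, Set.ncard_image_of_injective, Set.ncard_univ, Nat.card_eq_fintype_card]
  intro i j h
  exact (Prod.mk.inj h).1

theorem ncard_le_card (z : Set (F × A)) : z.ncard ≤ Fintype.card F * Fintype.card A := by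
  classical
  rw [← Fintype.card_prod, ← Nat.card_eq_fintype_card]
  exact Set.ncard_le_card z

end count

section main

variable {n0 n : ℕ} {F A W J β : Type} [Field F] [Fintype F] [DecidableEq F]
  [Fintype A] [DecidableEq A] {d p M t s : ℕ}
  (φ : F → A) (σ : W → J) (π : F × A → W) (η : Fin M → GV F A W d p → Fin n0) {b : Fin M → β}

theorem lift_padProj_mono {Fo Fo' : Finset (EdgeVar n)} (h : Fo ⊆ Fo') (G : SimpleGraph (Fin n0))
    (e : EdgeVar n) (he : lift (padProj n0 Fo) G e) : lift (padProj n0 Fo') G e := by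
  by_cases h' : e.1.2.val < n0
  · rw [lift_padProj_inner _ _ _ h'] at he ⊢
    exact he
  · rw [lift_padProj_outer _ _ _ h'] at he ⊢
    exact h he

open Classical in
/-- The number of regions is smaller than the weight, if the circuit is correct on two slices for
each region. -/
theorem regions_lt_weight (hn : n0 ≤ n) (ht : 1 ≤ t) (hnt : n0 + t ≤ n)
    (hsq : Nat.sqrt n = Nat.sqrt n0 + t) (hε : IsPack η b) (hd : 2 ≤ d) [Nonempty J] [Fintype J]
    [DecidableEq J] (hJ : (∀ j j' : J, j = j') ∨ Function.Injective b)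
    (hπ : ∀ h : F → A, ∃ w : J → W, (∀ j, σ (w j) = j) ∧ ∀ i, w (σ (π (i, h i))) = π (i, h i))
    (hcard : Fintype.card (GS F J d p) = Nat.sqrt n0 + 1)
    (Bd : ℕ) (hB : ∀ α, (univ.filter fun z : F => φ z = α).card ≤ Bd)
    (h2 : 2 * ((d - 1) * Bd) ≤ Fintype.card F) (hdF : d ≤ Fintype.card F)
    (hneg : 4 * (Fintype.card F ^ d * (4 * d - 1) ^ Fintype.card F) ≤
      (4 * d) ^ Fintype.card F) (hs : s < 2 ^ d) (D : Circuit (EdgeVar n) s) (a : ℕ → ℕ)
    (hstart : (n0 + t).choose 2 + Fintype.card F * Fintype.card A ≤ a 0)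
    (hgap : ∀ i, i + 1 < 2 * M → a i + Fintype.card F * Fintype.card A ≤ a (i + 1))
    (hend : ∀ i < 2 * M, a i ≤ (outMax n0 n t).card)
    (hD : ∀ i < 2 * M, ∀ G : SimpleGraph (Fin n), G.edgeSet.ncard = a i →
      (D.Accepts G ↔ HasClique G)) : M < D.weight univ := by
  have hApos : 0 < Fintype.card A := Fintype.card_pos_iff.2 ⟨φ 0⟩
  have hFA : Fintype.card F ≤ Fintype.card F * Fintype.card A :=
    Nat.le_mul_of_pos_right _ hApos
  -- acceptance in terms of assignments
  have hacc : ∀ i < 2 * M, ∀ (x : Fin M → Set (F × A)) (Fo : Finset (EdgeVar n)),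
      outMin n0 n t ⊆ Fo → Fo ⊆ outMax n0 n t →
      (edgesOf (UG φ σ π η x)).card + Fo.card = a i →
      (D.Acc (lift (padProj n0 Fo) (UG φ σ π η x)) ↔
        ∃ ρ, ∃ c : Fin d → F, testPos φ c ⊆ x ρ) := by
    intro i hi x Fo hF1 hF2 hc
    have h1 : (pad Fo (UG φ σ π η x)).edgeSet.ncard = a i := by
      rw [card_pad hn Fo (fun e he => (mem_filter.1 (hF2 he)).2.1), hc]
    have h3 := hD i hi _ h1
    rw [hasClique_pad hn ht hnt hsq Fo hF1 hF2, hasClique_iff, ← hcard,
      UG_clique φ σ π η hε (by omega) hJ hπ] at h3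
    rw [← h3]
    unfold Circuit.Accepts Circuit.Acc
    rw [pad_asg]
  let P : ℕ → (EdgeVar n → Prop) → Prop := fun j bb => j < M →
    ∃ (x : Fin M → Set (F × A)) (Fo : Finset (EdgeVar n)),
      bb = lift (padProj n0 Fo) (UG φ σ π η x) ∧
      (∀ ρ, ∀ c : Fin d → F, ¬ testPos φ c ⊆ x ρ) ∧ (∀ ρ : Fin M, j ≤ ρ.val → x ρ = ∅) ∧
      outMin n0 n t ⊆ Fo ∧ Fo ⊆ outMax n0 n t ∧
      (edgesOf (UG φ σ π η x)).card + Fo.card + Fintype.card F = a (2 * j)
  have hpe : ∀ c : Fin d → F, ¬ testPos φ c ⊆ (∅ : Set (F × A)) := by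
    intro c h
    have h1 : ((0 : F), φ (ev c 0)) ∈ testPos φ c := rfl
    exact h h1
  refine alt_chain D M P ?_ ?_
  · -- the start
    rcases Nat.eq_zero_or_pos M with hM | hM
    · exact ⟨fun _ => True, fun h => by omega⟩
    · have hE : (edgesOf (UG φ σ π η fun _ => ∅)).card ≤ n0.choose 2 := by
        rw [← card_edgeVar]
        exact card_le_card (subset_univ _)
      have h3 := card_outMin hnt
      have h4 := hend 0 (by omega)
      obtain ⟨Fo, hF1, hF2, hF3⟩ := exists_subsuperset_card_eq (outMin_subset n0 n t)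
        (show (outMin n0 n t).card ≤
          a 0 - Fintype.card F - (edgesOf (UG φ σ π η fun _ => ∅)).card by omega)
        (show a 0 - Fintype.card F - (edgesOf (UG φ σ π η fun _ => ∅)).card ≤
          (outMax n0 n t).card by omega)
      refine ⟨_, fun _ => ⟨fun _ => ∅, Fo, rfl, fun _ => hpe, fun _ _ => rfl, hF1, hF2, ?_⟩⟩
      rw [Nat.mul_zero]
      omega
  · -- the step
    intro j hj bb hP
    obtain ⟨x, Fo, rfl, hx, hxe, hF1, hF2, hc⟩ := hP hj
    set ρ : Fin M := ⟨j, hj⟩ with hρ
    have hxρ : x ρ = ∅ := hxe ρ le_rfl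
    set X : Set (F × A) → EdgeVar n → Prop := fun z =>
      lift (padProj n0 Fo) (UG φ σ π η (Function.update x ρ z)) with hX
    have hX0 : X ∅ = lift (padProj n0 Fo) (UG φ σ π η x) := by
      rw [hX]
      simp only
      rw [← hxρ, Function.update_eq_self]
    have hproj := isProj_lift φ σ π η hε (padProj n0 Fo)
    have hXty : ∀ v, (∃ ι, ∀ z, X z v ↔ ι ∈ z) ∨ (∃ p : Prop, ∀ z, X z v ↔ p) := by
      intro e
      rcases hproj e with ⟨ρ', ι, hc⟩ | ⟨p, hc⟩
      · by_cases hρρ : ρ' = ρ
        · left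
          refine ⟨ι, fun z => ?_⟩
          have h3 := hc (Function.update x ρ z)
          rw [hρρ, Function.update_self] at h3
          exact h3
        · right
          refine ⟨ι ∈ x ρ', fun z => ?_⟩
          have h3 := hc (Function.update x ρ z)
          rw [Function.update_of_ne hρρ] at h3
          exact h3
      · exact Or.inr ⟨p, fun z => hc _⟩
    have hcount : ∀ z, (edgesOf (UG φ σ π η (Function.update x ρ z))).card =
        (edgesOf (UG φ σ π η x)).card + z.ncard :=
      fun z => card_edgesOf_update φ σ π η hε x ρ hxρ z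
    have hpos : ∀ c : Fin d → F, D.Acc (X (testPos φ c)) := by
      intro c
      refine (hacc (2 * j) (by omega) _ Fo hF1 hF2 ?_).2 ⟨ρ, c, by rw [Function.update_self]⟩
      rw [hcount, ncard_testPos]
      omega
    have hg1 := hgap (2 * j) (by omega)
    have hF' : ∀ ω : F × A → Fin (4 * d), ∃ F' : Finset (EdgeVar n), Fo ⊆ F' ∧
        F' ⊆ outMax n0 n t ∧
        (edgesOf (UG φ σ π η (Function.update x ρ (testNeg ω)))).card + F'.card =
          a (2 * j + 1) := by
      intro ω
      have h3 := hcount (testNeg ω)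
      have h4 := ncard_le_card (testNeg ω)
      have h5 := hend (2 * j + 1) (by omega)
      obtain ⟨F', hF'1, hF'2, hF'3⟩ := exists_subsuperset_card_eq hF2
        (show Fo.card ≤ a (2 * j + 1) -
          (edgesOf (UG φ σ π η (Function.update x ρ (testNeg ω)))).card by omega)
        (show a (2 * j + 1) -
          (edgesOf (UG φ σ π η (Function.update x ρ (testNeg ω)))).card ≤
          (outMax n0 n t).card by omega)
      exact ⟨F', hF'1, hF'2, by omega⟩
    choose F' hF'1 hF'2 hF'3 using hF'
    have hval : ∀ ω : F × A → Fin (4 * d), (∀ c : Fin d → F, ¬ testPos φ c ⊆ testNeg ω) →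
        ∀ ρ', ∀ c : Fin d → F, ¬ testPos φ c ⊆ Function.update x ρ (testNeg ω) ρ' := by
      intro ω hω ρ' c
      by_cases h : ρ' = ρ
      · rw [h, Function.update_self]
        exact hω c
      · rw [Function.update_of_ne h]
        exact hx ρ' c
    obtain ⟨ω, hω, hch⟩ := one_step_slice φ D hd X hXty Bd hB h2 hdF hneg hs hpos
      (fun ω => lift (padProj n0 (F' ω)) (UG φ σ π η (Function.update x ρ (testNeg ω))))
      (by
        intro ω hω
        refine ⟨fun e he => lift_padProj_mono (hF'1 ω) _ e he, ?_⟩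
        rw [hacc (2 * j + 1) (by omega) _ (F' ω) (hF1.trans (hF'1 ω)) (hF'2 ω) (hF'3 ω)]
        rintro ⟨ρ', c, h⟩
        exact hval ω hω ρ' c h)
    rw [hX0] at hch
    have hby : ∀ e, lift (padProj n0 Fo) (UG φ σ π η x) e →
        lift (padProj n0 (F' ω)) (UG φ σ π η (Function.update x ρ (testNeg ω))) e := by
      intro e he
      refine lift_padProj_mono (hF'1 ω) _ e ?_
      refine hproj.mono ?_ e he
      intro ρ'
      by_cases h : ρ' = ρ
      · rw [h, hxρ]
        exact Set.empty_subset _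
      · rw [Function.update_of_ne h]
    by_cases hjM : j + 1 < M
    · have hg2 := hgap (2 * j + 1) (by omega)
      have h5 := hend (2 * j + 2) (by omega)
      have h6 := hF'3 ω
      obtain ⟨F'', hF''1, hF''2, hF''3⟩ := exists_subsuperset_card_eq (hF'2 ω)
        (show (F' ω).card ≤ a (2 * j + 2) - Fintype.card F -
          (edgesOf (UG φ σ π η (Function.update x ρ (testNeg ω)))).card by
            have : 2 * j + 1 + 1 = 2 * j + 2 := rfl
            rw [this] at hg2
            omega)
        (show a (2 * j + 2) - Fintype.card F -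
          (edgesOf (UG φ σ π η (Function.update x ρ (testNeg ω)))).card ≤
          (outMax n0 n t).card by omega)
      refine ⟨_, lift (padProj n0 F'') (UG φ σ π η (Function.update x ρ (testNeg ω))), hby,
        fun e he => lift_padProj_mono hF''1 _ e he, hch, fun _ => ⟨_, F'', rfl, hval ω hω, ?_,
          (hF1.trans (hF'1 ω)).trans hF''1, hF''2, ?_⟩⟩
      · intro ρ' hρ'
        have h : ρ' ≠ ρ := by
          rintro rfl
          have : j + 1 ≤ j := hρ'
          omega
        rw [Function.update_of_ne h]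
        exact hxe ρ' (by omega)
      · have : 2 * j + 1 + 1 = 2 * j + 2 := rfl
        rw [this] at hg2
        have e1 : 2 * (j + 1) = 2 * j + 2 := by ring
        rw [e1]
        omega
    · exact ⟨_, _, hby, fun _ h => h, hch, fun h => absurd h hjM⟩

end main

end Pool.Agent.CliqueModules
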