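import Mathlib
import Pool.Agent.Lib.MP_0a1b52_lc_SLICE.Main

/-!
The choice of the parameters, and the main theorem on slices.
-/

namespace Pool.Agent.CliqueModules

open Finset

theorem two_mul_choose_two (m : ℕ) : 2 * m.choose 2 = m * (m - 1) := by
  rw [Nat.choose_two_right, mul_comm]
  exact Nat.div_mul_cancel (Nat.even_mul_pred_self m).two_dvd

theorem two_mul_choose_two_le (m : ℕ) : 2 * m.choose 2 ≤ m * m := by
  rw [two_mul_choose_two]
  exact Nat.mul_le_mul_left _ (Nat.sub_le _ _)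

/-- The numerical part. -/
theorem slice_params (n r B : ℕ) (hB : 1 ≤ B) (hBu : 1024 * B ≤ Nat.sqrt n)
    (hN : n + 1024 * (r * B) + n * Nat.sqrt n + 1024 * (r * B) ≤ n.choose 2) :
    ∃ n0 t : ℕ, n0 ≤ n ∧ 1 ≤ t ∧ n0 + t ≤ n ∧ Nat.sqrt n = Nat.sqrt n0 + t ∧ B ≤ n0 ∧
      (r / 2) * B ≤ n0.choose 2 ∧ (n0 + t).choose 2 + B ≤ n + 1024 * (r * B) ∧
      ∀ a, a + n * Nat.sqrt n + 1024 * (r * B) ≤ n.choose 2 → a ≤ (outMax n0 n t).card := by
  set u := Nat.sqrt n with hu
  have hu1 : u * u ≤ n := Nat.sqrt_le n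
  have hu2 : n ≤ u * u + u + u := Nat.sqrt_le_add n
  set y := Nat.sqrt (r * B) with hy
  have hy1 : y * y ≤ r * B := Nat.sqrt_le _
  have hy2 : r * B < (y + 1) * (y + 1) := Nat.lt_succ_sqrt _
  have hu1024 : 1024 * u ≤ n := (Nat.mul_le_mul_right u (by omega)).trans hu1
  have h2N := two_mul_choose_two_le n
  have hn0 : 0 < n := by omega
  have hrB : 4096 * (r * B) ≤ n * n := by omega
  have h64 : 64 * y ≤ n := by
    apply Nat.mul_self_le_mul_self_iff.1
    calc 64 * y * (64 * y) = 4096 * (y * y) := by ring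
      _ ≤ 4096 * (r * B) := Nat.mul_le_mul_left _ hy1
      _ ≤ n * n := hrB
  set n0 := B + y + 1 with hn0'
  have h32 : 32 * n0 ≤ n := by omega
  set w := Nat.sqrt n0 with hw
  have hw1 : w * w ≤ n0 := Nat.sqrt_le _
  have hwu : 4 * w ≤ u := by
    by_contra hcon
    have h1 : (u + 1) * (u + 1) ≤ (4 * w) * (4 * w) := Nat.mul_self_le_mul_self (by omega)
    have h2 : (4 * w) * (4 * w) = 16 * (w * w) := by ring
    have h3 : (u + 1) * (u + 1) = u * u + u + u + 1 := by ring
    omega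
  refine ⟨n0, u - w, by omega, by omega, by omega, by omega, by omega, ?_, ?_, ?_⟩
  · -- the number of regions
    have h1 : 2 * n0.choose 2 = n0 * (n0 - 1) := two_mul_choose_two n0
    have h2 : (y + 1) * (y + 1) ≤ n0 * (n0 - 1) := Nat.mul_le_mul (by omega) (by omega)
    have h3 : 2 * (r / 2 * B) ≤ r * B := by
      rw [← mul_assoc]
      exact Nat.mul_le_mul_right _ (Nat.mul_div_le r 2)
    omega
  · -- the start
    set t := u - w with ht
    have h1 := two_mul_choose_two_le (n0 + t)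
    set v := u + B + 1 with hv
    have h2 : n0 + t ≤ v + y := by omega
    have h3 : (n0 + t) * (n0 + t) ≤ (v + y) * (v + y) := Nat.mul_le_mul h2 h2
    have h4 : 512 * v ≤ 513 * u := by omega
    have h5 : 262144 * (v * v) ≤ 263169 * n := by
      calc 262144 * (v * v) = (512 * v) * (512 * v) := by ring
        _ ≤ (513 * u) * (513 * u) := Nat.mul_le_mul h4 h4
        _ = 263169 * (u * u) := by ring
        _ ≤ 263169 * n := Nat.mul_le_mul_left _ hu1
    have h6 : 4 * ((v + y) * (v + y)) ≤ 5 * (v * v) + 20 * (y * y) := by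
      have : (0 : ℤ) ≤ ((v : ℤ) - 4 * y) * ((v : ℤ) - 4 * y) := mul_self_nonneg _
      have h7 : (4 : ℤ) * ((v + y) * (v + y)) ≤ 5 * (v * v) + 20 * (y * y) := by nlinarith
      exact_mod_cast h7
    omega
  · -- the end
    intro a ha
    set t := u - w with ht
    by_contra hcon
    have h1 := card_outMax (n0 := n0) (n := n) (by omega) (t := t) (by omega)
    set O := (outMax n0 n t).card with hO
    set c0 := n0.choose 2 with hc0
    have h2 : 2 * c0 ≤ n0 * n0 := two_mul_choose_two_le n0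
    have h3 : n0 * n0 ≤ 2 * ((B + 1) * (B + 1)) + 2 * (y * y) := by
      have : (0 : ℤ) ≤ (((B : ℤ) + 1) - y) * (((B : ℤ) + 1) - y) := mul_self_nonneg _
      have h7 : ((B : ℤ) + y + 1) * ((B : ℤ) + y + 1) ≤
          2 * (((B : ℤ) + 1) * ((B : ℤ) + 1)) + 2 * ((y : ℤ) * y) := by nlinarith
      have h8 : (n0 : ℤ) = (B : ℤ) + y + 1 := by rw [hn0']; push_cast; ring
      rw [← h8] at h7
      exact_mod_cast h7
    have h4 : (B + 1) * (B + 1) ≤ n :=
      (Nat.mul_le_mul (by omega : B + 1 ≤ u) (by omega : B + 1 ≤ u)).trans hu1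
    have h5 : c0 ≤ n + r * B := by omega
    have h6 : (n - n0) ^ 2 ≤ n * n := by
      rw [pow_two]
      exact Nat.mul_le_mul (Nat.sub_le _ _) (Nat.sub_le _ _)
    have h7 : 2 * t * (O + 1 + n * u + 1024 * (r * B)) ≤ 2 * t * (O + (n + r * B)) + n * n := by
      calc 2 * t * (O + 1 + n * u + 1024 * (r * B)) ≤ 2 * t * n.choose 2 :=
            Nat.mul_le_mul_left _ (by omega)
        _ ≤ 2 * t * (O + c0) + (n - n0) ^ 2 := h1
        _ ≤ 2 * t * (O + (n + r * B)) + n * n :=
            Nat.add_le_add (Nat.mul_le_mul_left _ (by omega)) h6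
    have h8 : 2 * t * (n * u) ≤ 2 * t * n + n * n := by
      have e1 : 2 * t * (O + 1 + n * u + 1024 * (r * B)) =
          2 * t * (n * u) + 2 * t * (O + 1 + 1024 * (r * B)) := by ring
      have e2 : 2 * t * (O + (n + r * B)) = 2 * t * n + 2 * t * (O + r * B) := by ring
      have e3 : 2 * t * (O + r * B) ≤ 2 * t * (O + 1 + 1024 * (r * B)) :=
        Nat.mul_le_mul_left _ (by omega)
      omega
    have h9 : 2 * t * u ≤ 2 * t + n := by
      have e1 : n * (2 * t * u) ≤ n * (2 * t + n) := by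
        calc n * (2 * t * u) = 2 * t * (n * u) := by ring
          _ ≤ 2 * t * n + n * n := h8
          _ = n * (2 * t + n) := by ring
      exact Nat.le_of_mul_le_mul_left e1 hn0
    have h10 : 3 * u ≤ 4 * t := by omega
    have h11 : 3 * u * u ≤ 4 * t * u := Nat.mul_le_mul_right _ h10
    have h12 : 4 * t * u = 2 * (2 * t * u) := by ring
    have h13 : 1024 * u ≤ u * u := Nat.mul_le_mul_right u (by omega)
    have h14 : 3 * u * u = 3 * (u * u) := by ring
    omega

/-- A circuit which is correct on `r` separated slices has weight at least `(r + 1) / 2`. -/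
theorem main_slices : ∃ C : ℕ, ∀ (n s : ℕ) (D : Circuit (EdgeVar n) s) (R : Finset ℕ),
    C * (Nat.log 2 (n * s) + 1) ^ 8 ≤ Nat.sqrt n →
    (∀ a ∈ R, ∀ b ∈ R, a < b → a + C * (Nat.log 2 (n * s) + 1) ^ 4 ≤ b) →
    (∀ a ∈ R, n + C * R.card * (Nat.log 2 (n * s) + 1) ^ 8 ≤ a ∧
      a + n * Nat.sqrt n + C * R.card * (Nat.log 2 (n * s) + 1) ^ 8 ≤ n.choose 2) →
    (∀ G : SimpleGraph (Fin n), G.edgeSet.ncard ∈ R → (D.Accepts G ↔ HasClique G)) →
    R.card < 2 * D.weight univ := by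
  classical
  obtain ⟨C, hC81, hC⟩ := slices_core
  refine ⟨1024 * C, ?_⟩
  intro n s D R hu hgap hrange hD
  set L := Nat.log 2 (n * s) + 1 with hL
  have hL1 : 1 ≤ L := by omega
  set r := R.card with hr
  rcases Nat.eq_zero_or_pos r with hr0 | hr1
  · have := one_le_weight D univ
    omega
  set B := C * L ^ 8 with hB
  have hB1 : 1 ≤ B := Nat.mul_pos (by omega) (Nat.pow_pos (by omega))
  have hBu : 1024 * B ≤ Nat.sqrt n := by
    rw [hB, ← mul_assoc]
    exact hu
  have e0 : 1024 * C * r * L ^ 8 = 1024 * (r * B) := by rw [hB]; ring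
  rw [e0] at hrange
  have hN : n + 1024 * (r * B) + n * Nat.sqrt n + 1024 * (r * B) ≤ n.choose 2 := by
    obtain ⟨a, ha⟩ := card_pos.1 hr1
    obtain ⟨h1, h2⟩ := hrange a ha
    omega
  obtain ⟨n0, t, hn, ht, hnt, hsq, hBn, hM, hstart, hend⟩ := slice_params n r B hB1 hBu hN
  have hL4 : C * L ^ 4 ≤ B := Nat.mul_le_mul_left _ (Nat.pow_le_pow_right hL1 (by norm_num))
  -- the slices
  let f : Fin r ↪o ℕ := R.orderEmbOfFin hr.symm
  have hfR : ∀ i, f i ∈ R := fun i => R.orderEmbOfFin_mem hr.symm i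
  let a : ℕ → ℕ := fun i => if h : i < r then f ⟨i, h⟩ else 0
  have ha : ∀ i (h : i < r), a i = f ⟨i, h⟩ := fun i h => dif_pos h
  have hM2 : 2 * (r / 2) ≤ r := Nat.mul_div_le r 2
  have key := hC n0 n t s (r / 2) D a hn ht hnt hsq hBn hM ?_ ?_ ?_ ?_
  · omega
  · rw [ha 0 hr1]
    have := (hrange _ (hfR ⟨0, hr1⟩)).1
    rw [← hL]
    omega
  · intro i hi
    rw [ha i (by omega), ha (i + 1) (by omega), ← hL]
    have h1 := hgap _ (hfR ⟨i, by omega⟩) _ (hfR ⟨i + 1, by omega⟩)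
      (f.lt_iff_lt.2 (by show i < i + 1; omega))
    have h2 : C * L ^ 4 ≤ 1024 * C * L ^ 4 := by
      calc C * L ^ 4 = 1 * (C * L ^ 4) := (one_mul _).symm
        _ ≤ 1024 * (C * L ^ 4) := Nat.mul_le_mul_right _ (by norm_num)
        _ = 1024 * C * L ^ 4 := by ring
    omega
  · intro i hi
    rw [ha i (by omega)]
    exact hend _ (hrange _ (hfR ⟨i, by omega⟩)).2
  · intro i hi G hG
    rw [ha i (by omega)] at hG
    exact hD G (by rw [hG]; exact hfR _)

end Pool.Agent.CliqueModules
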