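import Mathlib
import Pool.Agent.Lib.MP_0a1b52_lc_SLICE.Defs
import Pool.Agent.Lib.MP_0a1b52_lc_SLICE.Final

/-!
The lower bound in terms of the number of NOT gates.
-/

namespace Pool.Agent.SliceCircuits

open Finset Pool.Agent

variable {V : Type} {s : ℕ}

/-- A NOT gate is a special gate with one wire. -/
def Gate.toMod : Gate V s → CliqueModules.Gate V s
  | .and J => .and J
  | .or J => .or J
  | .not w => .special {w} (fun S => w ∉ S)

theorem Gate.toMod_wires (g : Gate V s) : g.toMod.wires = g.wires := by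
  cases g <;> rfl

theorem Gate.toMod_value (g : Gate V s) (v : V ⊕ Fin s → Prop) :
    g.toMod.value v ↔ g.value v := by
  cases g with
  | and J => exact Iff.rfl
  | or J => exact Iff.rfl
  | not w =>
    show w ∉ {w' | w' ∈ ({w} : Finset (V ⊕ Fin s)) ∧ v w'} ↔ ¬ v w
    rw [not_iff_not]
    constructor
    · exact fun h => h.2
    · exact fun h => ⟨mem_singleton_self w, h⟩

/-- The circuit with special gates. -/
def Circuit.toMod (D : Circuit V s) : CliqueModules.Circuit V s where
  gate i := (D.gate i).toMod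
  acyclic i j h := by
    rw [Gate.toMod_wires] at h
    exact D.acyclic i j h
  out := D.out

theorem Circuit.toMod_isEval (D : Circuit V s) (x : V → Prop) (val : Fin s → Prop) :
    D.toMod.IsEval x val ↔ D.IsEval x val := by
  unfold CliqueModules.Circuit.IsEval Circuit.IsEval
  refine forall_congr' fun i => ?_
  rw [show D.toMod.gate i = (D.gate i).toMod from rfl, Gate.toMod_value]

theorem Circuit.exists_eval (D : Circuit V s) (x : V → Prop) : ∃ val, D.IsEval x val := by
  obtain ⟨val, h⟩ := D.toMod.exists_eval x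
  exact ⟨val, (D.toMod_isEval x val).1 h⟩

theorem Circuit.IsEval.unique {D : Circuit V s} {x : V → Prop} {val val' : Fin s → Prop}
    (h : D.IsEval x val) (h' : D.IsEval x val') : val = val' :=
  CliqueModules.Circuit.IsEval.unique ((D.toMod_isEval x val).2 h) ((D.toMod_isEval x val').2 h')

theorem Circuit.toMod_accepts {n : ℕ} (D : Circuit (EdgeVar n) s) (G : SimpleGraph (Fin n)) :
    D.toMod.Accepts G ↔ D.Accepts (fun e => G.Adj e.1.1 e.1.2) := by
  unfold CliqueModules.Circuit.Accepts Circuit.Accepts
  refine exists_congr fun val => ?_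
  rw [D.toMod_isEval]
  exact Iff.rfl

theorem Circuit.weight_le [Fintype V] (D : Circuit V s) (T : Finset V) :
    D.toMod.weight T ≤ 2 ^ D.numNot := by
  classical
  have hmod : ∀ J ∈ D.toMod.modules, ∃ i w, D.gate i = Gate.not w ∧ J = {w} := by
    intro J hJ
    obtain ⟨i, f, hi⟩ := (mem_filter.1 hJ).2
    have hi' : (D.gate i).toMod = CliqueModules.Gate.special J f := hi
    cases hg : D.gate i with
    | and J' => rw [hg] at hi'; exact absurd hi' (by simp [Gate.toMod])
    | or J' => rw [hg] at hi'; exact absurd hi' (by simp [Gate.toMod])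
    | not w =>
      rw [hg] at hi'
      have h1 : CliqueModules.Gate.special ({w} : Finset (V ⊕ Fin s)) (fun S => w ∉ S) =
          CliqueModules.Gate.special J f := hi'
      injection h1 with h2 h3
      exact ⟨i, w, hg, h2.symm⟩
  have h1 : D.toMod.weight T ≤ ∏ J ∈ D.toMod.modules, (1 + D.toMod.numDep T J) := by
    rw [prod_one_add]
    unfold CliqueModules.Circuit.weight CliqueModules.Circuit.chains
    exact sum_le_sum_of_subset (filter_subset _ _)
  have h2 : ∏ J ∈ D.toMod.modules, (1 + D.toMod.numDep T J) ≤ 2 ^ D.toMod.modules.card := by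
    rw [← prod_const]
    refine prod_le_prod' fun J hJ => ?_
    obtain ⟨i, w, -, rfl⟩ := hmod J hJ
    have h3 : D.toMod.numDep T {w} ≤ 1 := by
      unfold CliqueModules.Circuit.numDep
      exact (card_le_card (filter_subset _ _)).trans (card_singleton w).le
    omega
  have h3 : D.toMod.modules.card ≤ D.numNot := by
    have h7 : D.numNot = (univ.filter fun i => ∃ w, D.gate i = Gate.not w).card := by
      unfold Circuit.numNot
      congr
    rw [h7]
    have h4 : D.toMod.modules ⊆ (univ.filter fun i => ∃ w, D.gate i = Gate.not w).image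
        (fun i => (D.gate i).wires) := by
      intro J hJ
      obtain ⟨i, w, hi, rfl⟩ := hmod J hJ
      refine mem_image.2 ⟨i, mem_filter.2 ⟨mem_univ _, w, hi⟩, ?_⟩
      rw [hi]
      rfl
    have h5 := card_le_card h4
    have h6 := card_image_le (s := univ.filter fun i => ∃ w, D.gate i = Gate.not w)
      (f := fun i => (D.gate i).wires)
    omega
  exact h1.trans (h2.trans (Nat.pow_le_pow_right (by norm_num) h3))

/-- The lower bound: a small circuit which is correct on `r` separated slices has at least
`⌊log₂ r⌋` NOT gates. -/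
theorem lower : ∃ C : ℕ, ∀ (n s : ℕ) (D : Circuit (EdgeVar n) s) (R : Finset ℕ),
    C * (Nat.log 2 (n * s) + 1) ^ 8 ≤ Nat.sqrt n →
    (∀ a ∈ R, ∀ b ∈ R, a < b → a + C * (Nat.log 2 (n * s) + 1) ^ 4 ≤ b) →
    (∀ a ∈ R, n + C * R.card * (Nat.log 2 (n * s) + 1) ^ 8 ≤ a ∧
      a + n * Nat.sqrt n + C * R.card * (Nat.log 2 (n * s) + 1) ^ 8 ≤ n.choose 2) →
    D.CorrectOn R → R.card < 2 ^ (D.numNot + 1) := by
  obtain ⟨C, hC⟩ := CliqueModules.main_slices
  refine ⟨C, fun n s D R h1 h2 h3 h4 => ?_⟩
  have h5 := hC n s D.toMod R h1 h2 h3 (fun G hG => by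
    rw [D.toMod_accepts]
    exact h4 G (mem_coe.2 hG))
  have h6 := D.weight_le univ
  rw [pow_succ, mul_comm]
  omega

end Pool.Agent.SliceCircuits
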