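import Mathlib
import Pool.Agent.Lib.MP_0a1b52_lc_SLICE.Low

/-!
Building circuits gate by gate: the sets of Boolean functions which are computed by the wires of a
circuit with at most `s` gates and at most `h` NOT gates.
-/

namespace Pool.Agent.SliceCircuits

open Finset

/-- Boolean functions of the variables `V`. -/
abbrev BF (V : Type) : Type := (V → Prop) → Prop

/-- A circuit without a distinguished output. -/
structure Pre (V : Type) (s : ℕ) where
  gate : Fin s → Gate V s
  acyclic : ∀ i j : Fin s, Sum.inr j ∈ (gate i).wires → j < i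

variable {V : Type} {s h : ℕ} {T : Set (BF V)}

def Pre.IsEval (P : Pre V s) (x : V → Prop) (val : Fin s → Prop) : Prop :=
  ∀ i, val i ↔ (P.gate i).value (Sum.elim x val)

open Classical in
noncomputable def Pre.numNot (P : Pre V s) : ℕ :=
  (Finset.univ.filter fun i => ∃ w, P.gate i = Gate.not w).card

/-- Some wire computes `f`. -/
def Pre.Computes (P : Pre V s) (f : BF V) : Prop :=
  ∃ w : V ⊕ Fin s, ∀ x val, P.IsEval x val → (Sum.elim x val w ↔ f x)

/-- All functions in `T` are computed by one circuit with at most `s` gates, at most `h` of which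
are NOT gates. -/
def Reach (s h : ℕ) (T : Set (BF V)) : Prop :=
  ∃ s' ≤ s, ∃ P : Pre V s', P.numNot ≤ h ∧ ∀ f ∈ T, P.Computes f

theorem Reach.mono (hR : Reach s h T) {s' h' : ℕ} {T' : Set (BF V)} (hs : s ≤ s') (hh : h ≤ h')
    (hT : T' ⊆ T) : Reach s' h' T' := by
  obtain ⟨t, ht, P, hP, hc⟩ := hR
  exact ⟨t, ht.trans hs, P, hP.trans hh, fun f hf => hc f (hT hf)⟩

theorem reach_vars : Reach 0 0 {f : BF V | ∃ v, f = fun x => x v} := by
  classical
  refine ⟨0, le_rfl, ⟨fun i => i.elim0, fun i => i.elim0⟩, ?_, ?_⟩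
  · unfold Pre.numNot
    simp
  · rintro f ⟨v, rfl⟩
    exact ⟨Sum.inl v, fun x val _ => Iff.rfl⟩

/-- The wires of the longer circuit. -/
def up : V ⊕ Fin s ↪ V ⊕ Fin (s + 1) where
  toFun := Sum.map id Fin.castSucc
  inj' := by
    rintro (v | i) (v' | i') h'
    · exact congrArg Sum.inl (Sum.inl.inj h')
    · exact absurd h' (by simp)
    · exact absurd h' (by simp)
    · exact congrArg Sum.inr (Fin.castSucc_injective _ (Sum.inr.inj h'))

def Gate.up : Gate V s → Gate V (s + 1)
  | .and J => .and (J.map SliceCircuits.up)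
  | .or J => .or (J.map SliceCircuits.up)
  | .not w => .not (SliceCircuits.up w)

theorem Gate.up_wires (g : Gate V s) : g.up.wires = g.wires.map SliceCircuits.up := by
  cases g with
  | and J => rfl
  | or J => rfl
  | not w => exact (map_singleton _ _).symm

theorem elim_up (x : V → Prop) (val : Fin (s + 1) → Prop) (w : V ⊕ Fin s) :
    Sum.elim x val (up w) = Sum.elim x (fun i => val i.castSucc) w := by
  cases w <;> rfl

theorem Gate.up_value (g : Gate V s) (x : V → Prop) (val : Fin (s + 1) → Prop) :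
    g.up.value (Sum.elim x val) ↔ g.value (Sum.elim x fun i => val i.castSucc) := by
  cases g with
  | and J =>
    show (∀ w ∈ J.map SliceCircuits.up, Sum.elim x val w) ↔ _
    constructor
    · intro h' w hw
      rw [← elim_up]
      exact h' _ (mem_map_of_mem _ hw)
    · intro h' w hw
      obtain ⟨w', hw', rfl⟩ := mem_map.1 hw
      rw [elim_up]
      exact h' w' hw'
  | or J =>
    show (∃ w ∈ J.map SliceCircuits.up, Sum.elim x val w) ↔ _
    constructor
    · rintro ⟨w, hw, h'⟩
      obtain ⟨w', hw', rfl⟩ := mem_map.1 hw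
      rw [elim_up] at h'
      exact ⟨w', hw', h'⟩
    · rintro ⟨w, hw, h'⟩
      refine ⟨_, mem_map_of_mem _ hw, ?_⟩
      rw [elim_up]
      exact h'
  | not w =>
    show ¬ Sum.elim x val (SliceCircuits.up w) ↔ ¬ Sum.elim x (fun i => val i.castSucc) w
    rw [elim_up]

/-- Add a gate at the end. -/
def Pre.snoc (P : Pre V s) (g : Gate V s) : Pre V (s + 1) where
  gate := Fin.snoc (α := fun _ => Gate V (s + 1)) (fun i => (P.gate i).up) g.up
  acyclic := by
    intro i
    refine Fin.lastCases ?_ (fun i => ?_) i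
    · intro j hj
      rw [Fin.snoc_last, Gate.up_wires] at hj
      obtain ⟨w, -, hw⟩ := mem_map.1 hj
      cases w with
      | inl v => exact absurd hw (by simp [up])
      | inr k =>
        have : k.castSucc = j := Sum.inr.inj hw
        rw [← this]
        exact Fin.castSucc_lt_last k
    · intro j hj
      rw [Fin.snoc_castSucc, Gate.up_wires] at hj
      obtain ⟨w, hw', hw⟩ := mem_map.1 hj
      cases w with
      | inl v => exact absurd hw (by simp [up])
      | inr k =>
        have : k.castSucc = j := Sum.inr.inj hw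
        rw [← this]
        exact Fin.castSucc_lt_castSucc_iff.2 (P.acyclic i k hw')

theorem Pre.snoc_gate_castSucc (P : Pre V s) (g : Gate V s) (i : Fin s) :
    (P.snoc g).gate i.castSucc = (P.gate i).up := by
  show Fin.snoc (α := fun _ => Gate V (s + 1)) (fun i => (P.gate i).up) g.up i.castSucc = _
  rw [Fin.snoc_castSucc]

theorem Pre.snoc_gate_last (P : Pre V s) (g : Gate V s) :
    (P.snoc g).gate (Fin.last s) = g.up := by
  show Fin.snoc (α := fun _ => Gate V (s + 1)) (fun i => (P.gate i).up) g.up (Fin.last s) = _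
  rw [Fin.snoc_last]

theorem Pre.snoc_isEval {P : Pre V s} {g : Gate V s} {x : V → Prop} {val : Fin (s + 1) → Prop} :
    (P.snoc g).IsEval x val ↔ P.IsEval x (fun i => val i.castSucc) ∧
      (val (Fin.last s) ↔ g.value (Sum.elim x fun i => val i.castSucc)) := by
  constructor
  · intro h'
    refine ⟨fun i => ?_, ?_⟩
    · have h1 := h' i.castSucc
      rw [P.snoc_gate_castSucc, Gate.up_value] at h1
      exact h1
    · have h1 := h' (Fin.last s)
      rw [P.snoc_gate_last, Gate.up_value] at h1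
      exact h1
  · rintro ⟨h1, h2⟩ i
    refine Fin.lastCases ?_ (fun i => ?_) i
    · rw [P.snoc_gate_last, Gate.up_value]
      exact h2
    · rw [P.snoc_gate_castSucc, Gate.up_value]
      exact h1 i

theorem Pre.snoc_computes {P : Pre V s} {g : Gate V s} {f : BF V} (hf : P.Computes f) :
    (P.snoc g).Computes f := by
  obtain ⟨w, hw⟩ := hf
  refine ⟨up w, fun x val hval => ?_⟩
  rw [elim_up]
  exact hw x _ (Pre.snoc_isEval.1 hval).1

theorem Gate.up_not {g : Gate V s} {w : V ⊕ Fin (s + 1)} (hg : g.up = Gate.not w) :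
    ∃ w', g = Gate.not w' := by
  cases g with
  | and J => exact absurd hg (by simp [Gate.up])
  | or J => exact absurd hg (by simp [Gate.up])
  | not w' => exact ⟨w', rfl⟩

theorem Pre.snoc_numNot_le (P : Pre V s) (g : Gate V s) : (P.snoc g).numNot ≤ P.numNot + 1 := by
  classical
  unfold Pre.numNot
  have h1 : (univ.filter fun i => ∃ w, (P.snoc g).gate i = Gate.not w) ⊆
      insert (Fin.last s) ((univ.filter fun i => ∃ w, P.gate i = Gate.not w).map
        Fin.castSuccEmb) := by
    intro i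
    refine Fin.lastCases ?_ (fun i => ?_) i
    · intro _
      exact mem_insert_self _ _
    · intro hi
      obtain ⟨w, hw⟩ := (mem_filter.1 hi).2
      rw [P.snoc_gate_castSucc] at hw
      obtain ⟨w', hw'⟩ := Gate.up_not hw
      exact mem_insert_of_mem (mem_map.2 ⟨i, mem_filter.2 ⟨mem_univ _, w', hw'⟩, rfl⟩)
  refine (card_le_card h1).trans ((card_insert_le _ _).trans ?_)
  rw [card_map]

theorem Pre.snoc_numNot_le' (P : Pre V s) (g : Gate V s) (hg : ∀ w, g ≠ Gate.not w) :
    (P.snoc g).numNot ≤ P.numNot := by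
  classical
  unfold Pre.numNot
  have h1 : (univ.filter fun i => ∃ w, (P.snoc g).gate i = Gate.not w) ⊆
      (univ.filter fun i => ∃ w, P.gate i = Gate.not w).map Fin.castSuccEmb := by
    intro i
    refine Fin.lastCases ?_ (fun i => ?_) i
    · intro hi
      obtain ⟨w, hw⟩ := (mem_filter.1 hi).2
      rw [P.snoc_gate_last] at hw
      obtain ⟨w', hw'⟩ := Gate.up_not hw
      exact absurd hw' (hg w')
    · intro hi
      obtain ⟨w, hw⟩ := (mem_filter.1 hi).2
      rw [P.snoc_gate_castSucc] at hw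
      obtain ⟨w', hw'⟩ := Gate.up_not hw
      exact mem_map.2 ⟨i, mem_filter.2 ⟨mem_univ _, w', hw'⟩, rfl⟩
  refine (card_le_card h1).trans ?_
  rw [card_map]

/-- `f` is the conjunction or the disjunction of finitely many functions in `T`. -/
def OneGate (T : Set (BF V)) (f : BF V) : Prop :=
  (∃ J : Set (BF V), J.Finite ∧ J ⊆ T ∧ f = fun x => ∀ g ∈ J, g x) ∨
  (∃ J : Set (BF V), J.Finite ∧ J ⊆ T ∧ f = fun x => ∃ g ∈ J, g x)

theorem OneGate.mono {T' : Set (BF V)} {f : BF V} (h1 : OneGate T f) (h2 : T ⊆ T') :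
    OneGate T' f := by
  rcases h1 with ⟨J, h3, h4, h5⟩ | ⟨J, h3, h4, h5⟩
  · exact Or.inl ⟨J, h3, h4.trans h2, h5⟩
  · exact Or.inr ⟨J, h3, h4.trans h2, h5⟩

/-- A gate computing `f`. -/
theorem OneGate.exists_gate {P : Pre V s} (hP : ∀ f ∈ T, P.Computes f) {f : BF V}
    (hf : OneGate T f) : ∃ g : Gate V s, (∀ w, g ≠ Gate.not w) ∧
      ∀ x val, P.IsEval x val → (g.value (Sum.elim x val) ↔ f x) := by
  classical
  rcases hf with ⟨J, hJ, hJT, rfl⟩ | ⟨J, hJ, hJT, rfl⟩
  · have h1 : ∀ g : J, ∃ w : V ⊕ Fin s, ∀ x val, P.IsEval x val → (Sum.elim x val w ↔ g.1 x) :=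
      fun g => hP g.1 (hJT g.2)
    choose w hw using h1
    have := hJ.fintype
    refine ⟨Gate.and (univ.image w), (by intro w' hw'; cases hw'), fun x val hval => ?_⟩
    constructor
    · intro h2 g hg
      exact (hw ⟨g, hg⟩ x val hval).1 (h2 _ (mem_image_of_mem w (mem_univ _)))
    · intro h2 w' hw'
      obtain ⟨g, -, rfl⟩ := mem_image.1 hw'
      exact (hw g x val hval).2 (h2 g.1 g.2)
  · have h1 : ∀ g : J, ∃ w : V ⊕ Fin s, ∀ x val, P.IsEval x val → (Sum.elim x val w ↔ g.1 x) :=
      fun g => hP g.1 (hJT g.2)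
    choose w hw using h1
    have := hJ.fintype
    refine ⟨Gate.or (univ.image w), (by intro w' hw'; cases hw'), fun x val hval => ?_⟩
    constructor
    · rintro ⟨w', hw', h2⟩
      obtain ⟨g, -, rfl⟩ := mem_image.1 hw'
      exact ⟨g.1, g.2, (hw g x val hval).1 h2⟩
    · rintro ⟨g, hg, h2⟩
      exact ⟨_, mem_image_of_mem w (mem_univ ⟨g, hg⟩), (hw ⟨g, hg⟩ x val hval).2 h2⟩

theorem Reach.one (hR : Reach s h T) {f : BF V} (hf : OneGate T f) :
    Reach (s + 1) h (insert f T) := by
  obtain ⟨s', hs, P, hP, hc⟩ := hR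
  obtain ⟨g, hg, hval⟩ := hf.exists_gate hc
  refine ⟨s' + 1, by omega, P.snoc g, (P.snoc_numNot_le' g hg).trans hP, ?_⟩
  intro f' hf'
  rcases Set.mem_insert_iff.1 hf' with rfl | hf'
  · refine ⟨Sum.inr (Fin.last s'), fun x val hv => ?_⟩
    obtain ⟨h1, h2⟩ := Pre.snoc_isEval.1 hv
    exact h2.trans (hval x _ h1)
  · exact Pre.snoc_computes (hc f' hf')

theorem Reach.not (hR : Reach s h T) {f : BF V} (hf : f ∈ T) :
    Reach (s + 1) (h + 1) (insert (fun x => ¬ f x) T) := by
  obtain ⟨s', hs, P, hP, hc⟩ := hR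
  obtain ⟨w, hw⟩ := hc f hf
  refine ⟨s' + 1, by omega, P.snoc (Gate.not w), ?_, ?_⟩
  · have := P.snoc_numNot_le (Gate.not w)
    omega
  intro f' hf'
  rcases Set.mem_insert_iff.1 hf' with rfl | hf'
  · refine ⟨Sum.inr (Fin.last s'), fun x val hv => ?_⟩
    obtain ⟨h1, h2⟩ := Pre.snoc_isEval.1 hv
    refine h2.trans ?_
    show ¬ _ ↔ ¬ _
    rw [hw x _ h1]
  · exact Pre.snoc_computes (hc f' hf')

/-- A sequence of AND and OR gates. -/
theorem Reach.seq (hR : Reach s h T) (u : ℕ → BF V) (k : ℕ)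
    (hu : ∀ i < k, OneGate (T ∪ {f | ∃ j < i, f = u j}) (u i)) :
    Reach (s + k) h (T ∪ {f | ∃ i < k, f = u i}) := by
  induction k with
  | zero =>
    refine hR.mono (by omega) le_rfl ?_
    rintro f (hf | ⟨i, hi, -⟩)
    · exact hf
    · omega
  | succ k ih =>
    refine ((ih fun i hi => hu i (by omega)).one (hu k (by omega))).mono (by omega) le_rfl ?_
    rintro f (hf | ⟨i, hi, rfl⟩)
    · exact Set.mem_insert_of_mem _ (Or.inl hf)
    · rcases Nat.lt_succ_iff_lt_or_eq.1 hi with h1 | rfl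
      · exact Set.mem_insert_of_mem _ (Or.inr ⟨i, h1, rfl⟩)
      · exact Set.mem_insert _ _

theorem oneGate_and {f g : BF V} (hf : f ∈ T) (hg : g ∈ T) : OneGate T (fun x => f x ∧ g x) := by
  refine Or.inl ⟨{f, g}, (Set.finite_singleton g).insert f, ?_, ?_⟩
  · rintro f' (rfl | rfl)
    · exact hf
    · exact hg
  · funext x
    refine propext ⟨?_, fun h1 => ⟨h1 f (Or.inl rfl), h1 g (Or.inr rfl)⟩⟩
    rintro ⟨h1, h2⟩ f' (rfl | rfl)
    · exact h1
    · exact h2

theorem oneGate_or {f g : BF V} (hf : f ∈ T) (hg : g ∈ T) : OneGate T (fun x => f x ∨ g x) := by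
  refine Or.inr ⟨{f, g}, (Set.finite_singleton g).insert f, ?_, ?_⟩
  · rintro f' (rfl | rfl)
    · exact hf
    · exact hg
  · funext x
    refine propext ⟨?_, ?_⟩
    · rintro (h1 | h1)
      · exact ⟨f, Or.inl rfl, h1⟩
      · exact ⟨g, Or.inr rfl, h1⟩
    · rintro ⟨f', (rfl | rfl), h1⟩
      · exact Or.inl h1
      · exact Or.inr h1

theorem oneGate_self {f : BF V} (hf : f ∈ T) : OneGate T f := by
  refine Or.inl ⟨{f}, Set.finite_singleton f, Set.singleton_subset_iff.2 hf, ?_⟩
  funext x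
  exact propext ⟨fun h1 f' hf' => by rw [Set.mem_singleton_iff.1 hf']; exact h1,
    fun h1 => h1 f rfl⟩

theorem oneGate_true : OneGate T (fun _ => True) := by
  refine Or.inl ⟨∅, Set.finite_empty, Set.empty_subset _, ?_⟩
  funext x
  exact propext ⟨fun _ f hf => absurd hf (Set.notMem_empty _), fun _ => trivial⟩

theorem oneGate_false : OneGate T (fun _ => False) := by
  refine Or.inr ⟨∅, Set.finite_empty, Set.empty_subset _, ?_⟩
  funext x
  exact propext ⟨fun h1 => h1.elim, fun ⟨f, hf, _⟩ => absurd hf (Set.notMem_empty _)⟩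

/-- The final circuit. -/
theorem Reach.circuit (hR : Reach s h T) {f : BF V} (hf : OneGate T f) :
    ∃ s' ≤ s + 1, ∃ D : Circuit V s', D.numNot ≤ h ∧ ∀ x, D.Accepts x ↔ f x := by
  obtain ⟨s', hs, P, hP, hc⟩ := hR
  obtain ⟨g, hg, hval⟩ := hf.exists_gate hc
  let D : Circuit V (s' + 1) := ⟨(P.snoc g).gate, (P.snoc g).acyclic, Fin.last s'⟩
  refine ⟨s' + 1, by omega, D, (P.snoc_numNot_le' g hg).trans hP, fun x => ?_⟩
  have key : ∀ val, D.IsEval x val → (val D.out ↔ f x) := by
    intro val hv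
    obtain ⟨h1, h2⟩ := Pre.snoc_isEval.1 (show (P.snoc g).IsEval x val from hv)
    exact h2.trans (hval x _ h1)
  constructor
  · rintro ⟨val, hv, ho⟩
    exact (key val hv).1 ho
  · intro h1
    obtain ⟨val, hv⟩ := D.exists_eval x
    exact ⟨val, hv, (key val hv).2 h1⟩

end Pool.Agent.SliceCircuits
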