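import Mathlib
import Pool.Agent.Lib.MP_0a1b52_lc_SLICE.Reach

/-!
Threshold functions, and the simulation of a circuit on one slice by AND gates and OR gates.
-/

namespace Pool.Agent.SliceCircuits

open Finset

variable {V : Type} {s h : ℕ} {T : Set (BF V)}

/-- A family of extensions. -/
theorem Reach.family {ι : Type} (I : Finset ι) (c : ℕ) (Φ : ι → Set (BF V) → Prop)
    (hΦ : ∀ i T₁ T₂, T₁ ⊆ T₂ → Φ i T₁ → Φ i T₂)
    (step : ∀ i ∈ I, ∀ s T₁, T ⊆ T₁ → Reach s h T₁ → ∃ T₂, T₁ ⊆ T₂ ∧ Reach (s + c) h T₂ ∧ Φ i T₂)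
    (hR : Reach s h T) : ∃ T₁, T ⊆ T₁ ∧ Reach (s + I.card * c) h T₁ ∧ ∀ i ∈ I, Φ i T₁ := by
  classical
  induction I using Finset.induction_on with
  | empty => exact ⟨T, subset_rfl, hR.mono (by simp) le_rfl subset_rfl, fun i hi => absurd hi (notMem_empty i)⟩
  | insert a I ha ih =>
    obtain ⟨T₁, h1, h2, h3⟩ := ih fun i hi => step i (mem_insert_of_mem hi)
    obtain ⟨T₂, h4, h5, h6⟩ := step a (mem_insert_self _ _) _ T₁ h1 h2
    refine ⟨T₂, h1.trans h4, h5.mono ?_ le_rfl subset_rfl, ?_⟩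
    · rw [card_insert_of_notMem ha]
      exact le_of_eq (by ring)
    · intro i hi
      rcases mem_insert.1 hi with rfl | hi
      · exact h6
      · exact hΦ i T₁ T₂ h4 (h3 i hi)

open Classical in
/-- At least `j` of the variables in `S` are true. -/
def Th (S : Finset V) (j : ℕ) : BF V := fun x => j ≤ (S.filter fun v => x v).card

theorem Th_zero (S : Finset V) : Th S 0 = fun _ => True := by
  funext x
  exact propext ⟨fun _ => trivial, fun _ => Nat.zero_le _⟩

theorem Th_empty (j : ℕ) : Th (∅ : Finset V) (j + 1) = fun _ => False := by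
  funext x
  refine propext ⟨fun h1 => ?_, fun h1 => h1.elim⟩
  unfold Th at h1
  simp at h1

open Classical in
theorem Th_insert {S : Finset V} {a : V} (ha : a ∉ S) (j : ℕ) :
    Th (insert a S) (j + 1) = fun x => Th S (j + 1) x ∨ (Th S j x ∧ x a) := by
  classical
  funext x
  apply propext
  unfold Th
  rw [filter_insert]
  by_cases hx : x a
  · rw [if_pos hx, card_insert_of_notMem (fun h1 => ha (mem_filter.1 h1).1)]
    simp only [hx, and_true]
    omega
  · rw [if_neg hx]
    simp only [hx, and_false, or_false]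

theorem Reach.thr (hR : Reach s h T) (hv : ∀ v, (fun x => x v) ∈ T) (ht : (fun _ => True) ∈ T)
    (hf : (fun _ => False) ∈ T) (S : Finset V) (K : ℕ) :
    ∃ T₁, T ⊆ T₁ ∧ Reach (s + S.card * (2 * (K + 1))) h T₁ ∧ ∀ j ≤ K, Th S j ∈ T₁ := by
  classical
  induction S using Finset.induction_on with
  | empty =>
    refine ⟨T, subset_rfl, hR.mono (by simp) le_rfl subset_rfl, fun j _ => ?_⟩
    cases j with
    | zero => rw [Th_zero]; exact ht
    | succ j => rw [Th_empty]; exact hf
  | insert a S ha ih =>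
    obtain ⟨T₁, h1, h2, h3⟩ := ih
    have h4 := h2.seq (fun j x => Th S j x ∧ x a) (K + 1) (fun i hi => by
      refine OneGate.mono (T := T₁) ?_ (Set.subset_union_left)
      exact oneGate_and (h3 i (by omega)) (h1 (hv a)))
    have h5 := h4.seq (fun j => Th (insert a S) j) (K + 1) (fun i hi => by
      refine OneGate.mono (T := T₁ ∪ {f | ∃ i < K + 1, f = fun x => Th S i x ∧ x a}) ?_
        (Set.subset_union_left)
      cases i with
      | zero =>
        show OneGate _ (Th (insert a S) 0)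
        rw [Th_zero]
        exact oneGate_true
      | succ i =>
        show OneGate _ (Th (insert a S) (i + 1))
        rw [Th_insert ha]
        exact oneGate_or (Or.inl (h3 (i + 1) (by omega))) (Or.inr ⟨i, by omega, rfl⟩))
    refine ⟨_, ?_, h5.mono ?_ le_rfl subset_rfl, ?_⟩
    · exact (h1.trans Set.subset_union_left).trans Set.subset_union_left
    · rw [card_insert_of_notMem ha]
      exact le_of_eq (by ring)
    · intro j hj
      exact Or.inr ⟨j, by omega, rfl⟩

/-- The simulation of a circuit on the slice `|x| = m` by a circuit without NOT gates, given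
circuits for the negated variables. -/
theorem Reach.rail {s₀ : ℕ} (D : Circuit V s₀) (A : (V → Prop) → Prop)
    (hR : Reach s h T) (hv : ∀ v, (fun x => x v) ∈ T)
    (hn : ∀ v, ∃ q ∈ T, ∀ x, A x → (q x ↔ ¬ x v)) (k : ℕ) :
    ∃ T₁, T ⊆ T₁ ∧ Reach (s + 2 * k) h T₁ ∧ ∀ i : Fin s₀, i.1 < k → ∃ p ∈ T₁, ∃ q ∈ T₁,
      ∀ x, A x → ∀ val, D.IsEval x val → (p x ↔ val i) ∧ (q x ↔ ¬ val i) := by
  classical
  induction k with
  | zero => exact ⟨T, subset_rfl, hR.mono (by simp) le_rfl subset_rfl, fun i hi => absurd hi (by simp)⟩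
  | succ k ih =>
    obtain ⟨T₁, h1, h2, h3⟩ := ih
    by_cases hk : k < s₀
    swap
    · refine ⟨T₁, h1, h2.mono (by omega) le_rfl subset_rfl, fun i hi => h3 i ?_⟩
      have := i.2
      omega
    have hw : ∀ w : V ⊕ Fin s₀, w ∈ (D.gate ⟨k, hk⟩).wires → ∃ p ∈ T₁, ∃ q ∈ T₁,
        ∀ x, A x → ∀ val, D.IsEval x val →
          (p x ↔ Sum.elim x val w) ∧ (q x ↔ ¬ Sum.elim x val w) := by
      intro w hw
      cases w with
      | inl v =>
        obtain ⟨q, hq, hq'⟩ := hn v
        exact ⟨_, h1 (hv v), q, h1 hq, fun x hx val _ => ⟨Iff.rfl, hq' x hx⟩⟩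
      | inr j => exact h3 j (D.acyclic _ j hw)
    choose! p hp q hq hpq using hw
    have key : ∃ f g : BF V, OneGate T₁ f ∧ OneGate T₁ g ∧
        ∀ x, A x → ∀ val, D.IsEval x val → (f x ↔ val ⟨k, hk⟩) ∧ (g x ↔ ¬ val ⟨k, hk⟩) := by
      cases hg : D.gate ⟨k, hk⟩ with
      | and J =>
        rw [hg] at hp hq hpq
        refine ⟨fun x => ∀ f ∈ p '' (J : Set (V ⊕ Fin s₀)), f x,
          fun x => ∃ f ∈ q '' (J : Set (V ⊕ Fin s₀)), f x,
          Or.inl ⟨_, J.finite_toSet.image p, ?_, rfl⟩,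
          Or.inr ⟨_, J.finite_toSet.image q, ?_, rfl⟩, ?_⟩
        · rintro f ⟨w, hw, rfl⟩
          exact hp w hw
        · rintro f ⟨w, hw, rfl⟩
          exact hq w hw
        intro x hx val hval
        have h4 : val ⟨k, hk⟩ ↔ ∀ w ∈ J, Sum.elim x val w := by
          have h5 := hval ⟨k, hk⟩
          rw [hg] at h5
          exact h5
        rw [h4]
        constructor
        · constructor
          · exact fun h5 w hw => (hpq w hw x hx val hval).1.1 (h5 _ ⟨w, hw, rfl⟩)
          · rintro h5 f ⟨w, hw, rfl⟩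
            exact (hpq w hw x hx val hval).1.2 (h5 w hw)
        · constructor
          · rintro ⟨f, ⟨w, hw, rfl⟩, h5⟩ h6
            exact (hpq w hw x hx val hval).2.1 h5 (h6 w hw)
          · intro h5
            push Not at h5
            obtain ⟨w, hw, h6⟩ := h5
            exact ⟨_, ⟨w, hw, rfl⟩, (hpq w hw x hx val hval).2.2 h6⟩
      | or J =>
        rw [hg] at hp hq hpq
        refine ⟨fun x => ∃ f ∈ p '' (J : Set (V ⊕ Fin s₀)), f x,
          fun x => ∀ f ∈ q '' (J : Set (V ⊕ Fin s₀)), f x,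
          Or.inr ⟨_, J.finite_toSet.image p, ?_, rfl⟩,
          Or.inl ⟨_, J.finite_toSet.image q, ?_, rfl⟩, ?_⟩
        · rintro f ⟨w, hw, rfl⟩
          exact hp w hw
        · rintro f ⟨w, hw, rfl⟩
          exact hq w hw
        intro x hx val hval
        have h4 : val ⟨k, hk⟩ ↔ ∃ w ∈ J, Sum.elim x val w := by
          have h5 := hval ⟨k, hk⟩
          rw [hg] at h5
          exact h5
        rw [h4]
        constructor
        · constructor
          · rintro ⟨f, ⟨w, hw, rfl⟩, h5⟩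
            exact ⟨w, hw, (hpq w hw x hx val hval).1.1 h5⟩
          · rintro ⟨w, hw, h5⟩
            exact ⟨_, ⟨w, hw, rfl⟩, (hpq w hw x hx val hval).1.2 h5⟩
        · constructor
          · rintro h5 ⟨w, hw, h6⟩
            exact (hpq w hw x hx val hval).2.1 (h5 _ ⟨w, hw, rfl⟩) h6
          · rintro h5 f ⟨w, hw, rfl⟩
            exact (hpq w hw x hx val hval).2.2 fun h6 => h5 ⟨w, hw, h6⟩
      | not w =>
        rw [hg] at hp hq hpq
        have hw : w ∈ (Gate.not w : Gate V s₀).wires := mem_singleton_self w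
        refine ⟨q w, p w, oneGate_self (hq w hw), oneGate_self (hp w hw), ?_⟩
        intro x hx val hval
        have h4 : val ⟨k, hk⟩ ↔ ¬ Sum.elim x val w := by
          have h5 := hval ⟨k, hk⟩
          rw [hg] at h5
          exact h5
        rw [h4, not_not]
        exact ⟨(hpq w hw x hx val hval).2, (hpq w hw x hx val hval).1⟩
    obtain ⟨f, g, hf, hg, hfg⟩ := key
    refine ⟨insert g (insert f T₁), ?_, ?_, ?_⟩
    · exact (h1.trans (Set.subset_insert _ _)).trans (Set.subset_insert _ _)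
    · exact ((h2.one hf).one (hg.mono (Set.subset_insert _ _))).mono (by omega) le_rfl subset_rfl
    · intro i hi
      rcases Nat.lt_succ_iff_lt_or_eq.1 hi with h4 | h4
      · obtain ⟨p, hp, q, hq, h5⟩ := h3 i h4
        exact ⟨p, Or.inr (Or.inr hp), q, Or.inr (Or.inr hq), h5⟩
      · have h5 : i = ⟨k, hk⟩ := Fin.ext h4
        subst h5
        exact ⟨f, Or.inr (Or.inl rfl), g, Or.inl rfl, hfg⟩

end Pool.Agent.SliceCircuits
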