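import Mathlib
import Pool.Agent.Lib.MP_0a1b52_lc_SLICE.Thr

/-!
Markov's inverter for a sorted list of Boolean functions, and the slice functions.
-/

namespace Pool.Agent.SliceCircuits

open Finset

variable {V : Type} {s h : ℕ} {T : Set (BF V)}

/-- The negations of a decreasing list of fewer than `2 ^ k` functions, with `k` NOT gates. -/
theorem Reach.inv (k : ℕ) : ∀ {s h : ℕ} {T : Set (BF V)} (y : ℕ → BF V) (d : ℕ), d < 2 ^ k →
    (∀ i j, i ≤ j → ∀ x, y j x → y i x) → (∀ i, y i ∈ T) → (fun _ => False) ∈ T →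
    (∀ i, d ≤ i → y i = fun _ => False) → Reach s h T →
    ∃ T₁, T ⊆ T₁ ∧ Reach (s + (2 * d + 1) * k) (h + k) T₁ ∧
      ∀ i < d, (fun x => ¬ y i x) ∈ T₁ := by
  classical
  induction k with
  | zero =>
    intro s h T y d hd _ _ _ _ hR
    have hd0 : d = 0 := by simpa using hd
    subst hd0
    exact ⟨T, subset_rfl, hR.mono (by simp) (by simp) subset_rfl, fun i hi => absurd hi (by simp)⟩
  | succ k ih =>
    intro s h T y d hd hanti hT hF hzero hR
    rcases Nat.eq_zero_or_pos d with rfl | hdpos
    · exact ⟨T, subset_rfl, hR.mono (by omega) (by omega) subset_rfl,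
        fun i hi => absurd hi (by simp)⟩
    obtain ⟨mid, hmid1, hmid2⟩ : ∃ mid, 2 * mid ≤ d ∧ d ≤ 2 * mid + 1 :=
      ⟨d / 2, by omega, by omega⟩
    have hmid3 : mid < d := by omega
    have hmid4 : mid < 2 ^ k := by
      rw [pow_succ] at hd
      omega
    have h1 := hR.not (hT mid)
    have h2 := h1.seq (fun i x => y i x ∧ ¬ y mid x) mid (fun i hi => by
      refine OneGate.mono (T := insert (fun x => ¬ y mid x) T) ?_ Set.subset_union_left
      exact oneGate_and (Or.inr (hT i)) (Or.inl rfl))
    have h3 := h2.seq (fun i x => y (mid + 1 + i) x ∨ (y i x ∧ ¬ y mid x)) mid (fun i hi => by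
      refine OneGate.mono (T := insert (fun x => ¬ y mid x) T ∪
        {f | ∃ i < mid, f = fun x => y i x ∧ ¬ y mid x}) ?_ Set.subset_union_left
      exact oneGate_or (Or.inl (Or.inr (hT _))) (Or.inr ⟨i, hi, rfl⟩))
    obtain ⟨y', hy'⟩ : ∃ y' : ℕ → BF V, y' = fun i => if i < mid then
      (fun x => y (mid + 1 + i) x ∨ (y i x ∧ ¬ y mid x)) else fun _ => False := ⟨_, rfl⟩
    have hy1 : ∀ i < mid, y' i = fun x => y (mid + 1 + i) x ∨ (y i x ∧ ¬ y mid x) := by
      intro i hi
      rw [hy']
      simp only [if_pos hi]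
    have hy2 : ∀ i, mid ≤ i → y' i = fun _ => False := by
      intro i hi
      rw [hy']
      simp only [if_neg (not_lt.2 hi)]
    obtain ⟨T₁, h4, h5, h6⟩ := ih y' mid hmid4
      (by
        intro i j hij x hx
        by_cases hj : j < mid
        · rw [hy1 j hj] at hx
          rw [hy1 i (by omega)]
          rcases hx with hx | ⟨hx, hx'⟩
          · exact Or.inl (hanti _ _ (by omega) x hx)
          · exact Or.inr ⟨hanti i j hij x hx, hx'⟩
        · rw [hy2 j (by omega)] at hx
          exact hx.elim)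
      (by
        intro i
        by_cases hi : i < mid
        · rw [hy1 i hi]
          exact Or.inr ⟨i, hi, rfl⟩
        · rw [hy2 i (by omega)]
          exact Or.inl (Or.inl (Or.inr hF)))
      (Or.inl (Or.inl (Or.inr hF))) hy2 h3
    have h7 : (fun x => ¬ y mid x) ∈ T₁ := h4 (Or.inl (Or.inl (Or.inl rfl)))
    have h8 := h5.seq (fun i x => ¬ y i x) d (fun i hi => by
      refine OneGate.mono (T := T₁) ?_ Set.subset_union_left
      rcases lt_trichotomy i mid with h9 | rfl | h9
      · have h10 := oneGate_and h7 (h6 i h9)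
        have h11 : (fun x => ¬ y mid x ∧ ¬ y' i x) = fun x => ¬ y i x := by
          funext x
          rw [hy1 i h9]
          apply propext
          constructor
          · rintro ⟨h12, h13⟩ h14
            exact h13 (Or.inr ⟨h14, h12⟩)
          · intro h12
            have h13 : ¬ y mid x := fun h14 => h12 (hanti i mid h9.le x h14)
            refine ⟨h13, ?_⟩
            rintro (h14 | h14)
            · exact h12 (hanti i _ (by omega) x h14)
            · exact h12 h14.1
        rw [h11] at h10
        exact h10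
      · exact oneGate_self h7
      · have h10 := oneGate_or h7 (h6 (i - (mid + 1)) (by omega))
        have h11 : (fun x => ¬ y mid x ∨ ¬ y' (i - (mid + 1)) x) = fun x => ¬ y i x := by
          funext x
          rw [hy1 _ (by omega : i - (mid + 1) < mid),
            show mid + 1 + (i - (mid + 1)) = i by omega]
          apply propext
          constructor
          · rintro (h12 | h12) h13
            · exact h12 (hanti mid i h9.le x h13)
            · exact h12 (Or.inl h13)
          · intro h12
            by_cases h13 : y mid x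
            · right
              rintro (h14 | h14)
              · exact h12 h14
              · exact h14.2 h13
            · exact Or.inl h13
        rw [h11] at h10
        exact h10)
    refine ⟨_, ?_, h8.mono ?_ (by omega) subset_rfl, fun i hi => Or.inr ⟨i, hi, rfl⟩⟩
    · refine Set.Subset.trans ?_ Set.subset_union_left
      refine Set.Subset.trans ?_ h4
      exact fun f hf => Or.inl (Or.inl (Or.inr hf))
    · have h9 : (2 * mid + 1) * k ≤ (2 * d + 1) * k := Nat.mul_le_mul_right k (by omega)
      have h10 : (2 * d + 1) * (k + 1) = (2 * d + 1) * k + (2 * d + 1) := by ring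
      omega

section Slice

variable [Fintype V]

open Classical in
/-- The number of true variables. -/
noncomputable def wt (x : V → Prop) : ℕ := (univ.filter fun v => x v).card

/-- `F` is `0` below the slice `|x| = m`, `1` above it, and `f` on it. -/
def IsSlice (m : ℕ) (f F : BF V) : Prop :=
  ∀ x, (wt x < m → ¬ F x) ∧ (wt x = m → (F x ↔ f x)) ∧ (m < wt x → F x)

theorem Th_univ (m : ℕ) (x : V → Prop) : Th univ m x ↔ m ≤ wt x := by
  unfold Th wt
  exact Iff.rfl

open Classical in
theorem Th_erase (m : ℕ) (v : V) (x : V → Prop) (hx : wt x = m) :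
    Th (univ.erase v) m x ↔ ¬ x v := by
  have h1 : Th (univ.erase v) m x ↔ m ≤ ((univ.filter fun v => x v).erase v).card := by
    unfold Th
    rw [filter_erase]
  have h2 : (univ.filter fun v => x v).card = m := hx
  rw [h1]
  by_cases hv : x v
  · have h3 : v ∈ univ.filter fun v => x v := mem_filter.2 ⟨mem_univ _, hv⟩
    have h4 : 0 < (univ.filter fun v => x v).card := card_pos.2 ⟨v, h3⟩
    rw [card_erase_of_mem h3, h2]
    rw [h2] at h4
    constructor
    · intro h5
      omega
    · intro h5
      exact absurd hv h5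
  · rw [erase_eq_of_notMem (fun h1 => hv (mem_filter.1 h1).2), h2]
    exact ⟨fun _ => hv, fun _ => le_rfl⟩

open Classical in
/-- The slice functions of a circuit which computes `f` on the slice `|x| = m`. -/
theorem Reach.slice {s₀ : ℕ} (D : Circuit V s₀) (f : BF V) (m : ℕ)
    (hD : ∀ x, wt x = m → (D.Accepts x ↔ f x)) (hR : Reach s h T) (hv : ∀ v, (fun x => x v) ∈ T)
    (h1 : ∀ v, Th (univ.erase v) m ∈ T) (h2 : Th univ m ∈ T) (h3 : Th univ (m + 1) ∈ T) :
    ∃ T₁, T ⊆ T₁ ∧ Reach (s + (2 * s₀ + 4)) h T₁ ∧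
      ∃ F ∈ T₁, ∃ G ∈ T₁, IsSlice m f F ∧ IsSlice m (fun x => ¬ f x) G := by
  classical
  obtain ⟨T₁, h4, h5, h6⟩ := hR.rail D (fun x => wt x = m) hv
    (fun v => ⟨_, h1 v, fun x hx => Th_erase m v x hx⟩) s₀
  obtain ⟨p, hp, q, hq, hpq⟩ := h6 D.out D.out.2
  have key : ∀ (T₂ : Set (BF V)) (t : ℕ) (p g : BF V), T₁ ⊆ T₂ → Reach t h T₂ → p ∈ T₁ →
      (∀ x, wt x = m → (p x ↔ g x)) →
      ∃ T₃, T₂ ⊆ T₃ ∧ Reach (t + 2) h T₃ ∧ ∃ F ∈ T₃, IsSlice m g F := by
    intro T₂ t p g h7 h8 h9 h10
    have h11 := h8.one (oneGate_and (h7 (h4 h2)) (h7 h9))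
    have h12 := h11.one (oneGate_or (Or.inr (h7 (h4 h3))) (Or.inl rfl))
    refine ⟨_, ?_, h12.mono (by omega) le_rfl subset_rfl, _, Or.inl rfl, ?_⟩
    · exact fun f hf => Or.inr (Or.inr hf)
    · intro x
      refine ⟨fun h13 => ?_, fun h13 => ?_, fun h13 => ?_⟩
      · rintro (h14 | ⟨h14, -⟩)
        · rw [Th_univ] at h14
          omega
        · rw [Th_univ] at h14
          omega
      · constructor
        · rintro (h14 | ⟨-, h14⟩)
          · rw [Th_univ] at h14
            omega
          · exact (h10 x h13).1 h14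
        · intro h14
          exact Or.inr ⟨(Th_univ m x).2 h13.ge, (h10 x h13).2 h14⟩
      · exact Or.inl ((Th_univ (m + 1) x).2 h13)
  have hp' : ∀ x, wt x = m → (p x ↔ f x) := by
    intro x hx
    rw [← hD x hx]
    obtain ⟨val, hval⟩ := D.exists_eval x
    rw [(hpq x hx val hval).1]
    constructor
    · exact fun h7 => ⟨val, hval, h7⟩
    · rintro ⟨val', h7, h8⟩
      rw [hval.unique h7]
      exact h8
  have hq' : ∀ x, wt x = m → (q x ↔ ¬ f x) := by
    intro x hx
    rw [← hD x hx]
    obtain ⟨val, hval⟩ := D.exists_eval x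
    rw [(hpq x hx val hval).2, not_iff_not]
    constructor
    · exact fun h7 => ⟨val, hval, h7⟩
    · rintro ⟨val', h7, h8⟩
      rw [hval.unique h7]
      exact h8
  obtain ⟨T₂, h7, h8, F, hF, hF'⟩ := key T₁ _ p f subset_rfl h5 hp hp'
  obtain ⟨T₃, h9, h10, G, hG, hG'⟩ := key T₂ _ q (fun x => ¬ f x) h7 h8 hq hq'
  exact ⟨T₃, (h4.trans h7).trans h9, h10.mono (by omega) le_rfl subset_rfl,
    F, h9 hF, G, hG, hF', hG'⟩

end Slice

end Pool.Agent.SliceCircuits
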