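import Mathlib
import Pool.Agent.Lib.MP_0a1b52_lc_SLICE.Inv

/-!
The upper bound: `⌊log₂ r⌋` NOT gates suffice on `r` slices.
-/

namespace Pool.Agent.SliceCircuits

open Finset

variable {V : Type} [Fintype V]

theorem wt_le (x : V → Prop) : wt x ≤ Fintype.card V := by
  classical
  unfold wt
  exact (card_le_univ _)

open Classical in
/-- The construction for slices in a set `R` of at most `card V` numbers. -/
theorem upper_core {s₀ : ℕ} (D : Circuit V s₀) (f : BF V) (R : Finset ℕ) (h N : ℕ)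
    (hN : Fintype.card V = N) (hRN : ∀ m ∈ R, m ≤ N)
    (hD : ∀ x, wt x ∈ R → (D.Accepts x ↔ f x)) (hRh : R.card < 2 ^ (h + 1)) :
    ∃ s' ≤ 2 + (N + 1) * (N * (2 * (N + 1 + 1))) + R.card * (2 * s₀ + 4) +
        (2 * (R.card / 2) + 1) * h + (R.card / 2 + 1) + 1,
      ∃ D' : Circuit V s', D'.numNot ≤ h ∧ ∀ x, wt x ∈ R → (D'.Accepts x ↔ f x) := by
  classical
  -- constants and variables
  have hR1 := (reach_vars (V := V)).one oneGate_true
  have hR2 := hR1.one oneGate_false
  set T2 : Set (BF V) := insert (fun _ => False) (insert (fun _ => True)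
    {f : BF V | ∃ v, f = fun x => x v}) with hT2
  have hv2 : ∀ v : V, (fun x : V → Prop => x v) ∈ T2 := fun v => Or.inr (Or.inr ⟨v, rfl⟩)
  have ht2 : (fun _ => True : BF V) ∈ T2 := Or.inr (Or.inl rfl)
  have hf2 : (fun _ => False : BF V) ∈ T2 := Or.inl rfl
  -- thresholds
  obtain ⟨T3, h23, hR3, hth⟩ := Reach.family (h := 0) (T := T2)
    (insert univ (univ.image fun v : V => univ.erase v)) (N * (2 * (N + 1 + 1)))
    (fun (S : Finset V) T => ∀ j ≤ N + 1, Th S j ∈ T)
    (fun S T₁ T₂ h1 h2 j hj => h1 (h2 j hj))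
    (by
      intro S hS s T₁ h1 h2
      obtain ⟨T₂, h3, h4, h5⟩ := h2.thr (fun v => h1 (hv2 v)) (h1 ht2) (h1 hf2) S (N + 1)
      refine ⟨T₂, h3, h4.mono ?_ le_rfl subset_rfl, h5⟩
      have h6 : S.card ≤ N := by
        rw [← hN]
        exact card_le_univ S
      exact Nat.add_le_add_left (Nat.mul_le_mul_right _ h6) s)
    hR2
  have hthu : ∀ j ≤ N + 1, Th (univ : Finset V) j ∈ T3 := fun j hj => hth _ (mem_insert_self _ _) j hj
  have hthe : ∀ v : V, ∀ j ≤ N + 1, Th (univ.erase v) j ∈ T3 := fun v j hj =>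
    hth _ (mem_insert_of_mem (mem_image_of_mem _ (mem_univ v))) j hj
  -- slices
  obtain ⟨T4, h34, hR4, hsl⟩ := Reach.family (h := 0) (T := T3) R (2 * s₀ + 4)
    (fun m T => ∃ F ∈ T, ∃ G ∈ T, IsSlice m f F ∧ IsSlice m (fun x => ¬ f x) G)
    (fun m T₁ T₂ h1 ⟨F, hF, G, hG, h2⟩ => ⟨F, h1 hF, G, h1 hG, h2⟩)
    (by
      intro m hm s T₁ h1 h2
      have h3 := hRN m hm
      exact h2.slice D f m (fun x hx => hD x (hx ▸ hm)) (fun v => h1 (h23 (hv2 v)))
        (fun v => h1 (hthe v m (by omega))) (h1 (hthu m (by omega))) (h1 (hthu (m + 1) (by omega))))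
    hR3
  choose! F hF G hG hFG using hsl
  obtain ⟨r, hr⟩ : ∃ r, r = R.card := ⟨_, rfl⟩
  set e := R.orderEmbOfFin hr.symm with he
  have heR : ∀ i, e i ∈ R := fun i => R.orderEmbOfFin_mem hr.symm i
  obtain ⟨y, hy⟩ : ∃ y : ℕ → BF V, y = fun k => if hk : 2 * k + 1 < r then G (e ⟨2 * k + 1, hk⟩)
    else fun _ => False := ⟨_, rfl⟩
  obtain ⟨M, hM⟩ : ∃ M : ℕ → BF V, M = fun k => if hk : 2 * k < r then F (e ⟨2 * k, hk⟩)
    else fun _ => False := ⟨_, rfl⟩
  have hy1 : ∀ k (hk : 2 * k + 1 < r), y k = G (e ⟨2 * k + 1, hk⟩) := by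
    intro k hk
    rw [hy]
    simp only [dif_pos hk]
  have hy2 : ∀ k, ¬ 2 * k + 1 < r → y k = fun _ => False := by
    intro k hk
    rw [hy]
    simp only [dif_neg hk]
  have hM1 : ∀ k (hk : 2 * k < r), M k = F (e ⟨2 * k, hk⟩) := by
    intro k hk
    rw [hM]
    simp only [dif_pos hk]
  have hM2 : ∀ k, ¬ 2 * k < r → M k = fun _ => False := by
    intro k hk
    rw [hM]
    simp only [dif_neg hk]
  have hf4 : (fun _ => False : BF V) ∈ T4 := h34 (h23 hf2)
  have hyT : ∀ k, y k ∈ T4 := by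
    intro k
    by_cases hk : 2 * k + 1 < r
    · rw [hy1 k hk]
      exact hG _ (heR _)
    · rw [hy2 k hk]
      exact hf4
  have hMT : ∀ k, M k ∈ T4 := by
    intro k
    by_cases hk : 2 * k < r
    · rw [hM1 k hk]
      exact hF _ (heR _)
    · rw [hM2 k hk]
      exact hf4
  have hanti : ∀ i j, i ≤ j → ∀ x, y j x → y i x := by
    intro i j hij x hx
    rcases hij.eq_or_lt with rfl | hij
    · exact hx
    by_cases hj : 2 * j + 1 < r
    · have hi : 2 * i + 1 < r := by omega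
      rw [hy1 j hj] at hx
      rw [hy1 i hi]
      have h1 : e ⟨2 * j + 1, hj⟩ ≤ wt x := by
        by_contra h2
        exact ((hFG _ (heR _)).2 x).1 (not_le.1 h2) hx
      have h2 : e ⟨2 * i + 1, hi⟩ < e ⟨2 * j + 1, hj⟩ := e.strictMono (by
        show 2 * i + 1 < 2 * j + 1
        omega)
      exact ((hFG _ (heR _)).2 x).2.2 (h2.trans_le h1)
    · rw [hy2 j hj] at hx
      exact hx.elim
  -- the inverter
  have hd : r / 2 < 2 ^ h := by
    rw [← hr, pow_succ] at hRh
    omega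
  obtain ⟨T5, h45, hR5, hneg⟩ := Reach.inv h y (r / 2) hd hanti hyT hf4
    (fun i hi => hy2 i (by omega)) hR4
  -- the terms
  obtain ⟨a, ha⟩ : ∃ a : ℕ → BF V, a = fun k => if k = 0 then (fun _ => True) else y (k - 1) :=
    ⟨_, rfl⟩
  obtain ⟨b, hb⟩ : ∃ b : ℕ → BF V, b = fun k => if k < r / 2 then (fun x => ¬ y k x)
    else fun _ => True := ⟨_, rfl⟩
  have ha0 : a 0 = fun _ => True := by
    rw [ha]
    simp only [if_pos]
  have ha1 : ∀ k, a (k + 1) = y k := by
    intro k
    rw [ha]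
    simp
  have hb1 : ∀ k, k < r / 2 → b k = fun x => ¬ y k x := by
    intro k hk
    rw [hb]
    simp only [if_pos hk]
  have hb2 : ∀ k, ¬ k < r / 2 → b k = fun _ => True := by
    intro k hk
    rw [hb]
    simp only [if_neg hk]
  have ht5 : (fun _ => True : BF V) ∈ T5 := h45 (h34 (h23 ht2))
  have haT : ∀ k, a k ∈ T5 := by
    intro k
    cases k with
    | zero =>
      rw [ha0]
      exact ht5
    | succ k =>
      rw [ha1]
      exact h45 (hyT k)
  have hbT : ∀ k, b k ∈ T5 := by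
    intro k
    by_cases hk : k < r / 2
    · rw [hb1 k hk]
      exact hneg k hk
    · rw [hb2 k hk]
      exact ht5
  have hR6 := hR5.seq (fun k x => a k x ∧ b k x ∧ M k x) (r / 2 + 1) (fun i hi => by
    refine OneGate.mono (T := T5) ?_ Set.subset_union_left
    refine Or.inl ⟨{a i, b i, M i}, ((Set.finite_singleton _).insert _).insert _, ?_, ?_⟩
    · rintro g (rfl | rfl | rfl)
      · exact haT i
      · exact hbT i
      · exact h45 (hMT i)
    · funext x
      refine propext ⟨?_, fun h1 => ⟨h1 _ (Or.inl rfl), h1 _ (Or.inr (Or.inl rfl)),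
        h1 _ (Or.inr (Or.inr rfl))⟩⟩
      rintro ⟨h1, h2, h3⟩ g (rfl | rfl | rfl)
      · exact h1
      · exact h2
      · exact h3)
  obtain ⟨s', hs', D', hD', hacc⟩ := hR6.circuit
    (f := fun x => ∃ k < r / 2 + 1, a k x ∧ b k x ∧ M k x) (by
      refine Or.inr ⟨{g | ∃ i < r / 2 + 1, g = fun x => a i x ∧ b i x ∧ M i x}, ?_,
        Set.subset_union_right, ?_⟩
      · refine ((range (r / 2 + 1)).finite_toSet.image fun i => (fun x => a i x ∧ b i x ∧ M i x :
          BF V)).subset ?_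
        rintro g ⟨i, hi, rfl⟩
        exact ⟨i, mem_coe.2 (mem_range.2 hi), rfl⟩
      · funext x
        refine propext ⟨?_, ?_⟩
        · rintro ⟨k, hk, h1⟩
          exact ⟨_, ⟨k, hk, rfl⟩, h1⟩
        · rintro ⟨g, ⟨k, hk, rfl⟩, h1⟩
          exact ⟨k, hk, h1⟩)
  refine ⟨s', ?_, D', hD'.trans (by omega), fun x hx => ?_⟩
  · refine hs'.trans ?_
    have h1 : (insert univ (univ.image fun v : V => univ.erase v) : Finset (Finset V)).card *
        (N * (2 * (N + 1 + 1))) ≤ (N + 1) * (N * (2 * (N + 1 + 1))) := by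
      refine Nat.mul_le_mul_right _ ?_
      refine (card_insert_le _ _).trans ?_
      have : (univ.image fun v : V => univ.erase v).card ≤ N := by
        rw [← hN]
        exact card_image_le
      omega
    rw [← hr]
    omega
  rw [hacc]
  -- correctness
  obtain ⟨i, hi⟩ : ∃ i : Fin r, e i = wt x := by
    have h1 : wt x ∈ Set.range (R.orderEmbOfFin hr.symm) := by
      rw [range_orderEmbOfFin]
      exact hx
    exact h1
  have hlt : ∀ j : Fin r, (j < i → e j < wt x) ∧ (i < j → wt x < e j) := by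
    intro j
    rw [← hi]
    exact ⟨fun h1 => e.strictMono h1, fun h1 => e.strictMono h1⟩
  have hyx : ∀ j, (2 * j + 1 < i.1 → y j x) ∧ (2 * j + 1 = i.1 → (y j x ↔ ¬ f x)) ∧
      (i.1 < 2 * j + 1 → ¬ y j x) := by
    intro j
    have hir := i.2
    refine ⟨fun h1 => ?_, fun h1 => ?_, fun h1 => ?_⟩
    · have hj : 2 * j + 1 < r := by omega
      rw [hy1 j hj]
      exact ((hFG _ (heR _)).2 x).2.2 ((hlt ⟨2 * j + 1, hj⟩).1 h1)
    · have hj : 2 * j + 1 < r := by omega
      rw [hy1 j hj]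
      have h2 : (⟨2 * j + 1, hj⟩ : Fin r) = i := Fin.ext h1
      rw [h2]
      exact ((hFG _ (heR _)).2 x).2.1 hi.symm
    · by_cases hj : 2 * j + 1 < r
      · rw [hy1 j hj]
        exact ((hFG _ (heR _)).2 x).1 ((hlt ⟨2 * j + 1, hj⟩).2 h1)
      · rw [hy2 j hj]
        exact fun h2 => h2
  have hMx : ∀ j, (2 * j < i.1 → M j x) ∧ (2 * j = i.1 → (M j x ↔ f x)) ∧
      (i.1 < 2 * j → ¬ M j x) := by
    intro j
    have hir := i.2
    refine ⟨fun h1 => ?_, fun h1 => ?_, fun h1 => ?_⟩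
    · have hj : 2 * j < r := by omega
      rw [hM1 j hj]
      exact ((hFG _ (heR _)).1 x).2.2 ((hlt ⟨2 * j, hj⟩).1 h1)
    · have hj : 2 * j < r := by omega
      rw [hM1 j hj]
      have h2 : (⟨2 * j, hj⟩ : Fin r) = i := Fin.ext h1
      rw [h2]
      exact ((hFG _ (heR _)).1 x).2.1 hi.symm
    · by_cases hj : 2 * j < r
      · rw [hM1 j hj]
        exact ((hFG _ (heR _)).1 x).1 ((hlt ⟨2 * j, hj⟩).2 h1)
      · rw [hM2 j hj]
        exact fun h2 => h2
  have hax : ∀ k, 2 * k ≤ i.1 → a k x := by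
    intro k hk
    cases k with
    | zero =>
      rw [ha0]
      trivial
    | succ k =>
      rw [ha1]
      exact (hyx k).1 (by omega)
  have hax' : ∀ k, i.1 + 1 < 2 * k → ¬ a k x := by
    intro k hk
    cases k with
    | zero => omega
    | succ k =>
      rw [ha1]
      exact (hyx k).2.2 (by omega)
  have hbx' : ∀ k, 2 * k + 1 < i.1 → ¬ b k x := by
    intro k hk h1
    have hir := i.2
    rw [hb1 k (by omega)] at h1
    exact h1 ((hyx k).1 hk)
  have hir := i.2
  rcases Nat.even_or_odd' i.1 with ⟨k, hk | hk⟩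
  · constructor
    · rintro ⟨j, -, h1, h2, h3⟩
      rcases lt_trichotomy j k with h4 | rfl | h4
      · exact absurd h2 (hbx' j (by omega))
      · exact ((hMx j).2.1 hk.symm).1 h3
      · exact absurd h1 (hax' j (by omega))
    · intro h1
      refine ⟨k, by omega, hax k (by omega), ?_, ((hMx k).2.1 hk.symm).2 h1⟩
      by_cases hkd : k < r / 2
      · rw [hb1 k hkd]
        exact (hyx k).2.2 (by omega)
      · rw [hb2 k hkd]
        trivial
  · constructor
    · rintro ⟨j, -, h1, h2, h3⟩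
      rcases lt_trichotomy j k with h4 | rfl | h4
      · exact absurd h2 (hbx' j (by omega))
      · rw [hb1 j (by omega)] at h2
        by_contra h5
        exact h2 (((hyx j).2.1 hk.symm).2 h5)
      · exact absurd h3 ((hMx j).2.2 (by omega))
    · intro h1
      refine ⟨k, by omega, hax k (by omega), ?_, (hMx k).1 (by omega)⟩
      rw [hb1 k (by omega)]
      intro h2
      exact ((hyx k).2.1 hk.symm).1 h2 h1

end Pool.Agent.SliceCircuits
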