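import Mathlib
import Pool.Agent.Lib.MP_0a1b52_lc_SLICE.Upper

/-!
The upper bound for the clique function.
-/

namespace Pool.Agent.SliceCircuits

open Finset Pool.Agent

/-- The graph of an assignment. -/
abbrev graph {n : ℕ} (x : EdgeVar n → Prop) : SimpleGraph (Fin n) := CliqueModules.toGraph x

theorem graph_adj {n : ℕ} (x : EdgeVar n → Prop) :
    (fun e : EdgeVar n => (graph x).Adj e.1.1 e.1.2) = x := by
  funext e
  exact propext (CliqueModules.toGraph_adj x e)

theorem graph_edges {n : ℕ} (G : SimpleGraph (Fin n)) :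
    graph (fun e : EdgeVar n => G.Adj e.1.1 e.1.2) = G := by
  ext u v
  constructor
  · rintro (⟨_, h⟩ | ⟨_, h⟩)
    · exact h
    · exact h.symm
  · intro h
    rcases lt_trichotomy u v with h1 | rfl | h1
    · exact Or.inl ⟨h1, h⟩
    · exact absurd h (G.loopless.irrefl u)
    · exact Or.inr ⟨h1, h.symm⟩

theorem wt_edges {n : ℕ} (G : SimpleGraph (Fin n)) :
    wt (fun e : EdgeVar n => G.Adj e.1.1 e.1.2) = G.edgeSet.ncard := by
  classical
  rw [CliqueModules.ncard_edgeSet]
  unfold wt CliqueModules.edgesOf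
  congr

theorem wt_graph {n : ℕ} (x : EdgeVar n → Prop) : wt x = (graph x).edgeSet.ncard := by
  rw [← wt_edges, graph_adj]

theorem card_var (n : ℕ) : Fintype.card (EdgeVar n) = n.choose 2 := CliqueModules.card_edgeVar n

/-- The Boolean function `CLIQUE_n`. -/
def clq (n : ℕ) : BF (EdgeVar n) := fun x => HasClique (graph x)

theorem correctOn_iff {n s : ℕ} (D : Circuit (EdgeVar n) s) (R : Set ℕ) :
    D.CorrectOn R ↔ ∀ x : EdgeVar n → Prop, wt x ∈ R → (D.Accepts x ↔ clq n x) := by
  constructor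
  · intro h x hx
    have h1 := h (graph x) (by rw [← wt_graph]; exact hx)
    rw [graph_adj] at h1
    exact h1
  · intro h G hG
    have h1 := h (fun e : EdgeVar n => G.Adj e.1.1 e.1.2) (by rw [wt_edges]; exact hG)
    unfold clq at h1
    rw [graph_edges] at h1
    exact h1

theorem wt_le_choose {n : ℕ} (x : EdgeVar n → Prop) : wt x ≤ n.choose 2 := by
  rw [← card_var]
  exact wt_le x

/-- The size bound. -/
theorem size_bound {n s r h N : ℕ} (hs : 1 ≤ s) (hN : N ≤ n * n) (hr : r ≤ N + 1) (hh : h ≤ r) :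
    2 + (N + 1) * (N * (2 * (N + 1 + 1))) + r * (2 * s + 4) +
        (2 * (r / 2) + 1) * h + (r / 2 + 1) + 1 ≤ 100 * (n + s) ^ 6 := by
  set M := (n + s) * (n + s) with hM
  have hM1 : 1 ≤ M := Nat.mul_pos (by omega) (by omega)
  have hX : N + 2 ≤ 2 * M := by
    have : n * n + 1 ≤ M := by
      rw [hM]
      nlinarith
    omega
  have hsM : s ≤ M := by
    rw [hM]
    nlinarith
  have h1 : (N + 1) * (N * (2 * (N + 1 + 1))) ≤ (2 * M) * (2 * M * (2 * (2 * M))) :=
    Nat.mul_le_mul (by omega) (Nat.mul_le_mul (by omega) (by omega))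
  have h2 : r * (2 * s + 4) ≤ (2 * M) * (6 * M) := Nat.mul_le_mul (by omega) (by omega)
  have h3 : (2 * (r / 2) + 1) * h ≤ (2 * M) * (2 * M) := Nat.mul_le_mul (by omega) (by omega)
  have h4 : M ≤ M * M := Nat.le_mul_self M
  have h5 : M * M ≤ M * M * M := Nat.le_mul_of_pos_right _ hM1
  have h6 : (n + s) ^ 6 = M * M * M := by rw [hM]; ring
  rw [h6]
  have e1 : (2 * M) * (2 * M * (2 * (2 * M))) = 16 * (M * M * M) := by ring
  have e2 : (2 * M) * (6 * M) = 12 * (M * M) := by ring
  have e3 : (2 * M) * (2 * M) = 4 * (M * M) := by ring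
  rw [e1] at h1
  rw [e2] at h2
  rw [e3] at h3
  omega

/-- The upper bound: a circuit which is correct on a set `R` of slices can be transformed into one
with `⌊log₂ |R|⌋` NOT gates. -/
theorem upper (n s : ℕ) (D : Circuit (EdgeVar n) s) (R : Finset ℕ) (h : ℕ)
    (hD : D.CorrectOn R) (hR : R.card < 2 ^ (h + 1)) :
    ∃ s' ≤ 100 * (n + s) ^ 6, ∃ D' : Circuit (EdgeVar n) s', D'.numNot ≤ h ∧ D'.CorrectOn R := by
  classical
  have hs : 1 ≤ s := by
    have := D.out.2
    omega
  rw [correctOn_iff] at hD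
  set R' := R.filter fun m => m ≤ n.choose 2 with hR'
  have hsub : R' ⊆ R := filter_subset _ _
  have hcard : R'.card ≤ R.card := card_le_card hsub
  have hcard2 : R'.card ≤ n.choose 2 + 1 := by
    have h1 : R' ⊆ range (n.choose 2 + 1) := by
      intro m hm
      have := (mem_filter.1 hm).2
      exact mem_range.2 (by omega)
    have h2 := card_le_card h1
    rw [card_range] at h2
    exact h2
  have h1 : R'.card < 2 ^ (Nat.log 2 R'.card + 1) := Nat.lt_pow_succ_log_self (by norm_num) _
  have h2 : Nat.log 2 R'.card ≤ h := by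
    rcases Nat.eq_zero_or_pos R'.card with h0 | h0
    · rw [h0]
      simp
    · have h3 : Nat.log 2 R'.card < h + 1 :=
        Nat.log_lt_of_lt_pow (by omega) (lt_of_le_of_lt hcard hR)
      omega
  have h3 : Nat.log 2 R'.card ≤ R'.card := Nat.log_le_self 2 _
  obtain ⟨s', hs', D', hD', hacc⟩ := upper_core D (clq n) R' (Nat.log 2 R'.card) (n.choose 2)
    (card_var n) (fun m hm => (mem_filter.1 hm).2)
    (fun x hx => hD x (mem_coe.2 (hsub hx))) h1
  refine ⟨s', hs'.trans (size_bound hs ?_ hcard2 h3), D', hD'.trans h2, ?_⟩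
  · have := CliqueModules.two_mul_choose_two_le n
    omega
  · rw [correctOn_iff]
    intro x hx
    exact hacc x (mem_filter.2 ⟨mem_coe.1 hx, wt_le_choose x⟩)

end Pool.Agent.SliceCircuits
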