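import Mathlib
import Pool.Agent.Lib.MP_0a1b52_lc_SLICE.UpperClique

/-!
One slice is as hard as everything: a circuit which is correct on one slice of graphs with `n`
vertices gives a circuit for the clique function on `m ≤ √n / 4` vertices.
-/

namespace Pool.Agent.SliceCircuits

open Finset Pool.Agent

section General

variable {V W : Type} {s : ℕ} {T : Set (BF V)}

theorem Reach.family' {ι : Type} (I : Finset ι) (c : ℕ) (Φ : ι → Set (BF V) → Prop)
    (hΦ : ∀ i T₁ T₂, T₁ ⊆ T₂ → Φ i T₁ → Φ i T₂)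
    (step : ∀ i ∈ I, ∀ s T₁, T ⊆ T₁ → Reach s s T₁ →
      ∃ T₂, T₁ ⊆ T₂ ∧ Reach (s + c) (s + c) T₂ ∧ Φ i T₂)
    (hR : Reach s s T) :
    ∃ T₁, T ⊆ T₁ ∧ Reach (s + I.card * c) (s + I.card * c) T₁ ∧ ∀ i ∈ I, Φ i T₁ := by
  classical
  induction I using Finset.induction_on with
  | empty =>
    exact ⟨T, subset_rfl, hR.mono (by simp) (by simp) subset_rfl,
      fun i hi => absurd hi (notMem_empty i)⟩
  | insert a I ha ih =>
    obtain ⟨T₁, h1, h2, h3⟩ := ih fun i hi => step i (mem_insert_of_mem hi)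
    obtain ⟨T₂, h4, h5, h6⟩ := step a (mem_insert_self _ _) _ T₁ h1 h2
    have e1 : s + I.card * c + c = s + (insert a I).card * c := by
      rw [card_insert_of_notMem ha]
      ring
    rw [e1] at h5
    refine ⟨T₂, h1.trans h4, h5, ?_⟩
    intro i hi
    rcases mem_insert.1 hi with rfl | hi
    · exact h6
    · exact hΦ i T₁ T₂ h4 (h3 i hi)

/-- A circuit applied to functions which are already computed. -/
theorem Reach.subst {s₀ : ℕ} (D : Circuit W s₀) (σ : (V → Prop) → (W → Prop))
    (hR : Reach s s T) (hσ : ∀ w : W, (fun x => σ x w) ∈ T) (k : ℕ) :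
    ∃ T₁, T ⊆ T₁ ∧ Reach (s + k) (s + k) T₁ ∧ ∀ i : Fin s₀, i.1 < k → ∃ p ∈ T₁,
      ∀ x val, D.IsEval (σ x) val → (p x ↔ val i) := by
  classical
  induction k with
  | zero => exact ⟨T, subset_rfl, hR, fun i hi => absurd hi (by simp)⟩
  | succ k ih =>
    obtain ⟨T₁, h1, h2, h3⟩ := ih
    by_cases hk : k < s₀
    swap
    · refine ⟨T₁, h1, h2.mono (by omega) (by omega) subset_rfl, fun i hi => h3 i ?_⟩
      have := i.2
      omega
    have hw : ∀ w : W ⊕ Fin s₀, w ∈ (D.gate ⟨k, hk⟩).wires → ∃ p ∈ T₁,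
        ∀ x val, D.IsEval (σ x) val → (p x ↔ Sum.elim (σ x) val w) := by
      intro w hw
      cases w with
      | inl v => exact ⟨_, h1 (hσ v), fun x val _ => Iff.rfl⟩
      | inr j => exact h3 j (D.acyclic _ j hw)
    choose! p hp hpp using hw
    have key : ∃ f : BF V, Reach (s + k + 1) (s + k + 1) (insert f T₁) ∧
        ∀ x val, D.IsEval (σ x) val → (f x ↔ val ⟨k, hk⟩) := by
      cases hg : D.gate ⟨k, hk⟩ with
      | and J =>
        rw [hg] at hp hpp
        refine ⟨fun x => ∀ f ∈ p '' (J : Set (W ⊕ Fin s₀)), f x,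
          (h2.one (Or.inl ⟨_, J.finite_toSet.image p, ?_, rfl⟩)).mono le_rfl (by omega) subset_rfl,
          ?_⟩
        · rintro f ⟨w, hw, rfl⟩
          exact hp w hw
        intro x val hval
        have h4 : val ⟨k, hk⟩ ↔ ∀ w ∈ J, Sum.elim (σ x) val w := by
          have h5 := hval ⟨k, hk⟩
          rw [hg] at h5
          exact h5
        rw [h4]
        constructor
        · exact fun h5 w hw => (hpp w hw x val hval).1 (h5 _ ⟨w, hw, rfl⟩)
        · rintro h5 f ⟨w, hw, rfl⟩
          exact (hpp w hw x val hval).2 (h5 w hw)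
      | or J =>
        rw [hg] at hp hpp
        refine ⟨fun x => ∃ f ∈ p '' (J : Set (W ⊕ Fin s₀)), f x,
          (h2.one (Or.inr ⟨_, J.finite_toSet.image p, ?_, rfl⟩)).mono le_rfl (by omega) subset_rfl,
          ?_⟩
        · rintro f ⟨w, hw, rfl⟩
          exact hp w hw
        intro x val hval
        have h4 : val ⟨k, hk⟩ ↔ ∃ w ∈ J, Sum.elim (σ x) val w := by
          have h5 := hval ⟨k, hk⟩
          rw [hg] at h5
          exact h5
        rw [h4]
        constructor
        · rintro ⟨f, ⟨w, hw, rfl⟩, h5⟩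
          exact ⟨w, hw, (hpp w hw x val hval).1 h5⟩
        · rintro ⟨w, hw, h5⟩
          exact ⟨_, ⟨w, hw, rfl⟩, (hpp w hw x val hval).2 h5⟩
      | not w =>
        rw [hg] at hp hpp
        have hw : w ∈ (Gate.not w : Gate W s₀).wires := mem_singleton_self w
        refine ⟨fun x => ¬ p w x, h2.not (hp w hw), ?_⟩
        intro x val hval
        have h4 : val ⟨k, hk⟩ ↔ ¬ Sum.elim (σ x) val w := by
          have h5 := hval ⟨k, hk⟩
          rw [hg] at h5
          exact h5
        rw [h4, not_iff_not]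
        exact hpp w hw x val hval
    obtain ⟨f, hf, hff⟩ := key
    refine ⟨insert f T₁, h1.trans (Set.subset_insert _ _), hf, ?_⟩
    intro i hi
    rcases Nat.lt_succ_iff_lt_or_eq.1 hi with h4 | h4
    · obtain ⟨q, hq, h5⟩ := h3 i h4
      exact ⟨q, Or.inr hq, h5⟩
    · have h5 : i = ⟨k, hk⟩ := Fin.ext h4
      subst h5
      exact ⟨f, Or.inl rfl, hff⟩

theorem Reach.subst_accepts {s₀ : ℕ} (D : Circuit W s₀) (σ : (V → Prop) → (W → Prop))
    (hR : Reach s s T) (hσ : ∀ w : W, (fun x => σ x w) ∈ T) :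
    ∃ T₁, T ⊆ T₁ ∧ Reach (s + s₀) (s + s₀) T₁ ∧ (fun x => D.Accepts (σ x)) ∈ T₁ := by
  obtain ⟨T₁, h1, h2, h3⟩ := hR.subst D σ hσ s₀
  obtain ⟨p, hp, hpp⟩ := h3 D.out D.out.2
  refine ⟨T₁, h1, h2, ?_⟩
  have h4 : (fun x => D.Accepts (σ x)) = p := by
    funext x
    obtain ⟨val, hval⟩ := D.exists_eval (σ x)
    apply propext
    rw [hpp x val hval]
    constructor
    · rintro ⟨val', h7, h8⟩
      rw [hval.unique h7]
      exact h8
    · exact fun h7 => ⟨val, hval, h7⟩
  rw [h4]
  exact hp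

end General

/-- Some function on every slice: if there are small circuits for functions `g e` which agree with
`f` on the slice `|x| = e`, then there is one for `f`. -/
theorem glue {V : Type} [Fintype V] {N s₀ : ℕ} (hN : Fintype.card V = N) (f : BF V)
    (step : ∀ e ≤ N, ∀ s T, (∀ v : V, (fun x : V → Prop => x v) ∈ T) →
      (fun _ => True : BF V) ∈ T → (fun _ => False : BF V) ∈ T → Reach s s T →
      ∃ T₁, T ⊆ T₁ ∧ Reach (s + s₀) (s + s₀) T₁ ∧ ∃ g ∈ T₁, ∀ x, wt x = e → (g x ↔ f x)) :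
    ∃ s' ≤ 2 + N * (2 * (N + 1 + 1)) + (N + 1) * 1 + (N + 1) * s₀ + (N + 1) + 1,
      ∃ D' : Circuit V s', ∀ x, D'.Accepts x ↔ f x := by
  classical
  have hR1 := (reach_vars (V := V)).one oneGate_true
  have hR2 := hR1.one oneGate_false
  set T2 : Set (BF V) := insert (fun _ => False) (insert (fun _ => True)
    {f : BF V | ∃ v, f = fun x => x v}) with hT2
  have hv2 : ∀ v : V, (fun x : V → Prop => x v) ∈ T2 := fun v => Or.inr (Or.inr ⟨v, rfl⟩)
  have ht2 : (fun _ => True : BF V) ∈ T2 := Or.inr (Or.inl rfl)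
  have hf2 : (fun _ => False : BF V) ∈ T2 := Or.inl rfl
  obtain ⟨T3, h23, hR3, hth⟩ := hR2.thr hv2 ht2 hf2 univ (N + 1)
  have hR3' : Reach (2 + N * (2 * (N + 1 + 1))) (2 + N * (2 * (N + 1 + 1))) T3 := by
    refine hR3.mono ?_ (by omega) subset_rfl
    rw [card_univ, hN]
  obtain ⟨T4, h34, hR4, hng⟩ := Reach.family' (range (N + 1)) 1
    (fun e T => (fun x : V → Prop => ¬ Th univ (e + 1) x) ∈ T)
    (fun i T₁ T₂ h1 h2 => h1 h2)
    (by
      intro e he s T₁ h1 h2
      refine ⟨_, Set.subset_insert _ _, h2.not (h1 (hth (e + 1) ?_)), Or.inl rfl⟩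
      have := mem_range.1 he
      omega) hR3'
  obtain ⟨T5, h45, hR5, hgl⟩ := Reach.family' (range (N + 1)) s₀
    (fun e T => ∃ g ∈ T, ∀ x, wt x = e → (g x ↔ f x))
    (fun i T₁ T₂ h1 ⟨g, hg, h2⟩ => ⟨g, h1 hg, h2⟩)
    (by
      intro e he s T₁ h1 h2
      have := mem_range.1 he
      exact step e (by omega) s T₁ (fun v => h1 (h34 (h23 (hv2 v)))) (h1 (h34 (h23 ht2)))
        (h1 (h34 (h23 hf2))) h2) hR4
  choose! g hg hgf using hgl
  have hR6 := hR5.seq (fun e x => Th univ e x ∧ ¬ Th univ (e + 1) x ∧ g e x) (N + 1)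
    (fun i hi => by
    refine OneGate.mono (T := T5) ?_ Set.subset_union_left
    refine Or.inl ⟨{Th univ i, (fun x => ¬ Th univ (i + 1) x), g i},
      ((Set.finite_singleton _).insert _).insert _, ?_, ?_⟩
    · rintro g' (rfl | rfl | rfl)
      · exact h45 (h34 (hth i (by omega)))
      · exact h45 (hng i (mem_range.2 hi))
      · exact hg i (mem_range.2 hi)
    · funext x
      refine propext ⟨?_, fun h1 => ⟨h1 _ (Or.inl rfl), h1 _ (Or.inr (Or.inl rfl)),
        h1 _ (Or.inr (Or.inr rfl))⟩⟩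
      rintro ⟨h1, h2, h3⟩ g' (rfl | rfl | rfl)
      · exact h1
      · exact h2
      · exact h3)
  obtain ⟨s', hs', D', -, hacc⟩ := hR6.circuit
    (f := fun x => ∃ e < N + 1, Th univ e x ∧ ¬ Th univ (e + 1) x ∧ g e x) (by
      refine Or.inr ⟨{g' | ∃ i < N + 1, g' = fun x => Th univ i x ∧ ¬ Th univ (i + 1) x ∧ g i x},
        ?_, Set.subset_union_right, ?_⟩
      · refine ((range (N + 1)).finite_toSet.image fun i => (fun x => Th univ i x ∧
          ¬ Th univ (i + 1) x ∧ g i x : BF V)).subset ?_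
        rintro g' ⟨i, hi, rfl⟩
        exact ⟨i, mem_coe.2 (mem_range.2 hi), rfl⟩
      · funext x
        refine propext ⟨?_, ?_⟩
        · rintro ⟨k, hk, h1⟩
          exact ⟨_, ⟨k, hk, rfl⟩, h1⟩
        · rintro ⟨g', ⟨k, hk, rfl⟩, h1⟩
          exact ⟨k, hk, h1⟩)
  refine ⟨s', ?_, D', fun x => ?_⟩
  · refine hs'.trans ?_
    rw [card_range]
  rw [hacc]
  have hx : wt x < N + 1 := by
    have := wt_le x
    omega
  constructor
  · rintro ⟨e, he, h1, h2, h3⟩
    rw [Th_univ] at h1 h2
    exact (hgf e (mem_range.2 he) x (by omega)).1 h3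
  · intro h1
    refine ⟨wt x, hx, (Th_univ _ _).2 le_rfl, ?_, (hgf _ (mem_range.2 hx) x rfl).2 h1⟩
    rw [Th_univ]
    omega

theorem self_params (n m : ℕ) (hu16 : 16 ≤ Nat.sqrt n) (hm : 4 * m ≤ Nat.sqrt n) :
    ∃ t : ℕ, m ≤ n ∧ 1 ≤ t ∧ m + t ≤ n ∧ Nat.sqrt n = Nat.sqrt m + t ∧ m.choose 2 + 1 ≤ n ∧
      (m + t).choose 2 ≤ n ∧
      ∀ a, a + n * Nat.sqrt n ≤ n.choose 2 → a ≤ (CliqueModules.outMax m n t).card := by
  set u := Nat.sqrt n with hu
  have hu1 : u * u ≤ n := Nat.sqrt_le n
  have hu2 : n ≤ u * u + u + u := Nat.sqrt_le_add n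
  have huu : 16 * u ≤ u * u := Nat.mul_le_mul_right u hu16
  set w := Nat.sqrt m with hw
  have hwm : w ≤ m := Nat.sqrt_le_self m
  have hm2 := CliqueModules.two_mul_choose_two_le m
  have hmm : 16 * (m * m) ≤ u * u := by
    calc 16 * (m * m) = (4 * m) * (4 * m) := by ring
      _ ≤ u * u := Nat.mul_le_mul hm hm
  refine ⟨u - w, by omega, by omega, by omega, by omega, by omega, ?_, ?_⟩
  · set t := u - w with ht
    have h1 := CliqueModules.two_mul_choose_two_le (m + t)
    have h2 : 4 * (m + t) ≤ 5 * u := by omega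
    have h3 : 16 * ((m + t) * (m + t)) ≤ 25 * (u * u) := by
      calc 16 * ((m + t) * (m + t)) = (4 * (m + t)) * (4 * (m + t)) := by ring
        _ ≤ (5 * u) * (5 * u) := Nat.mul_le_mul h2 h2
        _ = 25 * (u * u) := by ring
    omega
  · intro a ha
    set t := u - w with ht
    by_contra hcon
    have h1 := CliqueModules.card_outMax (n0 := m) (n := n) (by omega) (t := t) (by omega)
    set O := (CliqueModules.outMax m n t).card with hO
    set c0 := m.choose 2 with hc0
    have h6 : (n - m) ^ 2 ≤ n * n := by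
      rw [pow_two]
      exact Nat.mul_le_mul (Nat.sub_le _ _) (Nat.sub_le _ _)
    have hn0 : 0 < n := by omega
    have h7 : 2 * t * (O + 1 + n * u) ≤ 2 * t * (O + n) + n * n := by
      calc 2 * t * (O + 1 + n * u) ≤ 2 * t * n.choose 2 := Nat.mul_le_mul_left _ (by omega)
        _ ≤ 2 * t * (O + c0) + (n - m) ^ 2 := h1
        _ ≤ 2 * t * (O + n) + n * n :=
            Nat.add_le_add (Nat.mul_le_mul_left _ (by omega)) h6
    have h8 : 2 * t * (n * u) ≤ 2 * t * n + n * n := by
      have e1 : 2 * t * (O + 1 + n * u) = 2 * t * (n * u) + 2 * t * (O + 1) := by ring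
      have e2 : 2 * t * (O + n) = 2 * t * n + 2 * t * O := by ring
      have e3 : 2 * t * O ≤ 2 * t * (O + 1) := Nat.mul_le_mul_left _ (by omega)
      omega
    have h9 : 2 * t * u ≤ 2 * t + n := by
      have e1 : n * (2 * t * u) ≤ n * (2 * t + n) := by
        calc n * (2 * t * u) = 2 * t * (n * u) := by ring
          _ ≤ 2 * t * n + n * n := h8
          _ = n * (2 * t + n) := by ring
      exact Nat.le_of_mul_le_mul_left e1 hn0
    have h10 : 3 * u ≤ 4 * t := by omega
    have h11 : 3 * u * u ≤ 4 * t * u := Nat.mul_le_mul_right _ h10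
    have h12 : 4 * t * u = 2 * (2 * t * u) := by ring
    have h14 : 3 * u * u = 3 * (u * u) := by ring
    omega

/-- A circuit which is correct on one slice gives a circuit for the clique function on fewer
vertices. -/
theorem self_reduction (n s : ℕ) (D : Circuit (EdgeVar n) s) (a m : ℕ) (hu : 16 ≤ Nat.sqrt n)
    (hm : 4 * m ≤ Nat.sqrt n) (h1 : n ≤ a) (h2 : a + n * Nat.sqrt n ≤ n.choose 2)
    (hD : D.CorrectOn {a}) :
    ∃ s' ≤ 10 * (n + s) ^ 2, ∃ D' : Circuit (EdgeVar m) s', D'.CorrectOn Set.univ := by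
  classical
  have hs : 1 ≤ s := by
    have := D.out.2
    omega
  obtain ⟨t, hmn, ht, hmt, hsq, hmn', hlo, hhi⟩ := self_params n m hu hm
  have hmin := CliqueModules.card_outMin (n0 := m) (n := n) (t := t) hmt
  have hmax := hhi a h2
  obtain ⟨s', hs', D', hD'⟩ := glue (s₀ := s) (card_var m) (clq m) (by
    intro e he s₁ T hv ht' hf' hR
    obtain ⟨Fo, hF1, hF2, hF3⟩ : ∃ Fo : Finset (CliqueModules.EdgeVar n),
        CliqueModules.outMin m n t ⊆ Fo ∧ Fo ⊆ CliqueModules.outMax m n t ∧ Fo.card = a - e :=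
      exists_subsuperset_card_eq (CliqueModules.outMin_subset m n t) (by omega) (by omega)
    obtain ⟨T₁, h3, h4, h5⟩ := hR.subst_accepts D
      (fun x => CliqueModules.lift (CliqueModules.padProj m Fo) (graph x)) (by
        intro w
        show (fun x => CliqueModules.lift (CliqueModules.padProj m Fo) (graph x) w) ∈ T
        cases hw : CliqueModules.padProj m Fo w with
        | inl e' =>
          have h6 : (fun x : EdgeVar m → Prop =>
              CliqueModules.lift (CliqueModules.padProj m Fo) (graph x) w) = fun x => x e' := by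
            funext x
            unfold CliqueModules.lift
            rw [hw]
            exact propext (CliqueModules.toGraph_adj x e')
          rw [h6]
          exact hv e'
        | inr p =>
          have h6 : (fun x : EdgeVar m → Prop =>
              CliqueModules.lift (CliqueModules.padProj m Fo) (graph x) w) = fun _ => p := by
            funext x
            unfold CliqueModules.lift
            rw [hw]
            rfl
          rw [h6]
          by_cases hp : p
          · simp only [hp]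
            exact ht'
          · simp only [hp]
            exact hf')
    refine ⟨T₁, h3, h4, _, h5, fun x hx => ?_⟩
    have h6 : (CliqueModules.pad Fo (graph x)).edgeSet.ncard = a := by
      rw [CliqueModules.card_pad hmn Fo, ← CliqueModules.ncard_edgeSet, ← wt_graph, hx, hF3]
      · omega
      · intro e' he'
        exact (mem_filter.1 (hF2 he')).2.1
    have h7 := hD (CliqueModules.pad Fo (graph x)) h6
    rw [CliqueModules.pad_asg] at h7
    refine h7.trans ?_
    exact CliqueModules.hasClique_pad hmn ht hmt hsq Fo hF1 hF2 (graph x))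
  refine ⟨s', hs'.trans ?_, D', ?_⟩
  · set N := m.choose 2 with hN
    set P := n + s with hP
    have h3 : N * (2 * (N + 1 + 1)) ≤ P * (4 * P) := Nat.mul_le_mul (by omega) (by omega)
    have h4 : (N + 1) * s ≤ P * P := Nat.mul_le_mul (by omega) (by omega)
    have h5 : P ≤ P * P := Nat.le_mul_self P
    have h6 : 10 * P ^ 2 = 10 * (P * P) := by ring
    have h7 : P * (4 * P) = 4 * (P * P) := by ring
    have h8 : 1 ≤ P := by omega
    rw [h6]
    rw [h7] at h3
    omega
  · rw [correctOn_iff]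
    intro x _
    exact hD' x

end Pool.Agent.SliceCircuits
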