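import Mathlib
import Pool.Agent.Lib.MP_0a1b52_lc_MOD.Eval
import Pool.Agent.Lib.MP_0a1b52_lc_SLICE.Self

/-!
Conversion between circuits with NOT gates and unbounded fan-in and circuits with binary AND gates
and OR gates over literals.
-/

namespace Pool.Agent.SliceCircuits

open Finset

/-- Circuits with binary AND gates and OR gates over literals. -/
structure Pre2 (V : Type) (s : ℕ) where
  op : Fin s → Bool
  a : Fin s → (V × Bool) ⊕ Fin s
  b : Fin s → (V × Bool) ⊕ Fin s
  acyclic : ∀ i j : Fin s, (a i = Sum.inr j → j < i) ∧ (b i = Sum.inr j → j < i)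

variable {V : Type} {s : ℕ} {T : Set (BF V)}

/-- The value of a wire. -/
def wv (x : V → Prop) (val : Fin s → Prop) : (V × Bool) ⊕ Fin s → Prop :=
  Sum.elim (fun l => (x l.1 ↔ l.2 = true)) val

def Pre2.IsEval (P : Pre2 V s) (x : V → Prop) (val : Fin s → Prop) : Prop :=
  ∀ i, val i ↔ (if P.op i = true then (wv x val (P.a i) ∧ wv x val (P.b i))
    else (wv x val (P.a i) ∨ wv x val (P.b i)))

def Pre2.Computes (P : Pre2 V s) (f : BF V) : Prop :=
  ∃ w, ∀ x val, P.IsEval x val → (wv x val w ↔ f x)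

theorem wv_congr {x : V → Prop} {val val' : Fin s → Prop} {w : (V × Bool) ⊕ Fin s} {i : Fin s}
    (h1 : ∀ j, j < i → val j = val' j) (h2 : ∀ j, w = Sum.inr j → j < i) :
    wv x val w = wv x val' w := by
  cases w with
  | inl l => rfl
  | inr j => exact h1 j (h2 j rfl)

theorem Pre2.exists_eval (P : Pre2 V s) (x : V → Prop) : ∃ val, P.IsEval x val := by
  obtain ⟨f, hf⟩ := CliqueModules.exists_rec (α := Prop)
    (fun i val => (if P.op i = true then (wv x val (P.a i) ∧ wv x val (P.b i))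
      else (wv x val (P.a i) ∨ wv x val (P.b i)))) (by
      intro i f g hfg
      have h1 : wv x f (P.a i) = wv x g (P.a i) := wv_congr hfg fun j => (P.acyclic i j).1
      have h2 : wv x f (P.b i) = wv x g (P.b i) := wv_congr hfg fun j => (P.acyclic i j).2
      simp only [h1, h2])
  exact ⟨f, fun i => by
    have := hf i
    exact iff_of_eq this⟩

/-- All functions in `T` are computed by one circuit with at most `s` gates. -/
def FReach (s : ℕ) (T : Set (BF V)) : Prop := ∃ s' ≤ s, ∃ P : Pre2 V s', ∀ f ∈ T, P.Computes f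

theorem FReach.mono (hR : FReach s T) {s' : ℕ} {T' : Set (BF V)} (hs : s ≤ s') (hT : T' ⊆ T) :
    FReach s' T' := by
  obtain ⟨t, ht, P, hc⟩ := hR
  exact ⟨t, ht.trans hs, P, fun f hf => hc f (hT hf)⟩

theorem freach_lits :
    FReach 0 {f : BF V | ∃ v, f = (fun x => x v) ∨ f = fun x => ¬ x v} := by
  refine ⟨0, le_rfl, ⟨fun i => i.elim0, fun i => i.elim0, fun i => i.elim0, fun i => i.elim0⟩, ?_⟩
  rintro f ⟨v, rfl | rfl⟩
  · refine ⟨Sum.inl (v, true), fun x val _ => ?_⟩
    show (x v ↔ true = true) ↔ x v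
    simp
  · refine ⟨Sum.inl (v, false), fun x val _ => ?_⟩
    show (x v ↔ false = true) ↔ ¬ x v
    simp

def up2 (w : (V × Bool) ⊕ Fin s) : (V × Bool) ⊕ Fin (s + 1) := Sum.map id Fin.castSucc w

theorem wv_up2 (x : V → Prop) (val : Fin (s + 1) → Prop) (w : (V × Bool) ⊕ Fin s) :
    wv x val (up2 w) = wv x (fun i => val i.castSucc) w := by
  cases w <;> rfl

theorem up2_inr {w : (V × Bool) ⊕ Fin s} {j : Fin (s + 1)} (h : up2 w = Sum.inr j) :
    ∃ j', w = Sum.inr j' ∧ j'.castSucc = j := by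
  cases w with
  | inl l => exact absurd h (by simp [up2])
  | inr k => exact ⟨k, rfl, Sum.inr.inj h⟩

/-- Add a gate at the end. -/
def Pre2.snoc (P : Pre2 V s) (o : Bool) (wa wb : (V × Bool) ⊕ Fin s) : Pre2 V (s + 1) where
  op := Fin.snoc (α := fun _ => Bool) P.op o
  a := Fin.snoc (α := fun _ => (V × Bool) ⊕ Fin (s + 1)) (fun i => up2 (P.a i)) (up2 wa)
  b := Fin.snoc (α := fun _ => (V × Bool) ⊕ Fin (s + 1)) (fun i => up2 (P.b i)) (up2 wb)
  acyclic := by
    intro i
    refine Fin.lastCases ?_ (fun i => ?_) i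
    · intro j
      rw [Fin.snoc_last, Fin.snoc_last]
      constructor
      · intro h
        obtain ⟨k, -, rfl⟩ := up2_inr h
        exact Fin.castSucc_lt_last k
      · intro h
        obtain ⟨k, -, rfl⟩ := up2_inr h
        exact Fin.castSucc_lt_last k
    · intro j
      rw [Fin.snoc_castSucc, Fin.snoc_castSucc]
      constructor
      · intro h
        obtain ⟨k, hk, rfl⟩ := up2_inr h
        exact Fin.castSucc_lt_castSucc_iff.2 ((P.acyclic i k).1 hk)
      · intro h
        obtain ⟨k, hk, rfl⟩ := up2_inr h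
        exact Fin.castSucc_lt_castSucc_iff.2 ((P.acyclic i k).2 hk)

theorem Pre2.snoc_op_castSucc (P : Pre2 V s) (o : Bool) (wa wb : (V × Bool) ⊕ Fin s) (i : Fin s) :
    (P.snoc o wa wb).op i.castSucc = P.op i := by
  show Fin.snoc (α := fun _ => Bool) P.op o i.castSucc = _
  rw [Fin.snoc_castSucc]

theorem Pre2.snoc_op_last (P : Pre2 V s) (o : Bool) (wa wb : (V × Bool) ⊕ Fin s) :
    (P.snoc o wa wb).op (Fin.last s) = o := by
  show Fin.snoc (α := fun _ => Bool) P.op o (Fin.last s) = _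
  rw [Fin.snoc_last]

theorem Pre2.snoc_a_castSucc (P : Pre2 V s) (o : Bool) (wa wb : (V × Bool) ⊕ Fin s) (i : Fin s) :
    (P.snoc o wa wb).a i.castSucc = up2 (P.a i) := by
  show Fin.snoc (α := fun _ => (V × Bool) ⊕ Fin (s + 1)) (fun i => up2 (P.a i)) (up2 wa)
    i.castSucc = _
  rw [Fin.snoc_castSucc]

theorem Pre2.snoc_a_last (P : Pre2 V s) (o : Bool) (wa wb : (V × Bool) ⊕ Fin s) :
    (P.snoc o wa wb).a (Fin.last s) = up2 wa := by
  show Fin.snoc (α := fun _ => (V × Bool) ⊕ Fin (s + 1)) (fun i => up2 (P.a i)) (up2 wa)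
    (Fin.last s) = _
  rw [Fin.snoc_last]

theorem Pre2.snoc_b_castSucc (P : Pre2 V s) (o : Bool) (wa wb : (V × Bool) ⊕ Fin s) (i : Fin s) :
    (P.snoc o wa wb).b i.castSucc = up2 (P.b i) := by
  show Fin.snoc (α := fun _ => (V × Bool) ⊕ Fin (s + 1)) (fun i => up2 (P.b i)) (up2 wb)
    i.castSucc = _
  rw [Fin.snoc_castSucc]

theorem Pre2.snoc_b_last (P : Pre2 V s) (o : Bool) (wa wb : (V × Bool) ⊕ Fin s) :
    (P.snoc o wa wb).b (Fin.last s) = up2 wb := by
  show Fin.snoc (α := fun _ => (V × Bool) ⊕ Fin (s + 1)) (fun i => up2 (P.b i)) (up2 wb)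
    (Fin.last s) = _
  rw [Fin.snoc_last]

theorem Pre2.snoc_isEval {P : Pre2 V s} {o : Bool} {wa wb : (V × Bool) ⊕ Fin s} {x : V → Prop}
    {val : Fin (s + 1) → Prop} (h : (P.snoc o wa wb).IsEval x val) :
    P.IsEval x (fun i => val i.castSucc) ∧ (val (Fin.last s) ↔
      (if o = true then (wv x (fun i => val i.castSucc) wa ∧ wv x (fun i => val i.castSucc) wb)
        else (wv x (fun i => val i.castSucc) wa ∨ wv x (fun i => val i.castSucc) wb))) := by
  refine ⟨fun i => ?_, ?_⟩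
  · have h1 := h i.castSucc
    rw [P.snoc_op_castSucc, P.snoc_a_castSucc, P.snoc_b_castSucc, wv_up2, wv_up2] at h1
    exact h1
  · have h1 := h (Fin.last s)
    rw [P.snoc_op_last, P.snoc_a_last, P.snoc_b_last, wv_up2, wv_up2] at h1
    exact h1

theorem Pre2.snoc_computes {P : Pre2 V s} {o : Bool} {wa wb : (V × Bool) ⊕ Fin s} {f : BF V}
    (hf : P.Computes f) : (P.snoc o wa wb).Computes f := by
  obtain ⟨w, hw⟩ := hf
  refine ⟨up2 w, fun x val hval => ?_⟩
  rw [wv_up2]
  exact hw x _ (Pre2.snoc_isEval hval).1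

theorem FReach.and (hR : FReach s T) {f g : BF V} (hf : f ∈ T) (hg : g ∈ T) :
    FReach (s + 1) (insert (fun x => f x ∧ g x) T) := by
  obtain ⟨s', hs, P, hc⟩ := hR
  obtain ⟨wa, hwa⟩ := hc f hf
  obtain ⟨wb, hwb⟩ := hc g hg
  refine ⟨s' + 1, by omega, P.snoc true wa wb, ?_⟩
  intro f' hf'
  rcases Set.mem_insert_iff.1 hf' with rfl | hf'
  · refine ⟨Sum.inr (Fin.last s'), fun x val hv => ?_⟩
    obtain ⟨h1, h2⟩ := Pre2.snoc_isEval hv
    refine Iff.trans h2 ?_
    rw [if_pos rfl, hwa x _ h1, hwb x _ h1]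
  · exact Pre2.snoc_computes (hc f' hf')

theorem FReach.or (hR : FReach s T) {f g : BF V} (hf : f ∈ T) (hg : g ∈ T) :
    FReach (s + 1) (insert (fun x => f x ∨ g x) T) := by
  obtain ⟨s', hs, P, hc⟩ := hR
  obtain ⟨wa, hwa⟩ := hc f hf
  obtain ⟨wb, hwb⟩ := hc g hg
  refine ⟨s' + 1, by omega, P.snoc false wa wb, ?_⟩
  intro f' hf'
  rcases Set.mem_insert_iff.1 hf' with rfl | hf'
  · refine ⟨Sum.inr (Fin.last s'), fun x val hv => ?_⟩
    obtain ⟨h1, h2⟩ := Pre2.snoc_isEval hv
    refine Iff.trans h2 ?_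
    rw [if_neg (by simp), hwa x _ h1, hwb x _ h1]
  · exact Pre2.snoc_computes (hc f' hf')

theorem FReach.bigand {ι : Type} (J : Finset ι) (p : ι → BF V) (hR : FReach s T)
    (hp : ∀ i ∈ J, p i ∈ T) (ht : (fun _ => True) ∈ T) :
    ∃ T₁, T ⊆ T₁ ∧ FReach (s + J.card) T₁ ∧ (fun x => ∀ i ∈ J, p i x) ∈ T₁ := by
  classical
  induction J using Finset.induction_on with
  | empty =>
    refine ⟨T, subset_rfl, hR.mono (by simp) subset_rfl, ?_⟩
    have : (fun x => ∀ i ∈ (∅ : Finset ι), p i x) = fun _ => True := by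
      funext x
      simp
    rw [this]
    exact ht
  | insert a J ha ih =>
    obtain ⟨T₁, h1, h2, h3⟩ := ih fun i hi => hp i (mem_insert_of_mem hi)
    have h4 := h2.and (h1 (hp a (mem_insert_self _ _))) h3
    refine ⟨_, h1.trans (Set.subset_insert _ _), h4.mono ?_ subset_rfl, ?_⟩
    · rw [card_insert_of_notMem ha]
      omega
    · have : (fun x => ∀ i ∈ insert a J, p i x) = fun x => p a x ∧ ∀ i ∈ J, p i x := by
        funext x
        rw [forall_mem_insert]
      rw [this]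
      exact Or.inl rfl

theorem FReach.bigor {ι : Type} (J : Finset ι) (p : ι → BF V) (hR : FReach s T)
    (hp : ∀ i ∈ J, p i ∈ T) (hf : (fun _ => False) ∈ T) :
    ∃ T₁, T ⊆ T₁ ∧ FReach (s + J.card) T₁ ∧ (fun x => ∃ i ∈ J, p i x) ∈ T₁ := by
  classical
  induction J using Finset.induction_on with
  | empty =>
    refine ⟨T, subset_rfl, hR.mono (by simp) subset_rfl, ?_⟩
    have : (fun x => ∃ i ∈ (∅ : Finset ι), p i x) = fun _ => False := by
      funext x
      simp
    rw [this]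
    exact hf
  | insert a J ha ih =>
    obtain ⟨T₁, h1, h2, h3⟩ := ih fun i hi => hp i (mem_insert_of_mem hi)
    have h4 := h2.or (h1 (hp a (mem_insert_self _ _))) h3
    refine ⟨_, h1.trans (Set.subset_insert _ _), h4.mono ?_ subset_rfl, ?_⟩
    · rw [card_insert_of_notMem ha]
      omega
    · have : (fun x => ∃ i ∈ insert a J, p i x) = fun x => p a x ∨ ∃ i ∈ J, p i x := by
        funext x
        rw [exists_mem_insert]
      rw [this]
      exact Or.inl rfl

/-- De Morgan. -/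
theorem FReach.rail [Fintype V] {s₀ : ℕ} (D : Circuit V s₀) (hR : FReach s T)
    (hv : ∀ v, (fun x => x v) ∈ T) (hn : ∀ v, (fun x => ¬ x v) ∈ T)
    (ht : (fun _ => True) ∈ T) (hf : (fun _ => False) ∈ T) (k : ℕ) :
    ∃ T₁, T ⊆ T₁ ∧ FReach (s + k * (2 * (Fintype.card V + s₀))) T₁ ∧
      ∀ i : Fin s₀, i.1 < k → ∃ p ∈ T₁, ∃ q ∈ T₁,
        ∀ x val, D.IsEval x val → (p x ↔ val i) ∧ (q x ↔ ¬ val i) := by
  classical
  induction k with
  | zero => exact ⟨T, subset_rfl, hR.mono (by simp) subset_rfl, fun i hi => absurd hi (by simp)⟩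
  | succ k ih =>
    obtain ⟨T₁, h1, h2, h3⟩ := ih
    have hcost : ∀ J : Finset (V ⊕ Fin s₀), J.card ≤ Fintype.card V + s₀ := by
      intro J
      have h4 := card_le_univ J
      rwa [Fintype.card_sum, Fintype.card_fin] at h4
    by_cases hk : k < s₀
    swap
    · refine ⟨T₁, h1, h2.mono ?_ subset_rfl, fun i hi => h3 i ?_⟩
      · exact Nat.add_le_add_left (Nat.mul_le_mul_right _ (by omega)) s
      · have := i.2
        omega
    have hw : ∀ w : V ⊕ Fin s₀, w ∈ (D.gate ⟨k, hk⟩).wires → ∃ p ∈ T₁, ∃ q ∈ T₁,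
        ∀ x val, D.IsEval x val →
          (p x ↔ Sum.elim x val w) ∧ (q x ↔ ¬ Sum.elim x val w) := by
      intro w hw
      cases w with
      | inl v => exact ⟨_, h1 (hv v), _, h1 (hn v), fun x val _ => ⟨Iff.rfl, Iff.rfl⟩⟩
      | inr j => exact h3 j (D.acyclic _ j hw)
    choose! p hp q hq hpq using hw
    have key : ∃ T₂, T₁ ⊆ T₂ ∧ FReach (s + (k + 1) * (2 * (Fintype.card V + s₀))) T₂ ∧
        ∃ f ∈ T₂, ∃ g ∈ T₂,
        ∀ x val, D.IsEval x val → (f x ↔ val ⟨k, hk⟩) ∧ (g x ↔ ¬ val ⟨k, hk⟩) := by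
      cases hg : D.gate ⟨k, hk⟩ with
      | and J =>
        rw [hg] at hp hq hpq
        obtain ⟨T₂, h4, h5, h6⟩ := h2.bigand J p hp (h1 ht)
        obtain ⟨T₃, h7, h8, h9⟩ := h5.bigor J q (fun w hw => h4 (hq w hw)) (h4 (h1 hf))
        refine ⟨T₃, h4.trans h7, h8.mono ?_ subset_rfl, _, h7 h6, _, h9, ?_⟩
        · have := hcost J
          calc s + k * (2 * (Fintype.card V + s₀)) + J.card + J.card
              = s + k * (2 * (Fintype.card V + s₀)) + 2 * J.card := by ring
            _ ≤ s + k * (2 * (Fintype.card V + s₀)) + 2 * (Fintype.card V + s₀) := by omega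
            _ = s + (k + 1) * (2 * (Fintype.card V + s₀)) := by ring
        intro x val hval
        have h4 : val ⟨k, hk⟩ ↔ ∀ w ∈ J, Sum.elim x val w := by
          have h5 := hval ⟨k, hk⟩
          rw [hg] at h5
          exact h5
        rw [h4]
        constructor
        · exact ⟨fun h5 w hw => (hpq w hw x val hval).1.1 (h5 w hw),
            fun h5 w hw => (hpq w hw x val hval).1.2 (h5 w hw)⟩
        · constructor
          · rintro ⟨w, hw, h5⟩ h6
            exact (hpq w hw x val hval).2.1 h5 (h6 w hw)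
          · intro h5
            push Not at h5
            obtain ⟨w, hw, h6⟩ := h5
            exact ⟨w, hw, (hpq w hw x val hval).2.2 h6⟩
      | or J =>
        rw [hg] at hp hq hpq
        obtain ⟨T₂, h4, h5, h6⟩ := h2.bigor J p hp (h1 hf)
        obtain ⟨T₃, h7, h8, h9⟩ := h5.bigand J q (fun w hw => h4 (hq w hw)) (h4 (h1 ht))
        refine ⟨T₃, h4.trans h7, h8.mono ?_ subset_rfl, _, h7 h6, _, h9, ?_⟩
        · have := hcost J
          calc s + k * (2 * (Fintype.card V + s₀)) + J.card + J.card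
              = s + k * (2 * (Fintype.card V + s₀)) + 2 * J.card := by ring
            _ ≤ s + k * (2 * (Fintype.card V + s₀)) + 2 * (Fintype.card V + s₀) := by omega
            _ = s + (k + 1) * (2 * (Fintype.card V + s₀)) := by ring
        intro x val hval
        have h4 : val ⟨k, hk⟩ ↔ ∃ w ∈ J, Sum.elim x val w := by
          have h5 := hval ⟨k, hk⟩
          rw [hg] at h5
          exact h5
        rw [h4]
        constructor
        · constructor
          · rintro ⟨w, hw, h5⟩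
            exact ⟨w, hw, (hpq w hw x val hval).1.1 h5⟩
          · rintro ⟨w, hw, h5⟩
            exact ⟨w, hw, (hpq w hw x val hval).1.2 h5⟩
        · constructor
          · rintro h5 ⟨w, hw, h6⟩
            exact (hpq w hw x val hval).2.1 (h5 w hw) h6
          · rintro h5 w hw
            exact (hpq w hw x val hval).2.2 fun h6 => h5 ⟨w, hw, h6⟩
      | not w =>
        rw [hg] at hp hq hpq
        have hw : w ∈ (Gate.not w : Gate V s₀).wires := mem_singleton_self w
        refine ⟨T₁, subset_rfl, h2.mono ?_ subset_rfl, q w, hq w hw, p w, hp w hw, ?_⟩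
        · exact Nat.add_le_add_left (Nat.mul_le_mul_right _ (by omega)) s
        intro x val hval
        have h4 : val ⟨k, hk⟩ ↔ ¬ Sum.elim x val w := by
          have h5 := hval ⟨k, hk⟩
          rw [hg] at h5
          exact h5
        rw [h4, not_not]
        exact ⟨(hpq w hw x val hval).2, (hpq w hw x val hval).1⟩
    obtain ⟨T₂, h4, h5, f, hf', g, hg', hfg⟩ := key
    refine ⟨T₂, h1.trans h4, h5, ?_⟩
    intro i hi
    rcases Nat.lt_succ_iff_lt_or_eq.1 hi with h6 | h6
    · obtain ⟨p, hp, q, hq, h7⟩ := h3 i h6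
      exact ⟨p, h4 hp, q, h4 hq, h7⟩
    · have h7 : i = ⟨k, hk⟩ := Fin.ext h6
      subst h7
      exact ⟨f, hf', g, hg', hfg⟩

/-- From circuits with NOT gates to circuits over literals. -/
theorem to_fan2 [Fintype V] [Nonempty V] {s₀ : ℕ} (D : Circuit V s₀) :
    ∃ s' ≤ 2 + s₀ * (2 * (Fintype.card V + s₀)) + 1, ∃ (P : Pre2 V s') (o : Fin s'),
      ∀ x val, P.IsEval x val → (val o ↔ D.Accepts x) := by
  classical
  obtain ⟨v₀⟩ := ‹Nonempty V›
  have h0 : FReach 2 (insert (fun _ => True) (insert (fun _ => False)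
      {f : BF V | ∃ v, f = (fun x => x v) ∨ f = fun x => ¬ x v})) := by
    have h1 := (freach_lits (V := V)).and (f := fun x => x v₀) (g := fun x => ¬ x v₀)
      ⟨v₀, Or.inl rfl⟩ ⟨v₀, Or.inr rfl⟩
    have e1 : (fun x : V → Prop => x v₀ ∧ ¬ x v₀) = fun _ => False := by
      funext x
      simp
    rw [e1] at h1
    have h2 := h1.or (f := fun x => x v₀) (g := fun x => ¬ x v₀)
      (Or.inr ⟨v₀, Or.inl rfl⟩) (Or.inr ⟨v₀, Or.inr rfl⟩)
    have e2 : (fun x : V → Prop => x v₀ ∨ ¬ x v₀) = fun _ => True := by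
      funext x
      simp [em]
    rw [e2] at h2
    exact h2
  obtain ⟨T₁, h1, h2, h3⟩ := h0.rail D (fun v => Or.inr (Or.inr ⟨v, Or.inl rfl⟩))
    (fun v => Or.inr (Or.inr ⟨v, Or.inr rfl⟩)) (Or.inl rfl) (Or.inr (Or.inl rfl)) s₀
  obtain ⟨p, hp, q, hq, hpq⟩ := h3 D.out D.out.2
  obtain ⟨s', hs', P, hP⟩ := h2
  obtain ⟨w, hw⟩ := hP p hp
  refine ⟨s' + 1, by omega, P.snoc true w w, Fin.last s', fun x val hval => ?_⟩
  obtain ⟨h4, h5⟩ := Pre2.snoc_isEval hval
  rw [h5, if_pos rfl, and_self, hw x _ h4]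
  obtain ⟨val', hval'⟩ := D.exists_eval x
  rw [(hpq x val' hval').1]
  constructor
  · exact fun h7 => ⟨val', hval', h7⟩
  · rintro ⟨val'', h7, h8⟩
    rw [hval'.unique h7]
    exact h8

/-- From circuits over literals to circuits with NOT gates. -/
theorem of_fan2 [Fintype V] (P : Pre2 V s) (o : Fin s) (f : BF V)
    (hf : ∀ x, ∃ val, P.IsEval x val ∧ (val o ↔ f x)) :
    ∃ s' ≤ Fintype.card V * 1 + s + 1, ∃ D : Circuit V s', ∀ x, D.Accepts x ↔ f x := by
  classical
  obtain ⟨T₁, h1, h2, h3⟩ := Reach.family' (univ : Finset V) 1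
    (fun v T => (fun x : V → Prop => ¬ x v) ∈ T) (fun v T₁ T₂ h1 h2 => h1 h2)
    (by
      intro v _ s T₁ h1 h2
      exact ⟨_, Set.subset_insert _ _, h2.not (h1 ⟨v, rfl⟩), Or.inl rfl⟩) (reach_vars (V := V))
  rw [card_univ, Nat.zero_add] at h2
  have key : ∀ k : ℕ, ∃ T₂, T₁ ⊆ T₂ ∧
      Reach (Fintype.card V * 1 + k) (Fintype.card V * 1 + k) T₂ ∧
      ∀ i : Fin s, i.1 < k → ∃ p ∈ T₂, ∀ x val, P.IsEval x val → (p x ↔ val i) := by
    intro k
    induction k with
    | zero => exact ⟨T₁, subset_rfl, h2, fun i hi => absurd hi (by simp)⟩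
    | succ k ih =>
      obtain ⟨T₂, h4, h5, h6⟩ := ih
      by_cases hk : k < s
      swap
      · refine ⟨T₂, h4, h5.mono (by omega) (by omega) subset_rfl, fun i hi => h6 i ?_⟩
        have := i.2
        omega
      have hw : ∀ w : (V × Bool) ⊕ Fin s, (∀ j, w = Sum.inr j → j < (⟨k, hk⟩ : Fin s)) →
          ∃ p ∈ T₂, ∀ x val, P.IsEval x val → (p x ↔ wv x val w) := by
        intro w hw
        rcases w with ⟨v, t⟩ | j
        · cases t with
          | true =>
            refine ⟨_, h4 (h1 ⟨v, rfl⟩), fun x val _ => ?_⟩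
            show x v ↔ (x v ↔ true = true)
            simp
          | false =>
            refine ⟨_, h4 (h3 v (mem_univ v)), fun x val _ => ?_⟩
            show ¬ x v ↔ (x v ↔ false = true)
            simp
        · exact h6 j (hw j rfl)
      obtain ⟨p, hp, hpa⟩ := hw (P.a ⟨k, hk⟩) fun j hj => (P.acyclic _ j).1 hj
      obtain ⟨q, hq, hqb⟩ := hw (P.b ⟨k, hk⟩) fun j hj => (P.acyclic _ j).2 hj
      have hnew : ∃ g : BF V, OneGate T₂ g ∧ ∀ x val, P.IsEval x val → (g x ↔ val ⟨k, hk⟩) := by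
        cases ho : P.op ⟨k, hk⟩ with
        | true =>
          refine ⟨_, oneGate_and hp hq, fun x val hval => ?_⟩
          rw [hval ⟨k, hk⟩, ho, if_pos rfl, hpa x val hval, hqb x val hval]
        | false =>
          refine ⟨_, oneGate_or hp hq, fun x val hval => ?_⟩
          rw [hval ⟨k, hk⟩, ho, if_neg (by simp), hpa x val hval, hqb x val hval]
      obtain ⟨g, hg, hgv⟩ := hnew
      refine ⟨insert g T₂, h4.trans (Set.subset_insert _ _),
        (h5.one hg).mono (by omega) (by omega) subset_rfl, ?_⟩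
      intro i hi
      rcases Nat.lt_succ_iff_lt_or_eq.1 hi with h7 | h7
      · obtain ⟨p', hp', h8⟩ := h6 i h7
        exact ⟨p', Or.inr hp', h8⟩
      · have h8 : i = ⟨k, hk⟩ := Fin.ext h7
        subst h8
        exact ⟨g, Or.inl rfl, hgv⟩
  obtain ⟨T₂, h4, h5, h6⟩ := key s
  obtain ⟨p, hp, hpv⟩ := h6 o o.2
  obtain ⟨s', hs', D, -, hD⟩ := h5.circuit (oneGate_self hp)
  refine ⟨s', hs', D, fun x => ?_⟩
  rw [hD x]
  obtain ⟨val, h7, h8⟩ := hf x
  rw [hpv x val h7, h8]

end Pool.Agent.SliceCircuits
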