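import Mathlib
import Pool.Agent.Lib.MP_0a1b52_lc_SLICE.Fan2

/-!
The asymptotic form.
-/

namespace Pool.Agent.SliceCircuits

open Finset Filter

theorem log_pow_le_sqrt (C : ℕ) : ∃ n₀ : ℕ, ∀ n ≥ n₀, C * Nat.log 2 n ^ 8 ≤ Nat.sqrt n := by
  have h1 : (fun x : ℝ => Real.log x ^ 16) =o[atTop] (id : ℝ → ℝ) :=
    Real.isLittleO_pow_log_id_atTop
  have h2 := h1.comp_tendsto (tendsto_natCast_atTop_atTop (R := ℝ))
  have hl2 : 0 < Real.log 2 := Real.log_pos (by norm_num)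
  have hc : (0 : ℝ) < (Real.log 2) ^ 16 / ((C : ℝ) ^ 2 + 1) := by positivity
  obtain ⟨n₀, h3⟩ := eventually_atTop.1 (h2.bound hc)
  refine ⟨max n₀ 1, fun n hn => ?_⟩
  have hn0 : n₀ ≤ n := le_trans (le_max_left _ _) hn
  have hn1 : 1 ≤ n := le_trans (le_max_right _ _) hn
  have h4 := h3 n hn0
  simp only [Function.comp, id, Real.norm_eq_abs] at h4
  have hn1' : (1 : ℝ) ≤ n := by exact_mod_cast hn1
  have h5 : 0 ≤ Real.log n := Real.log_nonneg hn1'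
  rw [abs_of_nonneg (by positivity), abs_of_nonneg (by positivity)] at h4
  have h6 : (Nat.log 2 n : ℝ) * Real.log 2 ≤ Real.log n := by
    have h7 : (2 : ℝ) ^ Nat.log 2 n ≤ n := by exact_mod_cast Nat.pow_log_le_self 2 (by omega)
    have h8 := Real.log_le_log (by positivity) h7
    rwa [Real.log_pow] at h8
  have h7 : ((Nat.log 2 n : ℝ) * Real.log 2) ^ 16 ≤ Real.log n ^ 16 :=
    pow_le_pow_left₀ (by positivity) h6 16
  have h8 : ((C : ℝ) ^ 2 + 1) * (Nat.log 2 n : ℝ) ^ 16 ≤ n := by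
    rw [mul_pow] at h7
    have h9 : (Nat.log 2 n : ℝ) ^ 16 * Real.log 2 ^ 16 ≤
        Real.log 2 ^ 16 / ((C : ℝ) ^ 2 + 1) * n := h7.trans h4
    have h10 : (0 : ℝ) < (C : ℝ) ^ 2 + 1 := by positivity
    have h11 : Real.log 2 ^ 16 / ((C : ℝ) ^ 2 + 1) * n =
        Real.log 2 ^ 16 * n / ((C : ℝ) ^ 2 + 1) := by ring
    rw [h11, le_div_iff₀ h10] at h9
    have h12 : (0 : ℝ) < Real.log 2 ^ 16 := by positivity
    have h13 : Real.log 2 ^ 16 * (((C : ℝ) ^ 2 + 1) * (Nat.log 2 n : ℝ) ^ 16) ≤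
        Real.log 2 ^ 16 * n := by
      calc Real.log 2 ^ 16 * (((C : ℝ) ^ 2 + 1) * (Nat.log 2 n : ℝ) ^ 16) =
          (Nat.log 2 n : ℝ) ^ 16 * Real.log 2 ^ 16 * ((C : ℝ) ^ 2 + 1) := by ring
        _ ≤ _ := h9
    exact le_of_mul_le_mul_left h13 h12
  rw [Nat.le_sqrt]
  have h9 : ((C : ℝ) * (Nat.log 2 n : ℝ) ^ 8) * ((C : ℝ) * (Nat.log 2 n : ℝ) ^ 8) ≤ n := by
    have h10 : (0 : ℝ) ≤ (Nat.log 2 n : ℝ) ^ 16 := by positivity
    calc ((C : ℝ) * (Nat.log 2 n : ℝ) ^ 8) * ((C : ℝ) * (Nat.log 2 n : ℝ) ^ 8) =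
        (C : ℝ) ^ 2 * (Nat.log 2 n : ℝ) ^ 16 := by ring
      _ ≤ ((C : ℝ) ^ 2 + 1) * (Nat.log 2 n : ℝ) ^ 16 := by nlinarith
      _ ≤ n := h8
  exact_mod_cast h9

theorem log_size (n s k : ℕ) (hn : 2 ≤ n) (hs : s ≤ n ^ k) :
    Nat.log 2 (n * s) + 1 ≤ (2 * k + 2) * Nat.log 2 n := by
  have h1 : 1 ≤ Nat.log 2 n := Nat.le_log_of_pow_le (by norm_num) (by simpa using hn)
  have h2 : n < 2 ^ (Nat.log 2 n + 1) := Nat.lt_pow_succ_log_self (by norm_num) n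
  have h3 : n * s ≤ n ^ (k + 1) := by
    rw [pow_succ, mul_comm]
    exact Nat.mul_le_mul_right n hs
  have h4 : n ^ (k + 1) < 2 ^ ((Nat.log 2 n + 1) * (k + 1)) := by
    rw [pow_mul]
    exact Nat.pow_lt_pow_left h2 (by omega)
  have h5 : Nat.log 2 (n * s) < (Nat.log 2 n + 1) * (k + 1) := by
    rcases Nat.eq_zero_or_pos (n * s) with h0 | h0
    · rw [h0]
      simp
    · exact Nat.log_lt_of_lt_pow (by omega) (lt_of_le_of_lt h3 h4)
  have h6 : (Nat.log 2 n + 1) * (k + 1) ≤ (2 * k + 2) * Nat.log 2 n := by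
    calc (Nat.log 2 n + 1) * (k + 1) ≤ (Nat.log 2 n + Nat.log 2 n) * (k + 1) :=
          Nat.mul_le_mul_right _ (by omega)
      _ = (2 * k + 2) * Nat.log 2 n := by ring
  omega

theorem lower_asym (R : ℕ → Finset ℕ) (hR : Spread R) (h : ℕ → ℕ) (hP : PolySizeOn R h) :
    ∃ n₀ : ℕ, ∀ n ≥ n₀, Nat.log 2 (R n).card ≤ h n := by
  obtain ⟨C, hC⟩ := lower
  obtain ⟨k, N, hk⟩ := hP
  obtain ⟨n₁, h1⟩ := hR (C * (2 * k + 2) ^ 8)
  obtain ⟨n₂, h2⟩ := log_pow_le_sqrt (C * (2 * k + 2) ^ 8)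
  refine ⟨n₁ + n₂ + N + 2, fun n hn => ?_⟩
  have hn1 : n₁ ≤ n := by omega
  have hn2 : n₂ ≤ n := by omega
  have hn3 : 2 ≤ n := by omega
  obtain ⟨s, hs, D, hD1, hD2⟩ := hk n (by omega)
  obtain ⟨hne, hgap, hrange⟩ := h1 n hn1
  have hL := log_size n s k hn3 hs
  set L := Nat.log 2 (n * s) + 1 with hLdef
  have hL8 : L ^ 8 ≤ (2 * k + 2) ^ 8 * Nat.log 2 n ^ 8 := by
    rw [← mul_pow]
    exact Nat.pow_le_pow_left hL 8
  have hL4 : L ^ 4 ≤ (2 * k + 2) ^ 8 * Nat.log 2 n ^ 4 := by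
    calc L ^ 4 ≤ ((2 * k + 2) * Nat.log 2 n) ^ 4 := Nat.pow_le_pow_left hL 4
      _ = (2 * k + 2) ^ 4 * Nat.log 2 n ^ 4 := mul_pow _ _ _
      _ ≤ _ := Nat.mul_le_mul_right _ (Nat.pow_le_pow_right (by omega) (by norm_num))
  have h3 := hC n s D (R n) ?_ ?_ ?_ hD2
  · have h4 : (R n).card < 2 ^ (h n + 1) :=
      lt_of_lt_of_le h3 (Nat.pow_le_pow_right (by norm_num) (by omega))
    have h5 : Nat.log 2 (R n).card < h n + 1 :=
      Nat.log_lt_of_lt_pow (card_ne_zero_of_mem hne.choose_spec) h4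
    omega
  · calc C * L ^ 8 ≤ C * ((2 * k + 2) ^ 8 * Nat.log 2 n ^ 8) := Nat.mul_le_mul_left _ hL8
      _ = C * (2 * k + 2) ^ 8 * Nat.log 2 n ^ 8 := by ring
      _ ≤ Nat.sqrt n := h2 n hn2
  · intro a ha b hb hab
    have h4 := hgap a ha b hb hab
    have h5 : C * L ^ 4 ≤ C * (2 * k + 2) ^ 8 * Nat.log 2 n ^ 4 := by
      calc C * L ^ 4 ≤ C * ((2 * k + 2) ^ 8 * Nat.log 2 n ^ 4) := Nat.mul_le_mul_left _ hL4
        _ = C * (2 * k + 2) ^ 8 * Nat.log 2 n ^ 4 := by ring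
    rw [← hLdef]
    omega
  · intro a ha
    obtain ⟨h4, h5⟩ := hrange a ha
    have h6 : C * (R n).card * L ^ 8 ≤ C * (2 * k + 2) ^ 8 * (R n).card * Nat.log 2 n ^ 8 := by
      calc C * (R n).card * L ^ 8 ≤ C * (R n).card * ((2 * k + 2) ^ 8 * Nat.log 2 n ^ 8) :=
            Nat.mul_le_mul_left _ hL8
        _ = C * (2 * k + 2) ^ 8 * (R n).card * Nat.log 2 n ^ 8 := by ring
    rw [← hLdef]
    exact ⟨by omega, by omega⟩

/-- Polynomial bounds. -/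
theorem poly_bound (c k n s j : ℕ) (hn : 2 ≤ n) (hs : s ≤ n ^ k) :
    c * (n + s) ^ j ≤ n ^ (c + (k + 2) * j) := by
  have h1 : n + s ≤ n ^ (k + 2) := by
    have h2 : n ^ (k + 2) = n ^ (k + 1) * n := pow_succ _ _
    have h3 : n ^ (k + 1) * 2 ≤ n ^ (k + 1) * n := Nat.mul_le_mul_left _ hn
    have h4 : n ≤ n ^ (k + 1) := Nat.le_self_pow (by omega) n
    have h5 : n ^ k ≤ n ^ (k + 1) := Nat.pow_le_pow_right (by omega) (by omega)
    omega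
  have h2 : c ≤ n ^ c := (Nat.lt_pow_self (by omega)).le
  calc c * (n + s) ^ j ≤ n ^ c * (n ^ (k + 2)) ^ j :=
        Nat.mul_le_mul h2 (Nat.pow_le_pow_left h1 j)
    _ = n ^ (c + (k + 2) * j) := by rw [← pow_mul, ← pow_add]

/-- `CLIQUE_n` has circuits of polynomial size with NOT gates and unbounded fan-in. -/
def PolyAll : Prop :=
  ∃ k N : ℕ, ∀ n ≥ N, ∃ s ≤ n ^ k, ∃ D : Circuit (EdgeVar n) s, D.CorrectOn Set.univ

theorem upper_asym (R : ℕ → Finset ℕ) (h : ℕ → ℕ) (hP : PolyAll)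
    (hh : ∃ n₀ : ℕ, ∀ n ≥ n₀, Nat.log 2 (R n).card ≤ h n) : PolySizeOn R h := by
  obtain ⟨k, N, hk⟩ := hP
  obtain ⟨n₀, h0⟩ := hh
  refine ⟨100 + (k + 2) * 6, n₀ + N + 2, fun n hn => ?_⟩
  obtain ⟨s, hs, D, hD⟩ := hk n (by omega)
  have h1 : (R n).card < 2 ^ (h n + 1) :=
    lt_of_lt_of_le (Nat.lt_pow_succ_log_self (by norm_num) _)
      (Nat.pow_le_pow_right (by norm_num) (Nat.succ_le_succ (h0 n (by omega))))
  obtain ⟨s', hs', D', hD1, hD2⟩ := upper n s D (R n) (h n)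
    (fun G _ => hD G (Set.mem_univ _)) h1
  exact ⟨s', hs'.trans (poly_bound 100 k n s 6 (by omega) hs), D', hD1, hD2⟩

theorem self_asym (R : ℕ → Finset ℕ) (hR : Spread R) (h : ℕ → ℕ) (hP : PolySizeOn R h) :
    PolyAll := by
  obtain ⟨k, N, hk⟩ := hP
  obtain ⟨n₀, h0⟩ := hR 0
  obtain ⟨K, hK⟩ : ∃ K, K = n₀ + N + 16 := ⟨_, rfl⟩
  refine ⟨(4 + K) * (2 * (10 + (k + 2) * 2)) + 2 * (10 + (k + 2) * 2), 2, fun m hm => ?_⟩
  obtain ⟨n, hn⟩ : ∃ n, n = (4 * m + K) * (4 * m + K) := ⟨_, rfl⟩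
  have hsq : Nat.sqrt n = 4 * m + K := by
    rw [hn]
    exact Nat.sqrt_eq _
  have hnK : 4 * m + K ≤ n := by
    rw [hn]
    exact Nat.le_mul_self _
  obtain ⟨s, hs, D, -, hD⟩ := hk n (by omega)
  obtain ⟨⟨a, ha⟩, -, hrange⟩ := h0 n (by omega)
  obtain ⟨h1, h2⟩ := hrange a ha
  rw [Nat.zero_mul, Nat.zero_mul, Nat.add_zero] at h1 h2
  have hu16 : 16 ≤ Nat.sqrt n := by
    rw [hsq]
    omega
  have hu4 : 4 * m ≤ Nat.sqrt n := by
    rw [hsq]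
    omega
  obtain ⟨s', hs', D', hD'⟩ := self_reduction n s D a m hu16 hu4 h1 h2
    (fun G hG => hD G (by rw [Set.mem_singleton_iff.1 hG]; exact mem_coe.2 ha))
  refine ⟨s', ?_, D', hD'⟩
  have h3 : s' ≤ n ^ (10 + (k + 2) * 2) := hs'.trans (poly_bound 10 k n s 2 (by omega) hs)
  have h4 : 4 * m + K ≤ m ^ (4 + K) * m := by
    have h5 : 4 + K ≤ m ^ (4 + K) := (Nat.lt_pow_self (by omega)).le
    calc 4 * m + K ≤ 4 * m + K * m := by
          have : K ≤ K * m := Nat.le_mul_of_pos_right _ (by omega)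
          omega
      _ = (4 + K) * m := by ring
      _ ≤ _ := Nat.mul_le_mul_right _ h5
  have h5 : n ≤ (m ^ (4 + K) * m) ^ 2 := by
    rw [hn, pow_two]
    exact Nat.mul_le_mul h4 h4
  calc s' ≤ n ^ (10 + (k + 2) * 2) := h3
    _ ≤ ((m ^ (4 + K) * m) ^ 2) ^ (10 + (k + 2) * 2) := Nat.pow_le_pow_left h5 _
    _ = m ^ ((4 + K) * (2 * (10 + (k + 2) * 2)) + 2 * (10 + (k + 2) * 2)) := by
        rw [← pow_mul, mul_pow, ← pow_mul, ← pow_add]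

theorem polyAll_of_not_Q1 (hQ : ¬ Q1) : PolyAll := by
  unfold Q1 at hQ
  push Not at hQ
  obtain ⟨k, N, hQ⟩ := hQ
  refine ⟨2 + (k + 2) * 2, N + 2, fun n hn => ?_⟩
  obtain ⟨s, op, a, b, o, hac, hcomp, hs⟩ := hQ n (by omega)
  have hs1 : 1 ≤ s := by
    have := o.2
    omega
  obtain ⟨s', hs', D, hD⟩ := of_fan2 (V := EdgeVar n) ⟨op, a, b, hac⟩ o (clq n) (by
    intro x
    have h1 : ∀ G : SimpleGraph (Fin n), ∃ val : Fin s → Prop,
        (⟨op, a, b, hac⟩ : Pre2 (EdgeVar n) s).IsEval (fun e => G.Adj e.1.1 e.1.2) val ∧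
        (val o ↔ HasClique G) := hcomp
    have h2 := h1 (graph x)
    rw [graph_adj] at h2
    exact h2)
  refine ⟨s', ?_, D, ?_⟩
  · refine le_trans ?_ (poly_bound 2 k n s 2 (by omega) hs)
    rw [card_var] at hs'
    have h3 := CliqueModules.two_mul_choose_two_le n
    have h4 : 2 * (n + s) ^ 2 = 2 * (n * n) + 4 * (n * s) + 2 * (s * s) := by ring
    have h5 : s ≤ s * s := Nat.le_mul_self s
    have h6 : 1 ≤ s * s := Nat.mul_pos hs1 hs1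
    rw [h4]
    omega
  · rw [correctOn_iff]
    exact fun x _ => hD x

theorem not_Q1_of_polyAll (hP : PolyAll) : ¬ Q1 := by
  obtain ⟨k, N, hk⟩ := hP
  intro hQ
  obtain ⟨n, hn, h⟩ := hQ (6 + (k + 2) * 3) (N + 2)
  obtain ⟨s, hs, D, hD⟩ := hk n (by omega)
  have hs1 : 1 ≤ s := by
    have := D.out.2
    omega
  have : Nonempty (EdgeVar n) := ⟨⟨(⟨0, by omega⟩, ⟨1, by omega⟩), by
    show (0 : ℕ) < 1
    norm_num⟩⟩
  obtain ⟨s', hs', P, o, hP⟩ := to_fan2 D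
  have h1 := h s' P.op P.a P.b o P.acyclic (by
    intro G
    obtain ⟨val, hval⟩ := P.exists_eval (fun e : EdgeVar n => G.Adj e.1.1 e.1.2)
    refine ⟨val, hval, ?_⟩
    exact (hP _ val hval).trans (hD G (Set.mem_univ _)))
  have h2 : s' ≤ n ^ (6 + (k + 2) * 3) := by
    refine le_trans ?_ (poly_bound 6 k n s 3 (by omega) hs)
    refine hs'.trans ?_
    rw [card_var]
    have h3 := CliqueModules.two_mul_choose_two_le n
    set P := n + s with hP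
    have h4 : 2 * (n.choose 2 + s) ≤ 3 * (P * P) := by
      have h5 : P * P = n * n + 2 * (n * s) + s * s := by rw [hP]; ring
      have h6 : s ≤ s * s := Nat.le_mul_self s
      omega
    have h5 : s * (2 * (n.choose 2 + s)) ≤ P * (3 * (P * P)) := Nat.mul_le_mul (by omega) h4
    have h6 : 6 * P ^ 3 = 6 * (P * (P * P)) := by ring
    have h7 : P * (3 * (P * P)) = 3 * (P * (P * P)) := by ring
    have h8 : 1 ≤ P * (P * P) := Nat.mul_pos (by omega) (Nat.mul_pos (by omega) (by omega))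
    rw [h6]
    rw [h7] at h5
    omega
  omega

/-- For all spread sets of slices, the number of NOT gates is decisive. -/
theorem dichotomy (R : ℕ → Finset ℕ) (hR : Spread R) (h : ℕ → ℕ) :
    PolySizeOn R h ↔ (∃ n₀ : ℕ, ∀ n ≥ n₀, Nat.log 2 (R n).card ≤ h n) ∧ ¬ Q1 := by
  constructor
  · exact fun hP => ⟨lower_asym R hR h hP, not_Q1_of_polyAll (self_asym R hR h hP)⟩
  · rintro ⟨h1, h2⟩
    exact upper_asym R h (polyAll_of_not_Q1 h2) h1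

end Pool.Agent.SliceCircuits
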